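import Pool.Agent.Lib.MP_a3e05c_co.OUT.Defs
import Pool.Agent.Lib.MP_a3e05c_co.NCS.EvenG

/-!
# EULER, block OUT: the degree pattern of a nonempty even graph

Paper proof.  `F ⊆ KE V`, all degrees even, nonempty, `q = |F|`, `∑ fd = 2 q` (`NC.sum_fd`).  Let
`x₁, x₂, x₃` be three different vertices of largest degrees, `d ≥ e ≥ g ≥ fd F v` for all others
(choose `x₁` with maximal degree, `x₂` with maximal degree in the complement of `x₁`, ...).
`g ≥ 2`: an even nonempty graph meets at least three vertices.  `3 d ≤ 2 q`: `NC.three_fd_le`.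
Counting edges at `{x₁, x₂}`: `d + e ≤ q + [x₁x₂ ∈ F]`, at `{x₁, x₂, x₃}`: `d + e + g ≤ q + 3`; in
general `fd F i + fd F j ≤ q` if `s(i, j) ∉ F`, `i ≠ j`, and `≤ d + e`.
Number of vertices met by `F`: each has degree `≥ 2`, so it is `≤ q` and, taking out `x₁, x₂`,
`≤ 2 + (2 q - d - e)/2`.
The sum: the present pairs not at `b` are pairs of vertices different from `b`; let
`Z = ∑_{v ≠ b, x₁, x₂} 2 ^ fd F v` over the `n - 3` other vertices; for even `f ≤ g`, `g ≥ 2`:
`2 ^ f - 1 ≤ (2 ^ g - 1) f / g` (convexity), so `Z ≤ n - 3 + (2^g - 1)(2 q - d - e)/g`.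
The sum over the pairs is `≤ [x₁x₂ ∉ F] 2^(d+e) + (2^d + 2^e) Z + Z²/2`, and `x₁x₂ ∉ F` implies
`d + e ≤ q`.
-/

set_option linter.unusedSectionVars false

open Finset

namespace MP_a3e05c_co.OUT

variable {V : Type} [Fintype V] [DecidableEq V]

private theorem Comb_inter {F : Finset (Sym2 V)} {i j : V} (hij : i ≠ j) :
    ((F.filter fun e => i ∈ e) ∩ (F.filter fun e => j ∈ e)).card ≤
      if s(i, j) ∈ F then 1 else 0 := by
  have h : (F.filter fun e => i ∈ e) ∩ (F.filter fun e => j ∈ e) ⊆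
      F.filter fun e => e = s(i, j) := by
    intro e he
    rw [mem_inter, mem_filter, mem_filter] at he
    exact mem_filter.2 ⟨he.1.1, (Sym2.mem_and_mem_iff hij).1 ⟨he.1.2, he.2.2⟩⟩
  refine (card_le_card h).trans ?_
  rw [filter_eq']
  split_ifs <;> simp

private theorem Comb_two {F : Finset (Sym2 V)} {i j : V} (hij : i ≠ j) :
    NC.fd F i + NC.fd F j ≤ F.card + if s(i, j) ∈ F then 1 else 0 := by
  unfold NC.fd
  rw [← card_union_add_card_inter]
  exact add_le_add (card_le_card (union_subset (filter_subset _ _) (filter_subset _ _)))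
    (Comb_inter hij)

private theorem Comb_three {F : Finset (Sym2 V)} {i j k : V} (hij : i ≠ j) (hik : i ≠ k)
    (hjk : j ≠ k) : NC.fd F i + NC.fd F j + NC.fd F k ≤ F.card + 3 := by
  unfold NC.fd
  set A := F.filter fun e => i ∈ e
  set B := F.filter fun e => j ∈ e
  set C := F.filter fun e => k ∈ e
  have h1 := card_union_add_card_inter A B
  have h2 := card_union_add_card_inter (A ∪ B) C
  have h3 : (A ∩ B).card ≤ 1 := (Comb_inter hij).trans (by split_ifs <;> simp)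
  have h4 : (A ∩ C).card ≤ 1 := (Comb_inter hik).trans (by split_ifs <;> simp)
  have h5 : (B ∩ C).card ≤ 1 := (Comb_inter hjk).trans (by split_ifs <;> simp)
  have h6 : ((A ∪ B) ∩ C).card ≤ (A ∩ C).card + (B ∩ C).card := by
    rw [union_inter_distrib_right]
    exact card_union_le _ _
  have h7 : ((A ∪ B) ∪ C).card ≤ F.card :=
    card_le_card (union_subset (union_subset (filter_subset _ _) (filter_subset _ _))
      (filter_subset _ _))
  omega

private theorem Comb_conv {f g : ℕ} (h : f ≤ g) :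
    (g : ℝ) * (2 ^ f - 1) ≤ f * (2 ^ g - 1) := by
  induction g, h using Nat.le_induction with
  | base => exact le_rfl
  | succ g hg ih =>
    rcases Nat.eq_zero_or_pos f with h0 | h0
    · subst h0
      simp
    · have h1 : (1 : ℝ) ≤ f := by exact_mod_cast h0
      have h2 : (2 : ℝ) ^ f ≤ 2 ^ g := pow_le_pow_right₀ (by norm_num) hg
      have h3 : (0 : ℝ) < 2 ^ g := by positivity
      have h4 : (2 : ℝ) ^ f - 1 ≤ f * 2 ^ g := by nlinarith
      rw [pow_succ]
      push_cast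
      nlinarith

private theorem Comb_conv' {f g : ℕ} (h : f ≤ g) (hg : 1 ≤ g) :
    (2 : ℝ) ^ f ≤ 1 + (2 ^ g - 1) / g * f := by
  have h1 := Comb_conv h
  have hg0 : (0 : ℝ) < g := by exact_mod_cast hg
  have h2 : (2 : ℝ) ^ f - 1 ≤ f * (2 ^ g - 1) / g := by
    rw [le_div_iff₀ hg0]
    linarith
  have h3 : (f : ℝ) * (2 ^ g - 1) / g = (2 ^ g - 1) / g * f := by ring
  linarith

/-- adding a vertex -/
private theorem Comb_insert (F : Finset (Sym2 V)) {a : V} {S : Finset V} (ha : a ∉ S) :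
    ∑ x ∈ KS (insert a S) \ F, (2 : ℝ) ^ fs F x ≤ ∑ x ∈ KS S \ F, (2 : ℝ) ^ fs F x +
      ∑ v ∈ S.filter (fun v => s(a, v) ∉ F), (2 : ℝ) ^ NC.fd F a * 2 ^ NC.fd F v := by
  have h1 : KS (insert a S) \ F ⊆ (KS S \ F) ∪
      (S.filter fun v => s(a, v) ∉ F).image fun v => s(a, v) := by
    intro x hx
    induction x using Sym2.ind with
    | _ u v =>
      rw [mem_sdiff, mem_KS, mem_insert, mem_insert] at hx
      rw [mem_union, mem_sdiff, mem_KS, mem_image]
      obtain ⟨⟨h2, h3, h4⟩, h5⟩ := hx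
      rcases h2 with rfl | h2
      · rcases h3 with rfl | h3
        · exact absurd rfl h4
        · exact Or.inr ⟨v, mem_filter.2 ⟨h3, h5⟩, rfl⟩
      · rcases h3 with rfl | h3
        · refine Or.inr ⟨u, mem_filter.2 ⟨h2, ?_⟩, Sym2.eq_swap⟩
          rwa [Sym2.eq_swap]
        · exact Or.inl ⟨⟨h2, h3, h4⟩, h5⟩
  have hinj : ∀ u ∈ S.filter (fun v => s(a, v) ∉ F), ∀ v ∈ S.filter (fun v => s(a, v) ∉ F),
      s(a, u) = s(a, v) → u = v := fun u _ v _ h => Sym2.congr_right.1 h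
  have h2 : ∑ x ∈ (S.filter fun v => s(a, v) ∉ F).image (fun v => s(a, v)), (2 : ℝ) ^ fs F x =
      ∑ v ∈ S.filter (fun v => s(a, v) ∉ F), (2 : ℝ) ^ NC.fd F a * 2 ^ NC.fd F v := by
    rw [sum_image hinj]
    refine sum_congr rfl fun v _ => ?_
    rw [fs_mk, pow_add]
  have h3 := sum_union_inter (s₁ := KS S \ F)
    (s₂ := (S.filter fun v => s(a, v) ∉ F).image fun v => s(a, v))
    (f := fun x => (2 : ℝ) ^ fs F x)
  have h4 : 0 ≤ ∑ x ∈ (KS S \ F) ∩ ((S.filter fun v => s(a, v) ∉ F).image fun v => s(a, v)),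
      (2 : ℝ) ^ fs F x := sum_nonneg fun _ _ => by positivity
  have h5 : ∑ x ∈ KS (insert a S) \ F, (2 : ℝ) ^ fs F x ≤
      ∑ x ∈ (KS S \ F) ∪ ((S.filter fun v => s(a, v) ∉ F).image fun v => s(a, v)),
        (2 : ℝ) ^ fs F x := sum_le_sum_of_subset_of_nonneg h1 fun _ _ _ => by positivity
  rw [h2] at h3
  linarith

private theorem Comb_filter_le (F : Finset (Sym2 V)) (a : V) (S : Finset V) :
    ∑ v ∈ S.filter (fun v => s(a, v) ∉ F), (2 : ℝ) ^ NC.fd F a * 2 ^ NC.fd F v ≤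
      (2 : ℝ) ^ NC.fd F a * ∑ v ∈ S, (2 : ℝ) ^ NC.fd F v := by
  rw [mul_sum]
  exact sum_le_sum_of_subset_of_nonneg (filter_subset _ _) fun _ _ _ => by positivity

private theorem Comb_sq (F : Finset (Sym2 V)) (S : Finset V) :
    ∑ x ∈ KS S \ F, (2 : ℝ) ^ fs F x ≤ (∑ v ∈ S, (2 : ℝ) ^ NC.fd F v) ^ 2 / 2 := by
  induction S using Finset.induction_on with
  | empty =>
    have h : KS (∅ : Finset V) = ∅ := by
      ext x
      induction x using Sym2.ind with
      | _ u v => simp [mem_KS]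
    rw [h]
    simp
  | insert a S ha ih =>
    have h1 := Comb_insert F ha
    have h2 := Comb_filter_le F a S
    rw [sum_insert ha]
    have h3 : (0 : ℝ) < 2 ^ NC.fd F a := by positivity
    nlinarith

theorem comb {F : Finset (Sym2 V)} (hF : F ⊆ NC.KE V) (hev : ∀ v, Even (NC.fd F v))
    (hne : F.Nonempty) {b : V} (hb : NC.fd F b = 0) :
    ∃ d e g : ℕ, Pat F.card d e g ∧ (∀ v, NC.fd F v ≤ d) ∧
      (∀ i j, i ≠ j → s(i, j) ∉ F → NC.fd F i + NC.fd F j ≤ min F.card (d + e)) ∧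
      (univ.filter fun v => NC.fd F v ≠ 0).card ≤ vv F.card d e ∧
      ∑ x ∈ (NC.KE V \ F).filter (fun x => b ∉ x), (2 : ℝ) ^ fs F x ≤
        Phi (Fintype.card V) F.card d e g := by
  have h2 : ∀ v, NC.fd F v ≠ 0 → 2 ≤ NC.fd F v := by
    intro v hv
    obtain ⟨k, hk⟩ := hev v
    omega
  set A : Finset V := univ.filter fun v => NC.fd F v ≠ 0 with hA
  have hA2 : ∀ v ∈ A, 2 ≤ NC.fd F v := fun v hv => h2 v (mem_filter.1 hv).2
  have hA0 : ∀ v, v ∉ A → NC.fd F v = 0 := by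
    intro v hv
    by_contra h
    exact hv (mem_filter.2 ⟨mem_univ _, h⟩)
  have hA3 : 3 ≤ A.card := by
    obtain ⟨e, he⟩ := hne
    induction e using Sym2.ind with
    | _ x y =>
      have h3 : 0 < NC.fd F x := NC.fd_pos_of_mem he (Sym2.mem_mk_left x y)
      obtain ⟨N, hN1, hN2, hN3⟩ := NC.exists_nbr hF hev x
      have h4 : insert x N ⊆ A := by
        intro u hu
        rw [mem_insert] at hu
        refine mem_filter.2 ⟨mem_univ _, ?_⟩
        rcases hu with rfl | hu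
        · omega
        · have := hN3 u hu
          omega
      have h5 := card_le_card h4
      rw [card_insert_of_notMem hN2, hN1] at h5
      have h6 := h2 x (by omega)
      omega
  -- the three vertices
  obtain ⟨x₁, hx₁, hm₁⟩ := exists_max_image A (NC.fd F) (card_pos.1 (by omega))
  have hc1 : (A.erase x₁).card = A.card - 1 := card_erase_of_mem hx₁
  obtain ⟨x₂, hx₂, hm₂⟩ := exists_max_image (A.erase x₁) (NC.fd F) (card_pos.1 (by omega))
  have hc2 : ((A.erase x₁).erase x₂).card = A.card - 2 := by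
    rw [card_erase_of_mem hx₂, hc1]
    omega
  obtain ⟨x₃, hx₃, hm₃⟩ := exists_max_image ((A.erase x₁).erase x₂) (NC.fd F)
    (card_pos.1 (by omega))
  rw [mem_erase] at hx₂
  rw [mem_erase, mem_erase] at hx₃
  have h21 : x₂ ≠ x₁ := hx₂.1
  have h32 : x₃ ≠ x₂ := hx₃.1
  have h31 : x₃ ≠ x₁ := hx₃.2.1
  have hle1 : ∀ v, NC.fd F v ≤ NC.fd F x₁ := by
    intro v
    by_cases hv : v ∈ A
    · exact hm₁ v hv
    · rw [hA0 v hv]
      exact Nat.zero_le _
  have hle2 : ∀ v, v ≠ x₁ → NC.fd F v ≤ NC.fd F x₂ := by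
    intro v hv1
    by_cases hv : v ∈ A
    · exact hm₂ v (mem_erase.2 ⟨hv1, hv⟩)
    · rw [hA0 v hv]
      exact Nat.zero_le _
  have hle3 : ∀ v, v ≠ x₁ → v ≠ x₂ → NC.fd F v ≤ NC.fd F x₃ := by
    intro v hv1 hv2
    by_cases hv : v ∈ A
    · exact hm₃ v (mem_erase.2 ⟨hv2, mem_erase.2 ⟨hv1, hv⟩⟩)
    · rw [hA0 v hv]
      exact Nat.zero_le _
  have hg2 : 2 ≤ NC.fd F x₃ := hA2 x₃ hx₃.2.2
  have hbx1 : b ≠ x₁ := by
    rintro rfl
    have := hA2 b hx₁
    omega
  have hbx2 : b ≠ x₂ := by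
    rintro rfl
    have := hA2 b hx₂.2
    omega
  have hsum := NC.sum_fd hF
  -- the rest
  set R : Finset V := ((univ.erase b).erase x₁).erase x₂ with hR
  have hx1b : x₁ ∈ (univ : Finset V).erase b := mem_erase.2 ⟨hbx1.symm, mem_univ _⟩
  have hx2b : x₂ ∈ ((univ : Finset V).erase b).erase x₁ :=
    mem_erase.2 ⟨h21, mem_erase.2 ⟨hbx2.symm, mem_univ _⟩⟩
  have hRc : R.card + 3 = Fintype.card V := by
    have h3 := card_erase_add_one hx2b
    have h4 := card_erase_add_one hx1b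
    have h5 := card_erase_add_one (mem_univ b)
    rw [card_univ] at h5
    rw [← hR] at h3
    omega
  have hRs : ∑ v ∈ R, NC.fd F v + NC.fd F x₁ + NC.fd F x₂ = 2 * F.card := by
    rw [← hsum, ← add_sum_erase univ _ (mem_univ b), ← add_sum_erase _ _ hx1b,
      ← add_sum_erase _ _ hx2b, hb]
    ring
  refine ⟨NC.fd F x₁, NC.fd F x₂, NC.fd F x₃, ?_, hle1, ?_, ?_, ?_⟩
  · refine ⟨hev _, hev _, hev _, hg2, hle2 x₃ h31, hle1 x₂, NC.three_fd_le hF hev x₁, ?_,
      Comb_three h21.symm h31.symm h32.symm⟩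
    have h3 := Comb_two (F := F) h21.symm
    split_ifs at h3 <;> omega
  · intro i j hij hF2
    have h3 := Comb_two (F := F) hij
    rw [if_neg hF2, add_zero] at h3
    refine le_min h3 ?_
    by_cases hi : i = x₁
    · subst hi
      exact Nat.add_le_add_left (hle2 j hij.symm) _
    · have h4 := hle2 i hi
      have h5 := hle1 j
      omega
  · unfold vv
    refine le_min ?_ ?_
    · have h3 : ∑ v ∈ A, 2 ≤ ∑ v, NC.fd F v :=
        (sum_le_sum hA2).trans (sum_le_sum_of_subset (subset_univ _))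
      rw [sum_const, smul_eq_mul, hsum] at h3
      omega
    · have h3 : ∑ v ∈ (A.erase x₁).erase x₂, 2 ≤ ∑ v ∈ (A.erase x₁).erase x₂, NC.fd F v :=
        sum_le_sum fun v hv => hA2 v (mem_of_mem_erase (mem_of_mem_erase hv))
      have h4 : ∑ v ∈ (A.erase x₁).erase x₂, NC.fd F v ≤ ∑ v ∈ R, NC.fd F v := by
        apply sum_le_sum_of_subset
        intro v hv
        rw [mem_erase, mem_erase] at hv
        rw [hR, mem_erase, mem_erase, mem_erase]
        refine ⟨hv.1, hv.2.1, ?_, mem_univ _⟩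
        rintro rfl
        have := hA2 v hv.2.2
        omega
      rw [sum_const, smul_eq_mul, hc2] at h3
      have h5 : 2 * (A.card - 2) ≤ 2 * F.card - NC.fd F x₁ - NC.fd F x₂ := by omega
      omega
  · have hW : insert x₁ (insert x₂ R) = univ.erase b := by
      rw [hR, insert_erase hx2b, insert_erase hx1b]
    have hT : (NC.KE V \ F).filter (fun x => b ∉ x) ⊆ KS (insert x₁ (insert x₂ R)) \ F := by
      intro x hx
      rw [hW]
      induction x using Sym2.ind with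
      | _ u v =>
        rw [mem_filter, mem_sdiff, NC.mem_KE, Sym2.mk_isDiag_iff, Sym2.mem_iff, not_or] at hx
        rw [mem_sdiff, mem_KS]
        exact ⟨⟨mem_erase.2 ⟨fun h => hx.2.1 h.symm, mem_univ _⟩,
          mem_erase.2 ⟨fun h => hx.2.2 h.symm, mem_univ _⟩, hx.1.1⟩, hx.1.2⟩
    have hx2R : x₂ ∉ R := by
      rw [hR]
      exact notMem_erase _ _
    have hx1R : x₁ ∉ insert x₂ R := by
      rw [mem_insert, not_or]
      refine ⟨h21.symm, ?_⟩
      rw [hR]
      intro h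
      exact notMem_erase _ _ (mem_of_mem_erase h)
    have h3 : ∑ x ∈ (NC.KE V \ F).filter (fun x => b ∉ x), (2 : ℝ) ^ fs F x ≤
        ∑ x ∈ KS (insert x₁ (insert x₂ R)) \ F, (2 : ℝ) ^ fs F x :=
      sum_le_sum_of_subset_of_nonneg hT fun _ _ _ => by positivity
    have h4 := Comb_insert F hx1R
    have h5 := Comb_insert F hx2R
    have h6 := Comb_filter_le F x₂ R
    have h7 := Comb_sq F R
    set Z : ℝ := ∑ v ∈ R, (2 : ℝ) ^ NC.fd F v with hZ
    have hZ0 : 0 ≤ Z := sum_nonneg fun _ _ => by positivity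
    have h8 : ∑ v ∈ (insert x₂ R).filter (fun v => s(x₁, v) ∉ F),
        (2 : ℝ) ^ NC.fd F x₁ * 2 ^ NC.fd F v ≤
        (if NC.fd F x₁ + NC.fd F x₂ ≤ F.card then (2 : ℝ) ^ (NC.fd F x₁ + NC.fd F x₂) else 0) +
          (2 : ℝ) ^ NC.fd F x₁ * Z := by
      have h9 := Comb_filter_le F x₁ R
      have h12 : (0 : ℝ) < 2 ^ (NC.fd F x₁ + NC.fd F x₂) := by positivity
      by_cases h10 : s(x₁, x₂) ∈ F
      · rw [filter_insert, if_neg (not_not.2 h10)]
        split_ifs <;> linarith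
      · have h11 := Comb_two (F := F) h21.symm
        rw [if_neg h10, add_zero] at h11
        rw [filter_insert, if_pos h10, sum_insert fun h => hx2R (mem_filter.1 h).1, ← pow_add,
          if_pos h11]
        linarith
    have h13 : Z ≤ (Fintype.card V : ℝ) - 3 + (2 ^ NC.fd F x₃ - 1) *
        (2 * F.card - NC.fd F x₁ - NC.fd F x₂) / NC.fd F x₃ := by
      have h14 : Z ≤ ∑ v ∈ R, (1 + ((2 : ℝ) ^ NC.fd F x₃ - 1) / NC.fd F x₃ * NC.fd F v) := by
        refine sum_le_sum fun v hv => ?_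
        rw [hR, mem_erase, mem_erase] at hv
        exact Comb_conv' (hle3 v hv.2.1 hv.1) (by omega)
      rw [sum_add_distrib, ← mul_sum, sum_const, nsmul_eq_mul, mul_one, ← Nat.cast_sum] at h14
      have h15 : ((∑ v ∈ R, NC.fd F v : ℕ) : ℝ) =
          2 * F.card - NC.fd F x₁ - NC.fd F x₂ := by
        have h16 : ((∑ v ∈ R, NC.fd F v + NC.fd F x₁ + NC.fd F x₂ : ℕ) : ℝ) =
            ((2 * F.card : ℕ) : ℝ) := by rw [hRs]
        push_cast at h16 ⊢
        linarith
      have h17 : (R.card : ℝ) = (Fintype.card V : ℝ) - 3 := by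
        rw [← hRc]
        push_cast
        ring
      rw [h15, h17] at h14
      refine h14.trans (le_of_eq ?_)
      ring
    unfold Phi
    set Y : ℝ := (Fintype.card V : ℝ) - 3 + (2 ^ NC.fd F x₃ - 1) *
        (2 * F.card - NC.fd F x₁ - NC.fd F x₂) / NC.fd F x₃ with hY
    have h18 : (0 : ℝ) < 2 ^ NC.fd F x₁ := by positivity
    have h19 : (0 : ℝ) < 2 ^ NC.fd F x₂ := by positivity
    have h20 : ((2 : ℝ) ^ NC.fd F x₁ + 2 ^ NC.fd F x₂) * Z ≤
        (2 ^ NC.fd F x₁ + 2 ^ NC.fd F x₂) * Y := mul_le_mul_of_nonneg_left h13 (by positivity)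
    have h21 : Z ^ 2 ≤ Y ^ 2 := pow_le_pow_left₀ hZ0 h13 2
    linarith

end MP_a3e05c_co.OUT
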