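import Pool.Agent.Lib.MP_a3e05c_co.OUT.Num

/-!
# EULER, block OUT: the final numerical inequality for `n ≥ 61`

Paper proof.  `m = n - 3` is even, `≥ 58`, `q ≤ m/2`, `d ≤ 2q/3 ≤ m/3`, `K = n - 3`,
`J = min q (d+e)`, `c = n - 6 - v`.  Write `kqQ L ≤ (1/2)^(L+2)/(L+1)` for `L ≥ 1`
(`(L/(L+1))^L ≤ 1/2`), the right side is decreasing in `L`.
(1) `R = 1.9688 n (n+25)/10 (n/(n-3))^((n-5)/2) ≤ (5/4) n²`: `(n+25)/10 ≤ .141 n` for `n ≥ 61` and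
`(1 + 3/(n-3))^((n-5)/2) ≤ exp (3/2) ≤ 4.49`.
(2) `T1 = (n-1)(n-2)/2 * kqQ (n-3) * 1.01 ≤ n (1/2)^n * 2` (tiny).
(3) `Phi ≤ (n²/3) 2^(d+e) ≤ (2 n²/3) 2^J`: `Y = n - 3 + (2^g-1)(2q-d-e)/g ≤ n - 3 + 2^g q ≤
(3/4) n 2^g`, `(2^d+2^e) Y ≤ (3/2) n 2^(d+g) ≤ (3/2) n 2^(d+e)`, `Y²/2 ≤ (9/32) n² 2^(2g) ≤
(9/32) n² 2^(d+e)`; and `d + e ≤ q + 1` so `2^(d+e) ≤ 2 * 2^J`.
So `w0 = kqQ (K-J)/2^J * Phi ≤ (2n²/3) kqQ (K/2) ≤ (2n²/3) (1/2)^((n+1)/2)/((n-1)/2)`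
(`K - J ≥ K/2 = (n-3)/2`).
(4) `X = XXQ m q d ≤ 4/5`: `q/(m-1-d) ≤ (m/2)/(2m/3-1) ≤ .77`, second term
`≤ (m²/6)/(2 (m/3-2)(2m/3-1)²) ≤ .0115`; so `1/(1-X/16)^16 ≤ 5/2` (`.95^16 ≥ .44`).
(5) `w1 = 11/256 * (kqQ (m-3-J)/2^J * Phi) * (6/5 * 1.9688 * m * (c+9)/6 * (m/c)^((m-4)/2) * ..) ≤ 3`.
Let `a = (d+e)/2` (a natural number, `d + e` is even), `2 ≤ a`, `2a ≤ q+1`, `v ≤ (2q-d-e)/2 + 2`, so
`c ≥ m - 5 - q + a ≥ m/2 - 5 + a =: c0` (and `c ≤ m - 5`), `(m/c)^k ≤ (m/c0)^k`, `k = m/2 - 2`;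
`kqQ (m-3-J) ≤ (1/2)^(m-1-J)/(m-2-J) ≤ 4^a (1/2)^(m-1)/(m/2-2)`.
`h a = 4^a (m/(m/2-5+a))^k` is increasing in `a`: `(1 + 1/c0)^k ≤ exp (k/c0) ≤ exp (1.04) ≤ 4`.  So
`h a ≤ h (m/4 + 1/2)` or, in natural numbers, `≤ h a1`, `a1 = (m/2+1)/2` (integer part)
`≤ 2^(m/2+1) * (m/(3m/4 - 5))^k` `≤ 2^(m/2+1) (4/3)^k exp (k * (20/3)/(m - 20/3)) ≤
2^(m/2+1) (4/3)^k exp (3.8)`.  Altogether `w1 ≤ 11/256 * (2n²/3) * (6/5) * 1.9688 * m * (m+4)/6 *
2^(m/2+1) (4/3)^(m/2-2) * 45 * (1/2)^(m-1)/(m/2-2)`; this is decreasing in `m` (each step `m → m+2`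
multiplies by at most `(2/3) * (1+2/58)^4 ≤ .77`).  At `m = 58` this crude form is about `6`;
any bound `w1 ≤ 10` is enough.
(6) Total: `1.6488 * 11/256 * R * (T1 + w0 (5/2 + w1)) * n² ≤ .0886 n⁴ (T1 + (2n²/3)(1/2)^((n-1)/2)
/(n-1) * (5/2 + w1))`; with `w1 ≤ 10` this is `≤ .6` at `n = 61` and decreasing
(`n^6/(n-1) 2^(-n/2)`), so `≤ 7/5`.
-/

open Real

namespace MP_a3e05c_co.OUT

private theorem numB_pow_exp (x : ℝ) (hx : 0 ≤ x) (k : ℕ) (t : ℝ) (h : (k : ℝ) * x ≤ t) :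
    (1 + x) ^ k ≤ Real.exp t := by
  have h1 : 1 + x ≤ Real.exp x := by
    have := Real.add_one_le_exp x
    linarith
  calc (1 + x) ^ k ≤ Real.exp x ^ k := pow_le_pow_left₀ (by linarith) h1 k
    _ = Real.exp (k * x) := by rw [← Real.exp_nat_mul]
    _ ≤ Real.exp t := Real.exp_le_exp.2 h

private theorem numB_pow_rat (x : ℚ) (hx : 0 ≤ x) (k : ℕ) (t : ℝ) (C : ℚ)
    (h : (k : ℝ) * (x : ℝ) ≤ t) (hC : Real.exp t ≤ (C : ℝ)) :
    (1 + x) ^ k ≤ C := by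
  have h1 := numB_pow_exp (x : ℝ) (by exact_mod_cast hx) k t h
  have h2 : (((1 + x) ^ k : ℚ) : ℝ) ≤ (C : ℝ) := by
    push_cast
    exact h1.trans hC
  exact_mod_cast h2

private theorem numB_exp_three_half : Real.exp (3 / 2) ≤ ((4482 / 1000 : ℚ) : ℝ) := by
  have h1 : Real.exp (3 / 2) ^ 2 = Real.exp 1 ^ 3 := by
    rw [← Real.exp_nat_mul, ← Real.exp_nat_mul]
    norm_num
  have h2 := Real.exp_one_lt_d9
  push_cast
  refine abs_le_of_sq_le_sq' ?_ (by norm_num) |>.2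
  rw [h1]
  refine (pow_le_pow_left₀ (Real.exp_pos _).le h2.le 3).trans (by norm_num)

private theorem numB_exp_three : Real.exp (81 / 26) ≤ ((23 : ℚ) : ℝ) := by
  have h1 : Real.exp (81 / 26) = Real.exp 1 ^ 3 * Real.exp (3 / 26) := by
    rw [← Real.exp_nat_mul, ← Real.exp_add]
    norm_num
  have h2 := Real.exp_one_lt_d9
  have h3 : Real.exp (3 / 26) ≤ 26 / 23 := by
    have h4 : (23 : ℝ) / 26 ≤ Real.exp (-(3 / 26)) := by
      have := Real.add_one_le_exp (-(3 / 26) : ℝ)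
      linarith
    have h5 : Real.exp (3 / 26) * Real.exp (-(3 / 26)) = 1 := by
      rw [← Real.exp_add]
      simp
    have h6 := mul_le_mul_of_nonneg_left h4 (Real.exp_pos (3 / 26)).le
    rw [h5] at h6
    linarith
  rw [h1]
  push_cast
  have h7 : Real.exp 1 ^ 3 ≤ 2.7182818286 ^ 3 :=
    pow_le_pow_left₀ (Real.exp_pos _).le h2.le 3
  calc Real.exp 1 ^ 3 * Real.exp (3 / 26) ≤ 2.7182818286 ^ 3 * (26 / 23) :=
        mul_le_mul h7 h3 (Real.exp_pos _).le (by positivity)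
    _ ≤ 23 := by norm_num

private theorem numB_exp_half : Real.exp (27 / 52) ≤ ((2 : ℚ) : ℝ) := by
  have h1 := Real.log_two_gt_d9
  push_cast
  rw [← Real.le_log_iff_exp_le (by norm_num)]
  refine le_trans ?_ h1.le
  norm_num

private theorem numB_kq (L : ℕ) (hL : 1 ≤ L) : kqQ L ≤ (1 / 2) ^ (L + 2) / ((L : ℚ) + 1) := by
  have hL0 : (0 : ℚ) < L := by exact_mod_cast hL
  have h1 : (2 : ℚ) ≤ (1 + 1 / (L : ℚ)) ^ L := by
    have := one_add_mul_le_pow (a := 1 / (L : ℚ)) (by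
      have : (0 : ℚ) ≤ 1 / (L : ℚ) := by positivity
      linarith) L
    rw [mul_one_div_cancel hL0.ne'] at this
    linarith
  have h2 : (1 + 1 / (L : ℚ)) ^ L = ((L : ℚ) + 1) ^ L / (L : ℚ) ^ L := by
    rw [← div_pow]
    congr 1
    field_simp
  rw [h2, le_div_iff₀ (by positivity)] at h1
  unfold kqQ
  rw [pow_succ ((L : ℚ) + 1) L, pow_succ (1 / 2 : ℚ) (L + 1)]
  have h3 : (L : ℚ) ^ L / (((L : ℚ) + 1) ^ L * ((L : ℚ) + 1)) ≤ 1 / 2 / ((L : ℚ) + 1) := by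
    rw [div_le_div_iff₀ (by positivity) (by positivity)]
    have : 0 < (L : ℚ) + 1 := by positivity
    nlinarith
  calc (1 / 2 : ℚ) ^ (L + 1) * ((L : ℚ) ^ L / (((L : ℚ) + 1) ^ L * ((L : ℚ) + 1)))
      ≤ (1 / 2 : ℚ) ^ (L + 1) * (1 / 2 / ((L : ℚ) + 1)) :=
        mul_le_mul_of_nonneg_left h3 (by positivity)
    _ = _ := by ring

private theorem numB_kq0 (L : ℕ) : 0 ≤ kqQ L := by
  unfold kqQ
  positivity

private theorem numB_Phi {n q d e g : ℕ} (h61 : 61 ≤ n) (hq : 2 * q + 3 ≤ n)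
    (hP : Pat q d e g) :
    0 ≤ PhiQ n q d e g ∧
    PhiQ n q d e g ≤ (n : ℚ) ^ 2 / 3 * 2 ^ (d + e) := by
  have hge := hP.ge
  have hed := hP.ed'
  have hg2 := hP.g2
  have hde := hP.de
  have h3d := hP.d3
  have hn : (61 : ℚ) ≤ n := by exact_mod_cast h61
  have hqn : (2 : ℚ) * q + 3 ≤ n := by exact_mod_cast hq
  have hG : (4 : ℚ) ≤ 2 ^ g := by
    calc (4 : ℚ) = 2 ^ 2 := by norm_num
      _ ≤ 2 ^ g := pow_le_pow_right₀ (by norm_num) hg2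
  have hdq : (d : ℚ) + e ≤ 2 * q := by
    have : ((d + e : ℕ) : ℚ) ≤ ((2 * q : ℕ) : ℚ) := by exact_mod_cast (by omega : d + e ≤ 2 * q)
    push_cast at this
    exact this
  have hgq : (2 : ℚ) ≤ g := by exact_mod_cast hg2
  have hq0 : (0 : ℚ) ≤ q := Nat.cast_nonneg q
  have hd0 : (0 : ℚ) ≤ d := Nat.cast_nonneg d
  have he0 : (0 : ℚ) ≤ e := Nat.cast_nonneg e
  set Y : ℚ := (n : ℚ) - 3 + (2 ^ g - 1) * (2 * q - d - e) / g with hY
  have hY0 : 0 ≤ Y := by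
    have h1 : 0 ≤ (2 ^ g - 1) * (2 * (q : ℚ) - d - e) / g := by
      have : (0 : ℚ) ≤ 2 * (q : ℚ) - d - e := by linarith
      have h2 : (0 : ℚ) ≤ 2 ^ g - 1 := by linarith
      positivity
    linarith
  have hY1 : Y ≤ 5 / 8 * n * 2 ^ g := by
    have h1 : (2 ^ g - 1) * (2 * (q : ℚ) - d - e) / g ≤ (2 ^ g - 1) * q := by
      rw [div_le_iff₀ (by linarith), mul_assoc]
      refine mul_le_mul_of_nonneg_left ?_ (by linarith)
      nlinarith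
    have h2 : (2 ^ g - 1) * (q : ℚ) ≤ (2 ^ g - 1) * (((n : ℚ) - 3) / 2) :=
      mul_le_mul_of_nonneg_left (by linarith) (by linarith)
    nlinarith
  have e1 : (2 : ℚ) ^ g ≤ 2 ^ e := pow_le_pow_right₀ (by norm_num) hge
  have e2 : (2 : ℚ) ^ e ≤ 2 ^ d := pow_le_pow_right₀ (by norm_num) hed
  have e3 : (2 : ℚ) ^ (d + e) = 2 ^ d * 2 ^ e := pow_add _ _ _
  have hE : (0 : ℚ) < 2 ^ e := by positivity
  have hD : (0 : ℚ) < 2 ^ d := by positivity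
  have f1 : ((2 : ℚ) ^ d + 2 ^ e) * Y ≤ 5 / 4 * n * 2 ^ (d + e) := by
    calc ((2 : ℚ) ^ d + 2 ^ e) * Y ≤ (2 * 2 ^ d) * (5 / 8 * n * 2 ^ e) := by
          refine mul_le_mul (by linarith) (hY1.trans ?_) hY0 (by positivity)
          exact mul_le_mul_of_nonneg_left e1 (by positivity)
      _ = _ := by rw [e3]; ring
  have f2 : Y ^ 2 / 2 ≤ 25 / 128 * n ^ 2 * 2 ^ (d + e) := by
    have h1 : Y ^ 2 ≤ (5 / 8 * n * 2 ^ g) ^ 2 := pow_le_pow_left₀ hY0 hY1 2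
    have h2 : ((2 : ℚ) ^ g) ^ 2 ≤ 2 ^ (d + e) := by
      rw [e3, sq]
      exact mul_le_mul (e1.trans e2) e1 (by positivity) (by positivity)
    have h3 : (5 / 8 * (n : ℚ) * 2 ^ g) ^ 2 ≤ 25 / 64 * n ^ 2 * 2 ^ (d + e) := by
      calc (5 / 8 * (n : ℚ) * 2 ^ g) ^ 2 = 25 / 64 * n ^ 2 * (2 ^ g) ^ 2 := by ring
        _ ≤ _ := mul_le_mul_of_nonneg_left h2 (by positivity)
    linarith
  have f3 : (if d + e ≤ q then (2 : ℚ) ^ (d + e) else 0) ≤ 2 ^ (d + e) := by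
    split_ifs
    · exact le_rfl
    · positivity
  have f4 : (0 : ℚ) ≤ if d + e ≤ q then (2 : ℚ) ^ (d + e) else 0 := by
    split_ifs <;> positivity
  have f5 : (0 : ℚ) < 2 ^ (d + e) := by positivity
  have f6 : 5 / 4 * (n : ℚ) + 25 / 128 * n ^ 2 + 1 ≤ n ^ 2 / 3 := by nlinarith
  refine ⟨?_, ?_⟩
  · unfold PhiQ
    rw [← hY]
    positivity
  · unfold PhiQ
    rw [← hY]
    have := mul_le_mul_of_nonneg_right f6 f5.le
    linarith

private theorem numB_XX {m q d : ℕ} (hm : 58 ≤ m) (hq : 2 * q ≤ m) (hd : 3 * d ≤ 2 * q)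
    (hd1 : 1 ≤ d) :
    0 ≤ XXQ m q d ∧ XXQ m q d ≤ 4 / 5 := by
  have h1 : (58 : ℚ) ≤ m := by exact_mod_cast hm
  have h2 : (2 : ℚ) * q ≤ m := by exact_mod_cast hq
  have h3 : (3 : ℚ) * d ≤ 2 * q := by exact_mod_cast hd
  have h4 : (1 : ℚ) ≤ d := by exact_mod_cast hd1
  have hq0 : (0 : ℚ) ≤ q := Nat.cast_nonneg q
  have b1 : 2 * (m : ℚ) / 3 - 1 ≤ (m : ℚ) - 1 - d := by linarith
  have b2 : (m : ℚ) / 3 - 2 ≤ (m : ℚ) - 2 - 2 * d := by linarith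
  have b3 : (0 : ℚ) < (m : ℚ) - 1 - d := by linarith
  have b4 : (0 : ℚ) < (m : ℚ) - 2 - 2 * d := by linarith
  have c1 : (q : ℚ) / ((m : ℚ) - 1 - d) ≤ 77 / 100 := by
    rw [div_le_iff₀ b3]
    linarith
  have c2 : (q : ℚ) * ((d : ℚ) - 1) / (2 * ((m : ℚ) - 2 - 2 * d) * ((m : ℚ) - 1 - d) ^ 2) ≤
      1 / 50 := by
    rw [div_le_iff₀ (by positivity)]
    have d1 : (q : ℚ) * ((d : ℚ) - 1) ≤ (m / 2) * (m / 3) :=
      mul_le_mul (by linarith) (by linarith) (by linarith) (by linarith)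
    have d2 : (64 / 100 * (m : ℚ)) ^ 2 ≤ ((m : ℚ) - 1 - d) ^ 2 :=
      pow_le_pow_left₀ (by linarith) (by linarith) 2
    have d3 : 2 * (17 : ℚ) * (64 / 100 * (m : ℚ)) ^ 2 ≤
        2 * ((m : ℚ) - 2 - 2 * d) * ((m : ℚ) - 1 - d) ^ 2 :=
      mul_le_mul (by linarith) d2 (by positivity) (by linarith)
    nlinarith
  have c3 : 0 ≤ (q : ℚ) / ((m : ℚ) - 1 - d) := by positivity
  have c4 : 0 ≤ (q : ℚ) * ((d : ℚ) - 1) /
      (2 * ((m : ℚ) - 2 - 2 * d) * ((m : ℚ) - 1 - d) ^ 2) := by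
    have : (0 : ℚ) ≤ (d : ℚ) - 1 := by linarith
    positivity
  unfold XXQ
  exact ⟨by linarith, by linarith⟩

private theorem numB_X {X : ℚ} (h0 : 0 ≤ X) (h1 : X ≤ 4 / 5) :
    1 / (1 - X / 16) ^ 16 ≤ 5 / 2 := by
  have h2 : (95 / 100 : ℚ) ≤ 1 - X / 16 := by linarith
  have h3 : (95 / 100 : ℚ) ^ 16 ≤ (1 - X / 16) ^ 16 := pow_le_pow_left₀ (by norm_num) h2 16
  have h4 : (0 : ℚ) < (1 - X / 16) ^ 16 := lt_of_lt_of_le (by norm_num) h3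
  rw [div_le_iff₀ h4]
  have : (2 / 5 : ℚ) ≤ (95 / 100 : ℚ) ^ 16 := by norm_num
  linarith

private theorem numB_dec1 (k : ℕ) (hk : 28 ≤ k) :
    (2 * (k : ℚ) + 5) ^ 5 * (1 / 2) ^ (k + 3) ≤ 2 / 5 := by
  induction k, hk using Nat.le_induction with
  | base => norm_num
  | succ k hk ih =>
    have hk' : (28 : ℚ) ≤ k := by exact_mod_cast hk
    have h1 : 2 * (k : ℚ) + 7 ≤ 11 / 10 * (2 * (k : ℚ) + 5) := by linarith
    have h2 : (2 * (k : ℚ) + 7) ^ 5 ≤ (11 / 10 * (2 * (k : ℚ) + 5)) ^ 5 :=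
      pow_le_pow_left₀ (by positivity) h1 5
    have h3 : (0 : ℚ) < (2 * (k : ℚ) + 5) ^ 5 := by positivity
    have h4 : (2 * (k : ℚ) + 7) ^ 5 ≤ 2 * (2 * (k : ℚ) + 5) ^ 5 := by
      refine h2.trans ?_
      rw [mul_pow]
      exact mul_le_mul_of_nonneg_right (by norm_num) h3.le
    have h5 : (2 * ((k + 1 : ℕ) : ℚ) + 5) = 2 * (k : ℚ) + 7 := by push_cast; ring
    rw [h5]
    refine le_trans ?_ ih
    have h6 : (0 : ℚ) < (1 / 2) ^ (k + 1 + 3) := by positivity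
    calc (2 * (k : ℚ) + 7) ^ 5 * (1 / 2) ^ (k + 1 + 3)
        ≤ (2 * (2 * (k : ℚ) + 5) ^ 5) * (1 / 2) ^ (k + 1 + 3) :=
          mul_le_mul_of_nonneg_right h4 h6.le
      _ = _ := by ring

private theorem numB_dec2 (k : ℕ) (hk : 28 ≤ k) :
    (2 * (k : ℚ) + 5) ^ 2 * ((k : ℚ) + 6) * (2 / 3) ^ (k - 1) ≤ 9 / 4 := by
  induction k, hk using Nat.le_induction with
  | base => norm_num
  | succ k hk ih =>
    obtain ⟨j, rfl⟩ : ∃ j, k = j + 1 := ⟨k - 1, by omega⟩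
    have hk' : (28 : ℚ) ≤ ((j + 1 : ℕ) : ℚ) := by exact_mod_cast hk
    rw [show j + 1 + 1 - 1 = j + 1 by omega]
    rw [show j + 1 - 1 = j by omega] at ih
    set x : ℚ := ((j + 1 : ℕ) : ℚ) with hx
    have h5 : ((j + 1 + 1 : ℕ) : ℚ) = x + 1 := by rw [hx]; push_cast; ring
    rw [h5]
    refine le_trans ?_ ih
    have h1 : (2 * (x + 1) + 5) ^ 2 * (x + 1 + 6) ≤ 3 / 2 * ((2 * x + 5) ^ 2 * (x + 6)) := by
      have e1 : 2 * (x + 1) + 5 ≤ 11 / 10 * (2 * x + 5) := by linarith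
      have e2 : (2 * (x + 1) + 5) ^ 2 ≤ (11 / 10 * (2 * x + 5)) ^ 2 :=
        pow_le_pow_left₀ (by linarith) e1 2
      have e3 : x + 1 + 6 ≤ 11 / 10 * (x + 6) := by linarith
      calc (2 * (x + 1) + 5) ^ 2 * (x + 1 + 6) ≤ (11 / 10 * (2 * x + 5)) ^ 2 *
            (11 / 10 * (x + 6)) := mul_le_mul e2 e3 (by linarith) (by positivity)
        _ = 1331 / 1000 * ((2 * x + 5) ^ 2 * (x + 6)) := by ring
        _ ≤ _ := by
            refine mul_le_mul_of_nonneg_right (by norm_num) ?_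
            have : 0 ≤ x + 6 := by linarith
            positivity
    calc (2 * (x + 1) + 5) ^ 2 * (x + 1 + 6) * (2 / 3) ^ (j + 1)
        ≤ (3 / 2 * ((2 * x + 5) ^ 2 * (x + 6))) * (2 / 3) ^ (j + 1) :=
          mul_le_mul_of_nonneg_right h1 (by positivity)
      _ = _ := by ring

/-- the main power: `4^a (m/c)^(k-1)` -/
private theorem numB_h (k a c : ℕ) (hk : 28 ≤ k) (ha : 2 ≤ a) (hak : 2 * a ≤ k + 2)
    (hc : k + a ≤ c + 4) :
    (2 : ℚ) ^ (2 * a) * ((2 * (k : ℚ) + 2) / (c : ℚ)) ^ (k - 1) ≤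
      23 * 2 ^ (k + 2) * (4 / 3) ^ (k - 1) := by
  have hk' : (28 : ℚ) ≤ k := by exact_mod_cast hk
  have ha' : (2 : ℚ) ≤ a := by exact_mod_cast ha
  have hc' : (k : ℚ) + a ≤ c + 4 := by exact_mod_cast hc
  obtain ⟨b, hb⟩ : ∃ b, k + 2 = 2 * a + b := ⟨k + 2 - 2 * a, by omega⟩
  have hb' : (k : ℚ) + 2 = 2 * a + b := by exact_mod_cast hb
  have hb0 : (0 : ℚ) ≤ b := Nat.cast_nonneg b
  set c0 : ℚ := (k : ℚ) - 4 + a with hc0
  have hc0p : 0 < c0 := by rw [hc0]; linarith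
  set y : ℚ := 1 / (2 * ((k : ℚ) - 2)) with hy
  have hk2 : (0 : ℚ) < (k : ℚ) - 2 := by linarith
  have hy0 : 0 < y := by rw [hy]; positivity
  -- (1+y)^(k-1) ≤ 2
  have h1 : (1 + y) ^ (k - 1) ≤ 2 := by
    refine numB_pow_rat y hy0.le (k - 1) (27 / 52) 2 ?_ numB_exp_half
    have h2 : ((k - 1 : ℕ) : ℚ) * y ≤ 27 / 52 := by
      rw [Nat.cast_sub (by omega), hy, mul_one_div, div_le_iff₀ (by positivity)]
      push_cast
      linarith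
    have h3 : ((((k - 1 : ℕ) : ℚ) * y : ℚ) : ℝ) ≤ ((27 / 52 : ℚ) : ℝ) := by exact_mod_cast h2
    push_cast at h3
    exact h3
  -- compare
  have h4 : (2 * (k : ℚ) + 2) / (c : ℚ) ≤
      (1 + y) ^ b * (1 + 3 / ((k : ℚ) - 2)) * (4 / 3) := by
    have g1 : 1 + (b : ℚ) * y ≤ (1 + y) ^ b := by
      exact one_add_mul_le_pow (by linarith) b
    have g2 : (2 * (k : ℚ) + 2) / (c : ℚ) ≤ (2 * (k : ℚ) + 2) / c0 :=
      div_le_div_of_nonneg_left (by positivity) hc0p (by rw [hc0]; linarith)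
    have g3 : (2 * (k : ℚ) + 2) / c0 ≤ (1 + (b : ℚ) * y) * (1 + 3 / ((k : ℚ) - 2)) * (4 / 3) := by
      rw [div_le_iff₀ hc0p, hy]
      have e1 : (1 + (b : ℚ) * (1 / (2 * ((k : ℚ) - 2)))) * (1 + 3 / ((k : ℚ) - 2)) * (4 / 3) =
          (2 * ((k : ℚ) - 2) + b) * ((k : ℚ) + 1) * (2 / 3) / ((k : ℚ) - 2) ^ 2 := by
        field_simp
        ring
      rw [e1, div_mul_eq_mul_div, le_div_iff₀ (by positivity)]
      have e2 : (a : ℚ) = ((k : ℚ) + 2 - b) / 2 := by linarith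
      rw [hc0, e2]
      have hbk : (b : ℚ) ≤ (k : ℚ) - 2 := by linarith
      have e3 : 3 * ((k : ℚ) - 2) ^ 2 ≤
          (2 * ((k : ℚ) - 2) + b) * ((k : ℚ) - 4 + ((k : ℚ) + 2 - b) / 2) := by
        nlinarith
      have e4 := mul_le_mul_of_nonneg_left e3 (by linarith : (0 : ℚ) ≤ (k : ℚ) + 1)
      linarith
    refine g2.trans (g3.trans ?_)
    refine mul_le_mul_of_nonneg_right ?_ (by norm_num)
    refine mul_le_mul_of_nonneg_right g1 ?_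
    positivity
  have h5 : (1 + 3 / ((k : ℚ) - 2)) ^ (k - 1) ≤ 23 := by
    refine numB_pow_rat _ (by positivity) (k - 1) (81 / 26) 23 ?_ numB_exp_three
    have h2 : ((k - 1 : ℕ) : ℚ) * (3 / ((k : ℚ) - 2)) ≤ 81 / 26 := by
      rw [Nat.cast_sub (by omega), mul_div_assoc', div_le_iff₀ (by positivity)]
      push_cast
      linarith
    have h3 : ((((k - 1 : ℕ) : ℚ) * (3 / ((k : ℚ) - 2)) : ℚ) : ℝ) ≤ ((81 / 26 : ℚ) : ℝ) :=
      Rat.cast_le.2 h2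
    push_cast at h3
    push_cast
    exact h3
  have h6 : ((2 * (k : ℚ) + 2) / (c : ℚ)) ^ (k - 1) ≤ 2 ^ b * 23 * (4 / 3) ^ (k - 1) := by
    have hcp : (0 : ℚ) < c := by
      have : c0 ≤ c := by rw [hc0]; linarith
      linarith
    calc ((2 * (k : ℚ) + 2) / (c : ℚ)) ^ (k - 1)
        ≤ ((1 + y) ^ b * (1 + 3 / ((k : ℚ) - 2)) * (4 / 3)) ^ (k - 1) :=
          pow_le_pow_left₀ (by positivity) h4 _
      _ = ((1 + y) ^ (k - 1)) ^ b * (1 + 3 / ((k : ℚ) - 2)) ^ (k - 1) * (4 / 3) ^ (k - 1) := by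
          rw [mul_pow, mul_pow, ← pow_mul, ← pow_mul, mul_comm b]
      _ ≤ _ := by
          refine mul_le_mul_of_nonneg_right ?_ (by positivity)
          exact mul_le_mul (pow_le_pow_left₀ (by positivity) h1 b) h5 (by positivity)
            (by positivity)
  calc (2 : ℚ) ^ (2 * a) * ((2 * (k : ℚ) + 2) / (c : ℚ)) ^ (k - 1)
      ≤ 2 ^ (2 * a) * (2 ^ b * 23 * (4 / 3) ^ (k - 1)) :=
        mul_le_mul_of_nonneg_left h6 (by positivity)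
    _ = _ := by rw [hb, pow_add]; ring

/-- the abstract assembly -/
private theorem numB_abs {k : ℕ} (hk : 28 ≤ k) {n R T1 w0 X w1 : ℚ} (hn : n = 2 * (k : ℚ) + 5)
    (hR0 : 0 ≤ R) (hR : R ≤ 5 / 4 * n ^ 2) (hT0 : 0 ≤ T1)
    (hT : T1 ≤ 101 / 100 * ((k : ℚ) + 2) * (1 / 2) ^ (2 * k + 4))
    (hw0 : 0 ≤ w0) (hw : w0 ≤ 2 * n ^ 2 / 3 * ((1 / 2) ^ (k + 3) / ((k : ℚ) + 2)))
    (hX0 : 0 ≤ X) (hX : X ≤ 5 / 2) (hw10 : 0 ≤ w1) (hw1 : w1 ≤ 3) :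
    16488 / 10000 * (11 / 256) * R * (T1 + w0 * (X + w1)) * n ^ 2 ≤ 7 / 5 := by
  have hk' : (28 : ℚ) ≤ k := by exact_mod_cast hk
  have hn0 : 0 < n := by rw [hn]; positivity
  set P : ℚ := (1 / 2) ^ (k + 3) with hP
  have hP0 : 0 < P := by positivity
  have hT' : T1 ≤ n ^ 2 / ((k : ℚ) + 2) * P * (1 / 100) := by
    refine hT.trans ?_
    have h1 : ((1 : ℚ) / 2) ^ (2 * k + 4) = P * (1 / 2) ^ (k + 1) := by
      rw [hP, ← pow_add]
      congr 1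
      omega
    have h2 : ((1 : ℚ) / 2) ^ (k + 1) ≤ (1 / 2) ^ 29 :=
      pow_le_pow_of_le_one (by norm_num) (by norm_num) (by omega)
    have h3 : (k : ℚ) + 2 ≤ n ^ 2 / ((k : ℚ) + 2) := by
      rw [le_div_iff₀ (by linarith), hn]
      nlinarith
    rw [h1]
    calc 101 / 100 * ((k : ℚ) + 2) * (P * (1 / 2) ^ (k + 1))
        = (101 / 100 * (1 / 2) ^ (k + 1)) * (((k : ℚ) + 2) * P) := by ring
      _ ≤ (1 / 100) * (n ^ 2 / ((k : ℚ) + 2) * P) := by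
          refine mul_le_mul ?_ (mul_le_mul_of_nonneg_right h3 hP0.le) (by positivity) (by norm_num)
          refine (mul_le_mul_of_nonneg_left h2 (by norm_num)).trans (by norm_num)
      _ = _ := by ring
  have hS : T1 + w0 * (X + w1) ≤ (11 / 3 + 1 / 100) * (n ^ 2 / ((k : ℚ) + 2) * P) := by
    have h1 : w0 * (X + w1) ≤ (2 * n ^ 2 / 3 * (P / ((k : ℚ) + 2))) * (11 / 2) :=
      mul_le_mul hw (by linarith) (by linarith) (by positivity)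
    have h2 : (2 * n ^ 2 / 3 * (P / ((k : ℚ) + 2))) * (11 / 2) =
        11 / 3 * (n ^ 2 / ((k : ℚ) + 2) * P) := by ring
    rw [h2] at h1
    linarith
  have hS0 : 0 ≤ T1 + w0 * (X + w1) := by
    have : 0 ≤ w0 * (X + w1) := mul_nonneg hw0 (by linarith)
    linarith
  have hdec : n ^ 5 * P ≤ 2 / 5 := by rw [hn, hP]; exact numB_dec1 k hk
  have hnk : n / ((k : ℚ) + 2) ≤ 61 / 30 := by
    rw [div_le_iff₀ (by linarith), hn]
    linarith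
  have hn5 : 0 ≤ n ^ 5 * P := by positivity
  have hfin : n ^ 2 * (n ^ 2 / ((k : ℚ) + 2) * P) * n ^ 2 ≤ 61 / 30 * (2 / 5) := by
    have : n ^ 2 * (n ^ 2 / ((k : ℚ) + 2) * P) * n ^ 2 = n / ((k : ℚ) + 2) * (n ^ 5 * P) := by
      ring
    rw [this]
    exact mul_le_mul hnk hdec hn5 (by norm_num)
  calc 16488 / 10000 * (11 / 256) * R * (T1 + w0 * (X + w1)) * n ^ 2
      = 16488 / 10000 * (11 / 256) * (R * (T1 + w0 * (X + w1))) * n ^ 2 := by ring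
    _ ≤ 16488 / 10000 * (11 / 256) * ((5 / 4 * n ^ 2) *
          ((11 / 3 + 1 / 100) * (n ^ 2 / ((k : ℚ) + 2) * P))) * n ^ 2 := by
        refine mul_le_mul_of_nonneg_right ?_ (by positivity)
        refine mul_le_mul_of_nonneg_left ?_ (by norm_num)
        exact mul_le_mul hR hS hS0 (by positivity)
    _ = 16488 / 10000 * (11 / 256) * (5 / 4) * (11 / 3 + 1 / 100) *
          (n ^ 2 * (n ^ 2 / ((k : ℚ) + 2) * P) * n ^ 2) := by ring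
    _ ≤ 16488 / 10000 * (11 / 256) * (5 / 4) * (11 / 3 + 1 / 100) * (61 / 30 * (2 / 5)) :=
        mul_le_mul_of_nonneg_left hfin (by norm_num)
    _ ≤ 7 / 5 := by norm_num

private theorem numB_w1 {k a c J v : ℕ} (hk : 28 ≤ k) (ha : 2 ≤ a) (hak : 2 * a ≤ k + 2)
    (hc : k + a ≤ c + 4) (hc2 : c + 2 ≤ 2 * k) (hJ : J ≤ 2 * a) (hJ2 : J ≤ k + 1)
    {n F : ℚ} (hn : n = 2 * (k : ℚ) + 5) (hF0 : 0 ≤ F) (hF : F ≤ 2 * n ^ 2 / 3 * 2 ^ J) :
    0 ≤ 11 / 256 * (kqQ (2 * k + 2 - 3 - J) / 2 ^ J * F) *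
      (6 / 5 * (19688 / 10000) * (2 * (k : ℚ) + 2) * (((c : ℚ) + 9) / 6) *
        ((2 * (k : ℚ) + 2) / (c : ℚ)) ^ (k - 1) *
          ((5 * (c : ℚ) + 1) / (5 * (c : ℚ) + 2)) ^ v) ∧
    11 / 256 * (kqQ (2 * k + 2 - 3 - J) / 2 ^ J * F) *
      (6 / 5 * (19688 / 10000) * (2 * (k : ℚ) + 2) * (((c : ℚ) + 9) / 6) *
        ((2 * (k : ℚ) + 2) / (c : ℚ)) ^ (k - 1) *
          ((5 * (c : ℚ) + 1) / (5 * (c : ℚ) + 2)) ^ v) ≤ 3 := by
  have hk' : (28 : ℚ) ≤ k := by exact_mod_cast hk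
  have hn0 : 0 < n := by rw [hn]; positivity
  have hkq := numB_kq0 (2 * k + 2 - 3 - J)
  refine ⟨by positivity, ?_⟩
  have hJ' : (J : ℚ) ≤ k + 1 := by exact_mod_cast hJ2
  have hc2' : (c : ℚ) + 2 ≤ 2 * k := by exact_mod_cast hc2
  have h1 : kqQ (2 * k + 2 - 3 - J) / 2 ^ J * F ≤
      2 * n ^ 2 / 3 * (2 ^ (2 * a) * (1 / 2) ^ (2 * k + 1) / ((k : ℚ) - 1)) := by
    have e1 : kqQ (2 * k + 2 - 3 - J) ≤ 2 ^ (2 * a) * (1 / 2) ^ (2 * k + 1) / ((k : ℚ) - 1) := by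
      obtain ⟨L, hL⟩ : ∃ L, L = 2 * k + 2 - 3 - J := ⟨_, rfl⟩
      have hL1 : 2 * k + 1 = J + (L + 2) := by omega
      rw [← hL]
      refine (numB_kq _ (by omega)).trans ?_
      have e2 : ((1 : ℚ) / 2) ^ (L + 2) ≤ 2 ^ (2 * a) * (1 / 2) ^ (2 * k + 1) := by
        have e3 : ((1 : ℚ) / 2) ^ (L + 2) = 2 ^ J * (1 / 2) ^ (2 * k + 1) := by
          have e6 : (2 : ℚ) ^ J * (1 / 2) ^ J = 1 := by
            rw [← mul_pow]
            norm_num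
          rw [hL1, pow_add (1 / 2 : ℚ) J, ← mul_assoc, e6, one_mul]
        rw [e3]
        exact mul_le_mul_of_nonneg_right (pow_le_pow_right₀ (by norm_num) hJ) (by positivity)
      have e5 : (k : ℚ) - 1 ≤ (L : ℚ) + 1 := by
        have : (k : ℚ) ≤ (L : ℚ) + 2 := by
          exact_mod_cast (by omega : k ≤ L + 2)
        linarith
      exact div_le_div₀ (by positivity) e2 (by linarith) e5
    calc kqQ (2 * k + 2 - 3 - J) / 2 ^ J * F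
        ≤ kqQ (2 * k + 2 - 3 - J) / 2 ^ J * (2 * n ^ 2 / 3 * 2 ^ J) :=
          mul_le_mul_of_nonneg_left hF (by positivity)
      _ = 2 * n ^ 2 / 3 * kqQ (2 * k + 2 - 3 - J) := by field_simp
      _ ≤ _ := mul_le_mul_of_nonneg_left e1 (by positivity)
  have h2 : ((5 * (c : ℚ) + 1) / (5 * (c : ℚ) + 2)) ^ v ≤ 1 :=
    pow_le_one₀ (by positivity) (by
      rw [div_le_one (by positivity)]
      linarith)
  have h3 : ((c : ℚ) + 9) / 6 ≤ ((k : ℚ) + 4) / 3 := by linarith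
  have h4 := numB_h k a c hk ha hak hc
  have h5 := numB_dec2 k hk
  set Q : ℚ := ((2 * (k : ℚ) + 2) / (c : ℚ)) ^ (k - 1) with hQ
  have hQ0 : 0 ≤ Q := by positivity
  have hk1 : (0 : ℚ) < (k : ℚ) - 1 := by linarith
  calc 11 / 256 * (kqQ (2 * k + 2 - 3 - J) / 2 ^ J * F) *
      (6 / 5 * (19688 / 10000) * (2 * (k : ℚ) + 2) * (((c : ℚ) + 9) / 6) * Q *
          ((5 * (c : ℚ) + 1) / (5 * (c : ℚ) + 2)) ^ v)
      ≤ 11 / 256 * (2 * n ^ 2 / 3 * (2 ^ (2 * a) * (1 / 2) ^ (2 * k + 1) / ((k : ℚ) - 1))) *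
      (6 / 5 * (19688 / 10000) * (2 * (k : ℚ) + 2) * (((k : ℚ) + 4) / 3) * Q * 1) := by
        refine mul_le_mul (mul_le_mul_of_nonneg_left h1 (by norm_num)) ?_ (by positivity)
          (by positivity)
        refine mul_le_mul ?_ h2 (by positivity) (by positivity)
        refine mul_le_mul_of_nonneg_right ?_ hQ0
        exact mul_le_mul_of_nonneg_left h3 (by positivity)
    _ = (11 / 256 * (2 / 3) * (6 / 5 * (19688 / 10000)) * 2 / 3) * (n ^ 2 *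
          (((k : ℚ) + 1) * ((k : ℚ) + 4) / ((k : ℚ) - 1))) * (1 / 2) ^ (2 * k + 1) *
          (2 ^ (2 * a) * Q) := by
        field_simp
    _ ≤ (11 / 256 * (2 / 3) * (6 / 5 * (19688 / 10000)) * 2 / 3) * (n ^ 2 *
          (11 / 10 * ((k : ℚ) + 6))) * (1 / 2) ^ (2 * k + 1) *
          (23 * 2 ^ (k + 2) * (4 / 3) ^ (k - 1)) := by
        refine mul_le_mul ?_ h4 (by positivity) (by positivity)
        refine mul_le_mul_of_nonneg_right ?_ (by positivity)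
        refine mul_le_mul_of_nonneg_left ?_ (by norm_num)
        refine mul_le_mul_of_nonneg_left ?_ (by positivity)
        rw [div_le_iff₀ hk1]
        nlinarith
    _ = (11 / 256 * (2 / 3) * (6 / 5 * (19688 / 10000)) * 2 / 3) * (11 / 10) * 23 * (n ^ 2 *
          ((k : ℚ) + 6) * (2 / 3) ^ (k - 1)) := by
        obtain ⟨j, rfl⟩ : ∃ j, k = j + 1 := ⟨k - 1, by omega⟩
        rw [show j + 1 - 1 = j by omega]
        have e1 : ((1 : ℚ) / 2) ^ (2 * (j + 1) + 1) * (2 ^ (j + 1 + 2) * (4 / 3) ^ j) =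
            (2 / 3) ^ j := by
          have e2 : ((1 : ℚ) / 2) ^ (2 * (j + 1) + 1) = (1 / 2) ^ j * ((1 / 2) ^ (j + 1 + 2)) := by
            rw [← pow_add]
            congr 1
            omega
          have e3 : ((1 : ℚ) / 2) ^ (j + 1 + 2) * 2 ^ (j + 1 + 2) = 1 := by
            rw [← mul_pow]
            norm_num
          have e4 : ((1 : ℚ) / 2) ^ j * (4 / 3) ^ j = (2 / 3) ^ j := by
            rw [← mul_pow]
            norm_num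
          calc ((1 : ℚ) / 2) ^ (2 * (j + 1) + 1) * (2 ^ (j + 1 + 2) * (4 / 3) ^ j)
              = (((1 : ℚ) / 2) ^ (j + 1 + 2) * 2 ^ (j + 1 + 2)) *
                (((1 : ℚ) / 2) ^ j * (4 / 3) ^ j) := by rw [e2]; ring
            _ = _ := by rw [e3, e4, one_mul]
        rw [← e1]
        ring
    _ ≤ (11 / 256 * (2 / 3) * (6 / 5 * (19688 / 10000)) * 2 / 3) * (11 / 10) * 23 * (9 / 4) := by
        refine mul_le_mul_of_nonneg_left ?_ (by norm_num)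
        rw [hn]
        exact h5
    _ ≤ 3 := by norm_num

theorem numB {n q d e g : ℕ} (hn : Odd n) (h61 : 61 ≤ n) (hq3 : 3 ≤ q)
    (hq : 2 * q + 3 ≤ n) (hP : Pat q d e g) :
    TQ n q d e g * (n : ℚ) ^ 2 ≤ 7 / 5 := by
  obtain ⟨hF0, hF⟩ := numB_Phi h61 hq hP
  obtain ⟨k, rfl⟩ : ∃ k, n = 2 * k + 5 := by
    obtain ⟨j, rfl⟩ := hn
    exact ⟨j - 2, by omega⟩
  have hk : 28 ≤ k := by omega
  have hk' : (28 : ℚ) ≤ k := by exact_mod_cast hk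
  have h3d := hP.d3
  have hge := hP.ge
  have hed := hP.ed'
  have hg2 := hP.g2
  have hde := hP.de
  obtain ⟨a, ha⟩ : ∃ a, d + e = 2 * a := by
    obtain ⟨x, hx⟩ := hP.ed
    obtain ⟨y, hy⟩ := hP.ee
    exact ⟨x + y, by omega⟩
  have e1 : 2 * k + 5 - 3 = 2 * k + 2 := by omega
  have e2 : 2 * k + 2 - 4 = 2 * (k - 1) := by omega
  have e3 : (2 * k + 5 - 5) / 2 = k := by omega
  have e4 : 2 * (k - 1) / 2 = k - 1 := by omega
  have hv1 : vv q d e ≤ (2 * q - d - e) / 2 + 2 := min_le_right _ _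
  have hv2 : 2 ≤ vv q d e := le_min (by omega) (by omega)
  have hvq : vv q d e ≤ q := min_le_left _ _
  set J : ℕ := min q (d + e) with hJ
  have hJq : J ≤ q := min_le_left _ _
  have hJa : J ≤ 2 * a := by rw [← ha]; exact min_le_right _ _
  have hJ1 : d + e ≤ J + 1 := by omega
  set F : ℚ := PhiQ (2 * k + 5) q d e g with hFdef
  set N : ℚ := ((2 * k + 5 : ℕ) : ℚ) with hN
  have hNk : N = 2 * (k : ℚ) + 5 := by rw [hN]; push_cast; ring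
  have hN3 : N - 3 = 2 * (k : ℚ) + 2 := by rw [hNk]; ring
  have hN0 : 0 < N := by rw [hNk]; positivity
  have hF2 : F ≤ 2 * N ^ 2 / 3 * 2 ^ J := by
    refine hF.trans ?_
    have h1 : (2 : ℚ) ^ (d + e) ≤ 2 ^ (J + 1) := pow_le_pow_right₀ (by norm_num) hJ1
    calc N ^ 2 / 3 * 2 ^ (d + e) ≤ N ^ 2 / 3 * 2 ^ (J + 1) :=
          mul_le_mul_of_nonneg_left h1 (by positivity)
      _ = _ := by ring
  set c : ℕ := 2 * k + 2 - 3 - vv q d e with hcdef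
  have hw1 := numB_w1 (k := k) (a := a) (c := c) (J := J) (v := vv q d e) hk (by omega)
    (by omega) (by omega) (by omega) hJa (by omega) hNk hF0 hF2
  obtain ⟨hX0, hX⟩ := numB_XX (m := 2 * k + 2) (q := q) (d := d) (by omega) (by omega) h3d
    (by omega)
  have hXX := numB_X hX0 hX
  have hXX0 : 0 ≤ 1 / (1 - XXQ (2 * k + 2) q d / 16) ^ 16 := by
    have : 0 < 1 - XXQ (2 * k + 2) q d / 16 := by linarith
    positivity
  have hkq := numB_kq0 (2 * k + 2 - J)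
  have hw0 : kqQ (2 * k + 2 - J) / 2 ^ J * F ≤
      2 * N ^ 2 / 3 * ((1 / 2) ^ (k + 3) / ((k : ℚ) + 2)) := by
    have f1 : kqQ (2 * k + 2 - J) ≤ (1 / 2) ^ (k + 3) / ((k : ℚ) + 2) := by
      refine (numB_kq _ (by omega)).trans ?_
      have f2 : ((1 : ℚ) / 2) ^ (2 * k + 2 - J + 2) ≤ (1 / 2) ^ (k + 3) :=
        pow_le_pow_of_le_one (by norm_num) (by norm_num) (by omega)
      have f3 : (k : ℚ) + 2 ≤ ((2 * k + 2 - J : ℕ) : ℚ) + 1 := by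
        exact_mod_cast (by omega : k + 2 ≤ 2 * k + 2 - J + 1)
      exact div_le_div₀ (by positivity) f2 (by linarith) f3
    calc kqQ (2 * k + 2 - J) / 2 ^ J * F
        ≤ kqQ (2 * k + 2 - J) / 2 ^ J * (2 * N ^ 2 / 3 * 2 ^ J) :=
          mul_le_mul_of_nonneg_left hF2 (by positivity)
      _ = 2 * N ^ 2 / 3 * kqQ (2 * k + 2 - J) := by field_simp
      _ ≤ _ := mul_le_mul_of_nonneg_left f1 (by positivity)
  have hT0 := numB_kq0 (2 * k + 2)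
  have hT1 : ((N - 1) * (N - 2) / 2) * kqQ (2 * k + 2) * (101 / 100) ≤
      101 / 100 * ((k : ℚ) + 2) * (1 / 2) ^ (2 * k + 4) := by
    have f1 := numB_kq (2 * k + 2) (by omega)
    have f2 : ((2 * k + 2 : ℕ) : ℚ) + 1 = 2 * (k : ℚ) + 3 := by push_cast; ring
    rw [f2] at f1
    have f3 : (N - 1) * (N - 2) / 2 = ((k : ℚ) + 2) * (2 * (k : ℚ) + 3) := by rw [hNk]; ring
    rw [f3]
    have f4 : (0 : ℚ) < 2 * (k : ℚ) + 3 := by positivity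
    calc ((k : ℚ) + 2) * (2 * (k : ℚ) + 3) * kqQ (2 * k + 2) * (101 / 100)
        ≤ ((k : ℚ) + 2) * (2 * (k : ℚ) + 3) * ((1 / 2) ^ (2 * k + 2 + 2) /
          (2 * (k : ℚ) + 3)) * (101 / 100) := by
          refine mul_le_mul_of_nonneg_right ?_ (by norm_num)
          exact mul_le_mul_of_nonneg_left f1 (by positivity)
      _ = _ := by
          rw [show 2 * k + 2 + 2 = 2 * k + 4 by omega]
          field_simp
  have hT1' : 0 ≤ ((N - 1) * (N - 2) / 2) * kqQ (2 * k + 2) * (101 / 100) := by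
    have f3 : (N - 1) * (N - 2) / 2 = ((k : ℚ) + 2) * (2 * (k : ℚ) + 3) := by rw [hNk]; ring
    rw [f3]
    positivity
  have hR0 : 0 ≤ 19688 / 10000 * N * ((N + 25) / 10) * (N / (N - 3)) ^ k := by
    rw [hN3]
    positivity
  have hR : 19688 / 10000 * N * ((N + 25) / 10) * (N / (N - 3)) ^ k ≤ 5 / 4 * N ^ 2 := by
    have g1 : (N / (N - 3)) ^ k ≤ 4482 / 1000 := by
      have g2 : N / (N - 3) = 1 + 3 / (2 * (k : ℚ) + 2) := by
        rw [hN3, hNk]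
        field_simp
        ring
      rw [g2]
      refine numB_pow_rat _ (by positivity) k (3 / 2) (4482 / 1000) ?_ numB_exp_three_half
      have g3 : (k : ℚ) * (3 / (2 * (k : ℚ) + 2)) ≤ 3 / 2 := by
        rw [mul_div_assoc', div_le_iff₀ (by positivity)]
        linarith
      have g4 : ((((k : ℚ) * (3 / (2 * (k : ℚ) + 2))) : ℚ) : ℝ) ≤ ((3 / 2 : ℚ) : ℝ) := by
        exact_mod_cast g3
      push_cast at g4
      push_cast
      exact g4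
    have g5 : 19688 / 10000 * ((N + 25) / 10) * (4482 / 1000) ≤ 5 / 4 * N := by
      rw [hNk]
      linarith
    calc 19688 / 10000 * N * ((N + 25) / 10) * (N / (N - 3)) ^ k
        ≤ 19688 / 10000 * N * ((N + 25) / 10) * (4482 / 1000) :=
          mul_le_mul_of_nonneg_left g1 (by positivity)
      _ = N * (19688 / 10000 * ((N + 25) / 10) * (4482 / 1000)) := by ring
      _ ≤ N * (5 / 4 * N) := mul_le_mul_of_nonneg_left g5 hN0.le
      _ = _ := by ring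
  have key := numB_abs hk hNk hR0 hR hT1' hT1 (by positivity :
    0 ≤ kqQ (2 * k + 2 - J) / 2 ^ J * F) hw0 hXX0 hXX hw1.1 hw1.2
  unfold TQ
  rw [← hFdef, ← hJ, e1, ← hcdef, e2, e3, e4, ← hN]
  rw [← hN3] at key
  refine le_trans (le_of_eq ?_) key
  ring

end MP_a3e05c_co.OUT
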