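import Pool.Agent.Lib.MP_a3e05c_co.OUT.Num

/-!
# EULER, block OUT: the kernel check, `23 ≤ n ≤ 59`

`TQ n q d e g * n^2 ≤ sQ q` for the 4977 patterns (checked with exact rational arithmetic in Python:
largest ratio .9912 at `(25,10,6,4,2)`, then .9619 at `(23,8,4,4,2)`, .857, .725).  Proof by
`decide +kernel` of a Boolean function (split over `n`; it is allowed to replace `TQ` by an integer
computation, e.g. with cleared denominators), no `native_decide`.
-/

namespace MP_a3e05c_co.OUT

/-- the check for all patterns of `q` missing edges -/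
private def NumK_q (n q : ℕ) : Bool :=
  (List.range (q / 3 + 1)).all fun d => (List.range (d + 1)).all fun e =>
    (List.range (e + 1)).all fun g =>
      decide (g = 0) || decide (q < 3 * d) || decide (q + 1 < 2 * d + 2 * e) ||
        decide (q + 3 < 2 * d + 2 * e + 2 * g) ||
          decide (TQ n q (2 * d) (2 * e) (2 * g) * (n : ℚ) ^ 2 ≤ sQ q)

/-- the check for `n` -/
private def NumK_n (n : ℕ) : Bool :=
  (List.range ((n - 3) / 2 + 1)).all fun q => decide (q < 3) || decide (Exc n q) || NumK_q n q

set_option maxRecDepth 100000 in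
private theorem NumK_A : (List.range 10).all (fun m => NumK_n (2 * m + 23)) = true := by
  decide +kernel

set_option maxRecDepth 100000 in
private theorem NumK_B : (List.range 5).all (fun m => NumK_n (2 * m + 43)) = true := by
  decide +kernel

set_option maxRecDepth 100000 in
private theorem NumK_C : (List.range 4).all (fun m => NumK_n (2 * m + 53)) = true := by
  decide +kernel

private theorem NumK_all {n : ℕ} (hn : Odd n) (h23 : 23 ≤ n) (h59 : n ≤ 59) : NumK_n n = true := by
  obtain ⟨m, hm⟩ := hn
  rcases Nat.lt_or_ge n 43 with h1 | h1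
  · have h2 := (List.all_eq_true.1 NumK_A) (m - 11) (List.mem_range.2 (by omega))
    have h3 : 2 * (m - 11) + 23 = n := by omega
    rw [h3] at h2
    exact h2
  rcases Nat.lt_or_ge n 53 with h4 | h4
  · have h2 := (List.all_eq_true.1 NumK_B) (m - 21) (List.mem_range.2 (by omega))
    have h3 : 2 * (m - 21) + 43 = n := by omega
    rw [h3] at h2
    exact h2
  · have h2 := (List.all_eq_true.1 NumK_C) (m - 26) (List.mem_range.2 (by omega))
    have h3 : 2 * (m - 26) + 53 = n := by omega
    rw [h3] at h2
    exact h2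

theorem numK {n q d e g : ℕ} (hn : Odd n) (h23 : 23 ≤ n) (h59 : n ≤ 59) (hq3 : 3 ≤ q)
    (hq : 2 * q + 3 ≤ n) (hx : ¬ Exc n q) (hP : Pat q d e g) :
    TQ n q d e g * (n : ℚ) ^ 2 ≤ sQ q := by
  have h := NumK_all hn h23 h59
  unfold NumK_n at h
  rw [List.all_eq_true] at h
  have h1 := h q (List.mem_range.2 (by omega))
  rw [Bool.or_eq_true, Bool.or_eq_true, decide_eq_true_eq, decide_eq_true_eq] at h1
  have h2 : NumK_q n q = true := by
    rcases h1 with (h1 | h1) | h1
    · omega
    · exact absurd h1 hx
    · exact h1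
  obtain ⟨hd, he, hg, g2, ge, ed, d3, de, deg⟩ := hP
  obtain ⟨d1, rfl⟩ := hd
  obtain ⟨e1, rfl⟩ := he
  obtain ⟨g1, rfl⟩ := hg
  unfold NumK_q at h2
  rw [List.all_eq_true] at h2
  have h3 := h2 d1 (List.mem_range.2 (by omega))
  rw [List.all_eq_true] at h3
  have h4 := h3 e1 (List.mem_range.2 (by omega))
  rw [List.all_eq_true] at h4
  have h5 := h4 g1 (List.mem_range.2 (by omega))
  simp only [Bool.or_eq_true, decide_eq_true_eq] at h5
  rcases h5 with (((h5 | h5) | h5) | h5) | h5
  · omega
  · omega
  · omega
  · omega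
  · rw [two_mul, two_mul, two_mul] at h5
    exact h5

end MP_a3e05c_co.OUT
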