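import Pool.Agent.Lib.MP_a3e05c_co.OUT.Level
import Pool.Agent.Lib.MP_a3e05c_co.OUT.Comb
import Pool.Agent.Lib.MP_a3e05c_co.OUT.NumK
import Pool.Agent.Lib.MP_a3e05c_co.OUT.NumB

/-!
# EULER, block OUT: the outer parts of `K_n` and of `K_n - F`
-/

set_option linter.unusedSectionVars false

open MeasureTheory Finset
open scoped ENNReal

namespace MP_a3e05c_co.OUT

variable {V : Type} [Fintype V] [DecidableEq V]

/-- mean value of the product of the cosines over the box, gauge vertex `b` -/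
noncomputable def PB (b : V) (E : Finset (Sym2 V)) : ℝ :=
  (∫ t in NC.box b, ∏ e ∈ E, NC.cd (NC.ext b t) e) / Real.pi ^ (Fintype.card V - 1)

theorem num {n q d e g : ℕ} (hn : Odd n) (h23 : 23 ≤ n) (hq3 : 3 ≤ q) (hq : 2 * q + 3 ≤ n)
    (hx : ¬ Exc n q) (hP : Pat q d e g) :
    TT n q d e g ≤ (sQ q : ℝ) / (n : ℝ) ^ 2 * Real.exp (NCS.mainR n) := by
  have h1 : TQ n q d e g * (n : ℚ) ^ 2 ≤ sQ q := by
    rcases Nat.lt_or_ge 59 n with h | h
    · refine (numB hn (by obtain ⟨k, hk⟩ := hn; omega) hq3 hq hP).trans ?_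
      unfold sQ
      split_ifs <;> norm_num
    · exact numK hn h23 h hq3 hq hx hP
  have h2 : (TQ n q d e g : ℝ) * (n : ℝ) ^ 2 ≤ (sQ q : ℝ) := by exact_mod_cast h1
  have hn0 : (0 : ℝ) < (n : ℝ) ^ 2 := by
    have : (0 : ℝ) < n := by exact_mod_cast (by omega : 0 < n)
    positivity
  refine (red hn h23 hq3 hq hP).trans ?_
  refine mul_le_mul_of_nonneg_right ?_ (Real.exp_pos _).le
  rw [le_div_iff₀ hn0]
  exact h2

theorem Gm_pos (m : ℕ) : 0 < Gm m := Real.exp_pos _

theorem card_triple {b i j : V} (hbi : b ≠ i) (hbj : b ≠ j) (hij : i ≠ j) :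
    (univ \ ({b, i, j} : Finset V)).card + 3 = Fintype.card V := by
  have h1 : ({b, i, j} : Finset V).card = 3 := by
    rw [card_eq_three]
    exact ⟨b, i, j, hbi, hbj, hij, rfl⟩
  have h2 := card_sdiff_add_card_eq_card (subset_univ ({b, i, j} : Finset V))
  rw [h1, card_univ] at h2
  exact h2

theorem res_card (F : Finset (Sym2 V)) (S : Finset V) : (res F S).card ≤ F.card := by
  refine card_le_card_of_injOn (fun e => e.map Subtype.val) (fun e he => ?_) ?_
  · simp only [res, coe_filter, Set.mem_ofPred_eq, mem_univ, true_and] at he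
    exact he
  · exact (Sym2.map.injective Subtype.val_injective).injOn

/-- the bound for the mean on the complement of three vertices -/
theorem level_res {F : Finset (Sym2 V)} (hF : F ⊆ NC.KE V) {n : ℕ} (hcard : Fintype.card V = n)
    (h23 : 23 ≤ n) (h2q : 2 * F.card + 3 ≤ n) {b : V}
    {d e g : ℕ} (hP : Pat F.card d e g) (hd : ∀ v, NC.fd F v ≤ d)
    (hJ : ∀ i j, i ≠ j → s(i, j) ∉ F → NC.fd F i + NC.fd F j ≤ min F.card (d + e))
    (hv : (univ.filter fun v => NC.fd F v ≠ 0).card ≤ vv F.card d e)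
    (hS : ∑ x ∈ (NC.KE V \ F).filter (fun x => b ∉ x), (2 : ℝ) ^ fs F x ≤
      Phi (Fintype.card V) F.card d e g) {i j : V} (hbi : b ≠ i) (hbj : b ≠ j) (hij : i ≠ j) :
    Mn F (univ \ {b, i, j}) ≤ ENNReal.ofReal (Gm (n - 3) * Real.exp (XX (n - 3) F.card d) +
      11 / 256 * (kq (n - 3 - 3 - min F.card (d + e)) / 2 ^ min F.card (d + e) *
        Phi n F.card d e g) *
        (√(2 / (Real.pi * (((n - 3 - 3 - vv F.card d e : ℕ) : ℝ) + 2 / 5))) ^ vv F.card d e *
          (6 / 5 * Gm (n - 3 - 3 - vv F.card d e)))) := by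
  classical
  set S : Finset V := univ \ {b, i, j} with hSdef
  have hcS : S.card + 3 = Fintype.card V := card_triple hbi hbj hij
  have hbS : b ∉ S := by
    rw [hSdef, mem_sdiff]
    rintro ⟨-, h⟩
    exact h (mem_insert_self _ _)
  have hvq : vv F.card d e ≤ F.card := min_le_left _ _
  obtain ⟨w, hw⟩ : ∃ w : {v // v ∈ S}, NC.fd F w.1 = 0 := by
    by_contra hcon
    push Not at hcon
    have h1 : S ⊆ univ.filter fun v => NC.fd F v ≠ 0 := by
      intro v hvS
      rw [mem_filter]
      exact ⟨mem_univ _, hcon ⟨v, hvS⟩⟩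
    have h2 := (card_le_card h1).trans hv
    omega
  have hdf := fd_res F S
  rw [Mn_res]
  have hd3 := hP.d3
  have hg2 := hP.g2
  have hge := hP.ge
  have hed := hP.ed'
  refine level (w := w) (m := n - 3) (q := F.card) (d := d) (J := min F.card (d + e))
    (v := vv F.card d e) (res_subset hF S) ?_ ?_ (res_card F S) (fun x => (hdf x).trans (hd _))
    (by omega) (by omega) (fun u v huv h => ?_) ?_ (P := Phi n F.card d e g) ?_ ?_ (by omega)
  · have := hdf w
    omega
  · rw [Fintype.card_coe]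
    omega
  · have h1 : s(u.1, v.1) ∉ F := fun h2 => h (mem_res.2 h2)
    have h2 : u.1 ≠ v.1 := fun h3 => huv (Subtype.ext h3)
    exact (add_le_add (hdf u) (hdf v)).trans (hJ _ _ h2 h1)
  · have : min F.card (d + e) ≤ F.card := min_le_left _ _
    omega
  · refine (sum_le_sum_of_subset_of_nonneg (filter_subset _ _) fun _ _ _ => by positivity).trans ?_
    refine (sum_res_le F hbS).trans ?_
    rw [← hcard]
    exact hS
  · refine le_trans ?_ hv
    refine card_le_card_of_injOn (fun x => x.1) (fun x hx => ?_) Subtype.val_injective.injOn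
    simp only [coe_filter, Set.mem_ofPred_eq, mem_univ, true_and] at hx ⊢
    have := hdf x
    omega

/-- the two outer parts together -/
theorem out_sum {F : Finset (Sym2 V)} (hF : F ⊆ NC.KE V) (hev : ∀ v, Even (NC.fd F v))
    (hne : F.Nonempty) {n : ℕ} (hcard : Fintype.card V = n) (hodd : Odd n) (h23 : 23 ≤ n)
    (h2q : 2 * F.card + 3 ≤ n) (hx : ¬ Exc n F.card) {b : V} (hb : NC.fd F b = 0) :
    (OT (∅ : Finset (Sym2 V)) b).toReal + (OT F b).toReal ≤
      (sQ F.card : ℝ) / (n : ℝ) ^ 2 * Real.exp (NCS.mainR n) := by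
  classical
  have hq3 : 3 ≤ F.card := NC.three_le_card hF hev hne
  obtain ⟨d, e, g, hP, hd, hJ, hv, hS⟩ := comb hF hev hne hb
  refine le_trans ?_ (num hodd h23 hq3 h2q hx hP)
  unfold TT
  refine add_le_add ?_ ?_
  · have h1 := OT_empty_le (V := V) hcard (by omega) b
    have h2 : MM (n - 3) ≤ ENNReal.ofReal (101 / 100 * Gm (n - 3)) := MM_le20 (by omega)
    have h3 := h1.trans (mul_le_mul_right h2 _)
    have hn : (23 : ℝ) ≤ n := by exact_mod_cast h23
    have hk : 0 ≤ 11 / 256 * ((((n : ℝ) - 1) * ((n : ℝ) - 2) / 2) * kq (n - 3)) := by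
      have := (kq_pos (n - 3)).le
      have h5 : 0 ≤ ((n : ℝ) - 1) * ((n : ℝ) - 2) := mul_nonneg (by linarith) (by linarith)
      positivity
    rw [← ENNReal.ofReal_mul hk] at h3
    exact ENNReal.toReal_le_of_le_ofReal
      (mul_nonneg hk (mul_nonneg (by norm_num) (Gm_pos _).le)) h3
  · have hJle : min F.card (d + e) ≤ F.card := min_le_left _ _
    have h1 := union_le (F := F) hb
      (fun i j hi hj hij _ => level_res hF hcard h23 h2q hP hd hJ hv hS hi hj hij)
      (fun i j _ _ hij h => by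
        have := hJ i j hij h
        rw [hcard]
        omega)
    set B : ℝ := Gm (n - 3) * Real.exp (XX (n - 3) F.card d) +
      11 / 256 * (kq (n - 3 - 3 - min F.card (d + e)) / 2 ^ min F.card (d + e) *
        Phi n F.card d e g) *
        (√(2 / (Real.pi * (((n - 3 - 3 - vv F.card d e : ℕ) : ℝ) + 2 / 5))) ^ vv F.card d e *
          (6 / 5 * Gm (n - 3 - 3 - vv F.card d e))) with hB
    have hPhi : 0 ≤ Phi n F.card d e g := by
      have h2 := sum_nonneg fun x (_ : x ∈ (NC.KE V \ F).filter (fun x => b ∉ x)) =>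
        (by positivity : (0 : ℝ) ≤ 2 ^ fs F x)
      rw [← hcard]
      exact h2.trans hS
    have hkq := fun K => (kq_pos K).le
    have hB0 : 0 ≤ B := by
      have h3 := (Gm_pos (n - 3)).le
      have h4 := (Gm_pos (n - 3 - 3 - vv F.card d e)).le
      have h5 := hkq (n - 3 - 3 - min F.card (d + e))
      rw [hB]
      positivity
    have hsum : ∑ x ∈ (NC.KE V \ F).filter (fun x => b ∉ x), kq (Fintype.card V - 3 - fs F x) ≤
        kq (n - 3 - min F.card (d + e)) / 2 ^ min F.card (d + e) * Phi n F.card d e g := by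
      have h2 : ∀ x ∈ (NC.KE V \ F).filter (fun x => b ∉ x),
          kq (Fintype.card V - 3 - fs F x) ≤
            2 ^ fs F x * (kq (n - 3 - min F.card (d + e)) / 2 ^ min F.card (d + e)) := by
        intro x hx'
        rw [hcard]
        refine kq_scale ?_ (by omega)
        have h3 := (mem_sdiff.1 (mem_filter.1 hx').1)
        induction x with
        | h u v =>
          have h4 := h3.1
          rw [NC.mem_KE, Sym2.mk_isDiag_iff] at h4
          exact hJ u v h4 h3.2
      refine (sum_le_sum h2).trans ?_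
      rw [← sum_mul, mul_comm]
      refine mul_le_mul_of_nonneg_left ?_ ?_
      · rw [← hcard]
        exact hS
      · have := hkq (n - 3 - min F.card (d + e))
        positivity
    have hsum0 : 0 ≤ 11 / 256 * ∑ x ∈ (NC.KE V \ F).filter (fun x => b ∉ x),
        kq (Fintype.card V - 3 - fs F x) := by
      have := sum_nonneg fun x (_ : x ∈ (NC.KE V \ F).filter (fun x => b ∉ x)) =>
        hkq (Fintype.card V - 3 - fs F x)
      positivity
    rw [← ENNReal.ofReal_mul hsum0] at h1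
    refine (ENNReal.toReal_le_of_le_ofReal (mul_nonneg hsum0 hB0) h1).trans ?_
    refine mul_le_mul_of_nonneg_right ?_ hB0
    linarith

theorem out_final {F : Finset (Sym2 V)} (hF : F ⊆ NC.KE V) (hev : ∀ v, Even (NC.fd F v))
    (hne : F.Nonempty) {n : ℕ} (hcard : Fintype.card V = n) (hodd : Odd n) (h23 : 23 ≤ n)
    (h2q : 2 * F.card + 3 ≤ n) (hx : ¬ Exc n F.card) {b : V} (hb : NC.fd F b = 0) :
    ∃ oK oG : ℝ, 0 ≤ oK ∧ 0 ≤ oG ∧
      NC.ZE b (NC.KE V) ≤ Real.pi ^ (n - 1) * (PB b (NC.KE V) + oK) ∧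
      Real.pi ^ (n - 1) * (PB b (NC.KE V \ F) - oG) ≤ NC.ZE b (NC.KE V \ F) ∧
      oK + oG ≤ (sQ F.card : ℝ) / (n : ℝ) ^ 2 * Real.exp (NCS.mainR n) := by
  classical
  have hpi : (0 : ℝ) < Real.pi ^ (n - 1) := pow_pos Real.pi_pos _
  have hfd0 : NC.fd (∅ : Finset (Sym2 V)) b = 0 := by
    unfold NC.fd
    simp
  refine ⟨(OT (∅ : Finset (Sym2 V)) b).toReal, (OT F b).toReal, ENNReal.toReal_nonneg,
    ENNReal.toReal_nonneg, ?_, ?_, ?_⟩
  · have h1 := box_diff hfd0
    rw [sdiff_empty, hcard] at h1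
    have h2 := (abs_le.1 h1).1
    unfold PB
    rw [hcard, mul_add, mul_div_cancel₀ _ hpi.ne']
    linarith
  · have h1 := box_diff hb
    rw [hcard] at h1
    have h2 := (abs_le.1 h1).2
    unfold PB
    rw [hcard, mul_sub, mul_div_cancel₀ _ hpi.ne']
    linarith
  · exact out_sum hF hev hne hcard hodd h23 h2q hx hb

end MP_a3e05c_co.OUT
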