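import Pool.Agent.Lib.MP_a3e05c_co.NCS.NearClique
import Pool.Agent.Lib.MP_a3e05c_co.OUT.Final

/-!
# EULER, block NC: the near clique bound

`near_clique`: a simple even graph with `n` vertices, `n` odd, `n ≥ 23`, which misses at least one
and at most `(n - 3) / 2` edges of the complete graph, `(n, q)` not one of the four pairs
`(23, 9), (23, 10), (25, 11), (27, 12)`.
-/

set_option linter.unusedSectionVars false

open MeasureTheory Finset
open scoped ENNReal

namespace MP_a3e05c_co.OUT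

variable {V E : Type} [Fintype V] [DecidableEq V] [Fintype E] [DecidableEq E]

/-- the bound of the outer parts is at most the slack of the scalar inequality -/
theorem sQ_le_slack {n q M : ℕ} (h23 : 23 ≤ n) (hq : 3 ≤ q) (h2q : 2 * q + 3 ≤ n)
    (h3M : 3 * M ≤ 2 * q) (h2M : 2 ≤ M) (hMe : Even M) :
    (sQ q : ℝ) / (n : ℝ) ^ 2 ≤ NCS.slack n q M := by
  have hn : (23 : ℝ) ≤ n := by exact_mod_cast h23
  have hq3 : (3 : ℝ) ≤ q := by exact_mod_cast hq
  have h2q' : 2 * (q : ℝ) + 3 ≤ n := by exact_mod_cast h2q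
  have h3M' : 3 * (M : ℝ) ≤ 2 * q := by exact_mod_cast h3M
  have hs : (sQ q : ℝ) ≤ 3 / 2 := by
    unfold sQ
    split_ifs <;> norm_num
  have hn2 : (0 : ℝ) < (n : ℝ) ^ 2 := by positivity
  unfold NCS.slack
  by_cases hM2 : M = 2
  · rw [if_pos hM2, div_le_iff₀ hn2]
    have h1 : q * (53 / 100 / (n : ℝ) ^ 2) * (n : ℝ) ^ 2 = q * (53 / 100) := by
      field_simp
    rw [h1]
    linarith
  · rw [if_neg hM2, div_le_iff₀ hn2]
    have h4 : 4 ≤ M := by
      obtain ⟨k, hk⟩ := hMe
      omega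
    have h1 : q * ((57 / 100 - 9 * ((M : ℝ) + 1) / (8 * ((n : ℝ) - 3))) / (n : ℝ) ^ 2) *
        (n : ℝ) ^ 2 = q * (57 / 100 - 9 * ((M : ℝ) + 1) / (8 * ((n : ℝ) - 3))) := by
      field_simp
    rw [h1]
    refine hs.trans ?_
    have hn3 : (0 : ℝ) < 8 * ((n : ℝ) - 3) := by linarith
    rcases Nat.lt_or_ge q 11 with h | h
    · -- `n - 3 ≥ 20`
      have h5 : 9 * ((M : ℝ) + 1) / (8 * ((n : ℝ) - 3)) ≤ 9 * ((M : ℝ) + 1) / 160 := by
        apply div_le_div_of_nonneg_left (by positivity) (by norm_num)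
        linarith
      have h6 : 3 / 2 ≤ q * (57 / 100 - 9 * ((M : ℝ) + 1) / 160) := by
        have hM : M = 4 ∨ M = 6 := by
          obtain ⟨k, hk⟩ := hMe
          omega
        rcases hM with hM | hM
        · have h7 : (6 : ℝ) ≤ q := by exact_mod_cast (by omega : 6 ≤ q)
          rw [hM]
          push_cast
          linarith
        · have h7 : (9 : ℝ) ≤ q := by exact_mod_cast (by omega : 9 ≤ q)
          rw [hM]
          push_cast
          linarith
      refine h6.trans (mul_le_mul_of_nonneg_left ?_ (by positivity))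
      linarith
    · have h11 : (11 : ℝ) ≤ q := by exact_mod_cast h
      have h5 : 9 * ((M : ℝ) + 1) / (8 * ((n : ℝ) - 3)) ≤ 9 * (2 * (q : ℝ) / 3 + 1) / (16 * q) := by
        apply div_le_div₀ (by positivity) (by linarith) (by positivity) (by linarith)
      have h6 : q * (9 * (2 * (q : ℝ) / 3 + 1) / (16 * q)) = 9 * (2 * (q : ℝ) / 3 + 1) / 16 := by
        field_simp
      have h7 := mul_le_mul_of_nonneg_left h5 (by positivity : (0 : ℝ) ≤ q)
      rw [mul_sub]
      rw [h6] at h7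
      linarith

/-- the bound for the outer parts in the form of the block NCS -/
theorem out_abs {F : Finset (Sym2 V)} (hF : F ⊆ NC.KE V) (hev : ∀ v, Even (NC.fd F v))
    (hne : F.Nonempty) {n : ℕ} (hcard : Fintype.card V = n) (hodd : Odd n) (h23 : 23 ≤ n)
    (h2q : 2 * F.card + 3 ≤ n) (hx : ¬ Exc n F.card) {b : V} (hb : NC.fd F b = 0) :
    |∫ t in NC.box b \ NC.arcE b (NC.KE V \ F), ∏ e ∈ NC.KE V \ F, NC.cd (NC.ext b t) e| +
        |∫ t in NC.box b \ NC.arc b, ∏ e ∈ NC.KE V, NC.cd (NC.ext b t) e| ≤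
      Real.pi ^ (n - 1) * (NCS.slack n F.card (univ.sup fun v => NC.fd F v) *
        Real.exp (NCS.mainR n)) := by
  have hq3 : 3 ≤ F.card := NC.three_le_card hF hev hne
  have hpi : (0 : ℝ) < Real.pi ^ (n - 1) := pow_pos Real.pi_pos _
  have hfd0 : NC.fd (∅ : Finset (Sym2 V)) b = 0 := by
    unfold NC.fd
    simp
  have hadjK : ∀ w, w ≠ b → s(b, w) ∈ NC.KE V := by
    intro w hw
    rw [NC.mem_KE, Sym2.mk_isDiag_iff]
    exact fun h => hw h.symm
  have hadj : ∀ w, w ≠ b → s(b, w) ∈ NC.KE V \ F := by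
    intro w hw
    rw [mem_sdiff]
    refine ⟨hadjK w hw, fun h1 => ?_⟩
    have h2 := NC.fd_pos_of_mem h1 (Sym2.mem_mk_left b w)
    omega
  have harcE : NC.arcE b (NC.KE V) = NC.arc b := by
    refine Set.Subset.antisymm (fun t ht u v => ?_) (NC.arc_subset_arcE b _)
    by_cases huv : u = v
    · rw [huv, sub_self, abs_zero]
      exact (div_pos Real.pi_pos two_pos).le
    · exact ht s(u, v) (NC.mem_KE.mpr (by simpa using huv))
  have h1 := box_diff hb
  have h2 := box_diff hfd0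
  rw [sdiff_empty] at h2
  rw [NC.box_split b _ hadj, add_sub_cancel_left, hcard] at h1
  rw [NC.box_split b _ hadjK, add_sub_cancel_left, hcard, harcE] at h2
  have h3 := out_sum hF hev hne hcard hodd h23 h2q hx hb
  obtain ⟨v₀, N, hM, h2M, h3M, hNc, hvN, hN2⟩ := NC.exists_max F hF hev hne
  have hsup : (univ.sup fun v => NC.fd F v) = NC.fd F v₀ := by
    apply le_antisymm
    · exact Finset.sup_le fun v _ => hM v
    · exact Finset.le_sup (f := fun v => NC.fd F v) (mem_univ v₀)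
  rw [hsup]
  have h4 := sQ_le_slack h23 hq3 h2q h3M h2M (hev v₀)
  have h5 := mul_le_mul_of_nonneg_right h4 (Real.exp_pos (NCS.mainR n)).le
  have h6 := mul_le_mul_of_nonneg_left (h3.trans h5) hpi.le
  linarith

end MP_a3e05c_co.OUT

namespace MP_a3e05c_co.NC

variable {V E : Type} [Fintype V] [DecidableEq V] [Fintype E] [DecidableEq E]

/-- **The near clique bound**, `n ≥ 23`, with the exception of four pairs `(n, q)`. -/
theorem near_clique {hd : E → Bool → V} (hs : KL.Simple hd)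
    (hev : ∀ v, Even (KL.deg hd v)) {n : ℕ} (hcard : Fintype.card V = n) (hodd : Odd n)
    (h23 : 23 ≤ n) (hlt : Fintype.card E < n * (n - 1) / 2)
    (h2q : 2 * (n * (n - 1) / 2 - Fintype.card E) + 3 ≤ n)
    (hx : ¬ OUT.Exc n (n * (n - 1) / 2 - Fintype.card E))
    (hL : ∀ m : ℕ, Odd m → 17 ≤ m → m ≤ n → Real.exp (NCS.mainR m) ≤ KL.PK m) :
    KL.PA hd univ ≤ Real.exp (∑ v, KL.AA (KL.deg hd v)) := by
  have hF : KE V \ es hd ⊆ KE V := sdiff_subset
  have hKF : KE V \ (KE V \ es hd) = es hd := Finset.sdiff_sdiff_eq_self (es_sub hs)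
  have hFc : (KE V \ es hd).card = n * (n - 1) / 2 - Fintype.card E := by
    rw [card_sdiff_of_subset (es_sub hs), card_KE, card_es hs, hcard]
  have hdeg : ∀ v, fd (KE V \ es hd) v + KL.deg hd v = n - 1 := by
    intro v
    rw [← fd_es hs, fd_sdiff (es_sub hs), hcard]
  have hevF : ∀ v, Even (fd (KE V \ es hd) v) := by
    intro v
    have h1 := hdeg v
    obtain ⟨c, hc⟩ := hev v
    obtain ⟨k, hk⟩ := hodd
    exact ⟨k - c, by omega⟩
  have hne : (KE V \ es hd).Nonempty := by
    rw [← card_pos, hFc]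
    omega
  obtain ⟨b, hb⟩ := exists_gauge hF (by rw [hFc, hcard]; omega)
  refine near_clique_of_out hs hev hcard hodd h23 hlt h2q hL b hb ?_
  have h1 := OUT.out_abs hF hevF hne hcard hodd h23 (by rw [hFc]; omega) (by rw [hFc]; exact hx) hb
  rw [hKF, hFc] at h1
  exact h1

end MP_a3e05c_co.NC
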