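import Pool.Agent.Lib.MP_a3e05c_co.KL.Defs

/-!
# EULER, block OUT: the torus formula

`card (Om hd univ) / 2 ^ |E|` is the mean value of `∏ cos (t_u - t_v)` over the box
`|t_v| ≤ π / 2`, `v ≠ b`, with `t_b = 0`, when all the degrees are even.
-/

open Finset MeasureTheory

namespace MP_a3e05c_co.OUT

open MP_a3e05c_co.KL

set_option linter.unusedSectionVars false

variable {V E : Type} [Fintype V] [DecidableEq V] [Fintype E] [DecidableEq E]

/-- extension by zero at the gauge vertex `b` -/
def ext (b : V) (t : {v : V // v ≠ b} → ℝ) (v : V) : ℝ := if h : v ≠ b then t ⟨v, h⟩ else 0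

/-- the box `|t_v| ≤ π / 2` -/
def box (b : V) : Set ({v : V // v ≠ b} → ℝ) :=
  Set.univ.pi fun _ => Set.Icc (-(Real.pi / 2)) (Real.pi / 2)

/-- the excess of the in-degree over the out-degree -/
def ex (hd : E → Bool → V) (ω : E → Bool) (v : V) : ℤ := ∑ e, sg hd ω v e

theorem sum_sg {hd : E → Bool → V} (hn : NoLoop hd) (ω : E → Bool) (e : E) (t : V → ℝ) :
    ∑ v, t v * (sg hd ω v e : ℝ) = t (hd e (ω e)) - t (hd e (!ω e)) := by
  have hne : hd e (ω e) ≠ hd e (!ω e) := by
    cases h : ω e
    · exact fun h' => hn e h'.symm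
    · exact hn e
  have h1 : ∀ v, t v * (sg hd ω v e : ℝ) =
      (if hd e (ω e) = v then t v else 0) - (if hd e (!ω e) = v then t v else 0) := by
    intro v
    unfold sg
    by_cases h2 : hd e (ω e) = v
    · have h3 : hd e (!ω e) ≠ v := fun h => hne (h2.trans h.symm)
      rw [if_pos h2, if_pos h2, if_neg h3]
      simp
    · by_cases h3 : hd e (!ω e) = v
      · rw [if_neg h2, if_pos h3, if_neg h2, if_pos h3]
        simp
      · rw [if_neg h2, if_neg h3, if_neg h2, if_neg h3]
        simp
  rw [sum_congr rfl fun v _ => h1 v, sum_sub_distrib, sum_ite_eq univ (hd e (ω e)),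
    sum_ite_eq univ (hd e (!ω e)), if_pos (mem_univ _), if_pos (mem_univ _)]

theorem sum_ex {hd : E → Bool → V} (hn : NoLoop hd) (ω : E → Bool) : ∑ v, ex hd ω v = 0 := by
  unfold ex
  rw [sum_comm]
  refine sum_eq_zero fun e _ => ?_
  have h1 := sum_sg hn ω e (fun _ => (1 : ℝ))
  simp only [one_mul, sub_self] at h1
  exact_mod_cast h1

theorem even_ex {hd : E → Bool → V} {v : V} (hev : Even (deg hd v)) (ω : E → Bool) :
    Even (ex hd ω v) := by
  unfold ex
  have h1 : ∀ e, (sg hd ω v e : ℤ) ≡ (if ∃ b, hd e b = v then 1 else 0) [ZMOD 2] := by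
    intro e
    unfold sg
    by_cases h2 : hd e (ω e) = v
    · rw [if_pos h2, if_pos ⟨_, h2⟩]
    · by_cases h3 : hd e (!ω e) = v
      · rw [if_neg h2, if_pos h3, if_pos ⟨_, h3⟩]
        decide
      · rw [if_neg h2, if_neg h3, if_neg]
        rintro ⟨b, hb⟩
        by_cases h4 : b = ω e
        · rw [h4] at hb
          exact h2 hb
        · have h5 : b = !ω e := by
            cases b <;> cases h6 : ω e <;> simp_all
          rw [h5] at hb
          exact h3 hb
  have h2 : (∑ e, sg hd ω v e) ≡ ∑ e, (if ∃ b, hd e b = v then (1 : ℤ) else 0) [ZMOD 2] := by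
    have : ∀ s : Finset E, (∑ e ∈ s, sg hd ω v e) ≡
        ∑ e ∈ s, (if ∃ b, hd e b = v then (1 : ℤ) else 0) [ZMOD 2] := by
      intro s
      induction s using Finset.induction_on with
      | empty => rfl
      | insert a s ha ih =>
        rw [sum_insert ha, sum_insert ha]
        exact (h1 a).add ih
    exact this univ
  have h3 : (∑ e, (if ∃ b, hd e b = v then (1 : ℤ) else 0)) = (deg hd v : ℤ) := by
    unfold deg
    rw [card_filter]
    push_cast
    rfl
  rw [h3] at h2
  have h4 : ((deg hd v : ℕ) : ℤ) ≡ 0 [ZMOD 2] := by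
    obtain ⟨k, hk⟩ := hev
    rw [hk]
    push_cast
    exact (Int.modEq_zero_iff_dvd).2 ⟨k, by ring⟩
  exact even_iff_two_dvd.2 ((Int.modEq_zero_iff_dvd).1 (h2.trans h4))

open Complex in
theorem prod_cos {hd : E → Bool → V} (hn : NoLoop hd) (t : V → ℝ) :
    ((∏ e, Real.cos (t (hd e true) - t (hd e false)) : ℝ) : ℂ) =
      (1 / 2) ^ Fintype.card E * ∑ ω : E → Bool, ∏ v, cexp (t v * (ex hd ω v : ℂ) * I) := by
  have h1 : ∀ e, ((Real.cos (t (hd e true) - t (hd e false)) : ℝ) : ℂ) =
      ∑ b : Bool, (1 / 2) * cexp ((t (hd e b) - t (hd e (!b)) : ℝ) * I) := by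
    intro e
    rw [Complex.ofReal_cos, Fintype.sum_bool, Complex.cos, Bool.not_true, Bool.not_false]
    have : (-((t (hd e true) - t (hd e false) : ℝ) : ℂ)) * I =
        ((t (hd e false) - t (hd e true) : ℝ) : ℂ) * I := by
      push_cast
      ring
    rw [this]
    ring
  rw [Complex.ofReal_prod, prod_congr rfl fun e _ => h1 e, Finset.prod_univ_sum,
    Fintype.piFinset_univ, mul_sum]
  refine sum_congr rfl fun ω _ => ?_
  rw [prod_mul_distrib, prod_const, card_univ, ← Complex.exp_sum, ← Complex.exp_sum]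
  congr 2
  rw [← sum_mul, ← sum_mul]
  congr 1
  have h2 : ∑ e, ((t (hd e (ω e)) - t (hd e (!ω e)) : ℝ) : ℂ) =
      ∑ e, ∑ v, ((t v * (sg hd ω v e : ℝ) : ℝ) : ℂ) := by
    refine sum_congr rfl fun e _ => ?_
    rw [← Complex.ofReal_sum, sum_sg hn]
  rw [h2, sum_comm]
  refine sum_congr rfl fun v _ => ?_
  unfold ex
  push_cast
  rw [mul_sum]

theorem integral_box_exp {k : ℤ} (hk : Even k) :
    ∫ s in Set.Icc (-(Real.pi / 2)) (Real.pi / 2), Complex.exp (s * (k : ℂ) * Complex.I) =
      if k = 0 then (Real.pi : ℂ) else 0 := by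
  have hle : -(Real.pi / 2) ≤ Real.pi / 2 := by linarith [Real.pi_pos]
  rw [integral_Icc_eq_integral_Ioc, ← intervalIntegral.integral_of_le hle]
  by_cases h0 : k = 0
  · rw [if_pos h0, h0]
    simp
  · rw [if_neg h0]
    have hc : ((k : ℂ) * Complex.I) ≠ 0 :=
      mul_ne_zero (Int.cast_ne_zero.mpr h0) Complex.I_ne_zero
    have h1 : ∀ s : ℝ, Complex.exp (s * (k : ℂ) * Complex.I) =
        Complex.exp (((k : ℂ) * Complex.I) * s) := by
      intro s
      congr 1
      ring
    simp_rw [h1]
    rw [integral_exp_mul_complex hc]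
    obtain ⟨m, hm⟩ := hk
    have h2 : Complex.exp ((k : ℂ) * Complex.I * ((Real.pi / 2 : ℝ) : ℂ)) =
        Complex.exp ((k : ℂ) * Complex.I * ((-(Real.pi / 2) : ℝ) : ℂ)) := by
      rw [Complex.exp_eq_exp_iff_exists_int]
      refine ⟨m, ?_⟩
      rw [hm]
      push_cast
      ring
    rw [h2, sub_self, zero_div]

theorem measurable_ext (b v : V) : Measurable fun t : {v : V // v ≠ b} → ℝ => ext b t v := by
  unfold ext
  by_cases h : v ≠ b
  · simp only [dif_pos h]
    exact measurable_pi_apply _
  · simp only [dif_neg h]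
    exact measurable_const

/-- **Torus formula.** -/
theorem torus {hd : E → Bool → V} (hn : NoLoop hd) (hev : ∀ v, Even (deg hd v)) (b : V) :
    ∫ t in box b, ∏ e, Real.cos (ext b t (hd e true) - ext b t (hd e false)) =
      Real.pi ^ (Fintype.card V - 1) * (((Om hd univ).card : ℝ) / 2 ^ Fintype.card E) := by
  have hcard : Fintype.card {v : V // v ≠ b} = Fintype.card V - 1 := by
    rw [Fintype.card_subtype_compl, Fintype.card_subtype_eq]
  have hint : ∀ ω : E → Bool,
      ∫ t in box b, ∏ v, Complex.exp (ext b t v * (ex hd ω v : ℂ) * Complex.I) =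
        if ω ∈ Om hd univ then (Real.pi : ℂ) ^ (Fintype.card V - 1) else 0 := by
    intro ω
    have h1 : ∀ t : {v : V // v ≠ b} → ℝ,
        ∏ v, Complex.exp (ext b t v * (ex hd ω v : ℂ) * Complex.I) =
          ∏ v : {v : V // v ≠ b}, Complex.exp (t v * (ex hd ω v : ℂ) * Complex.I) := by
      intro t
      rw [← Fintype.prod_subtype_mul_prod_subtype (fun v => v ≠ b)]
      have h2 : ∀ v : {v : V // ¬ v ≠ b},
          Complex.exp (ext b t v * (ex hd ω v : ℂ) * Complex.I) = 1 := by
        intro v
        unfold ext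
        rw [dif_neg v.2]
        simp
      rw [prod_congr rfl fun v (_ : v ∈ univ) => h2 v, prod_const_one, mul_one]
      refine prod_congr rfl fun v _ => ?_
      unfold ext
      rw [dif_pos v.2]
    simp_rw [h1]
    unfold box
    rw [volume_pi, Measure.restrict_pi_pi]
    rw [integral_fintype_prod_eq_prod
      (f := fun (v : {v : V // v ≠ b}) (s : ℝ) => Complex.exp (s * (ex hd ω v : ℂ) * Complex.I))]
    rw [prod_congr rfl fun (v : {v : V // v ≠ b}) _ => integral_box_exp (even_ex (hev v.1) ω)]
    by_cases h3 : ω ∈ Om hd univ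
    · rw [if_pos h3]
      have h4 : ∀ v : {v : V // v ≠ b}, ex hd ω v = 0 := fun v => mem_Om.1 h3 v (mem_univ _)
      rw [prod_congr rfl fun v _ => if_pos (h4 v), prod_const, card_univ, hcard]
    · rw [if_neg h3]
      by_contra h5
      apply h3
      rw [mem_Om]
      have h6 : ∀ v, v ≠ b → ex hd ω v = 0 := by
        intro v hv
        by_contra h7
        apply h5
        exact prod_eq_zero (mem_univ ⟨v, hv⟩) (if_neg h7)
      intro v _
      by_cases hv : v = b
      · have h7 := sum_ex hn ω
        rw [Finset.sum_eq_single b (fun v _ hv => h6 v hv)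
          (fun h => absurd (mem_univ b) h)] at h7
        rw [hv]
        exact h7
      · exact h6 v hv
  have hmeas : ∀ ω : E → Bool, Integrable
      (fun t => ∏ v, Complex.exp (ext b t v * (ex hd ω v : ℂ) * Complex.I))
      (volume.restrict (box b)) := by
    intro ω
    have hfin : volume (box b) ≠ ⊤ := by
      have : IsCompact (box b) := isCompact_univ_pi fun _ => isCompact_Icc
      exact this.measure_ne_top
    refine Measure.integrableOn_of_bounded (M := 1) hfin ?_ ?_
    · refine Measurable.aestronglyMeasurable ?_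
      refine Finset.measurable_prod _ fun v _ => ?_
      have := measurable_ext b v
      fun_prop
    · refine Filter.Eventually.of_forall fun t => ?_
      rw [norm_prod]
      refine le_of_eq (prod_eq_one fun v _ => ?_)
      have : (ext b t v : ℂ) * (ex hd ω v : ℂ) * Complex.I =
          ((ext b t v * (ex hd ω v : ℝ) : ℝ) : ℂ) * Complex.I := by
        push_cast
        ring
      rw [this, Complex.norm_exp_ofReal_mul_I]
  have hC : ((∫ t in box b, ∏ e, Real.cos (ext b t (hd e true) - ext b t (hd e false)) : ℝ) : ℂ) =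
      ((Real.pi ^ (Fintype.card V - 1) * (((Om hd univ).card : ℝ) / 2 ^ Fintype.card E) : ℝ) : ℂ)
      := by
    rw [← integral_complex_ofReal]
    simp_rw [prod_cos hn]
    rw [integral_const_mul, integral_finsetSum _ fun ω _ => hmeas ω,
      sum_congr rfl fun ω _ => hint ω, sum_ite_mem, univ_inter, sum_const, nsmul_eq_mul]
    push_cast
    rw [one_div, inv_pow]
    ring
  exact_mod_cast hC

end MP_a3e05c_co.OUT
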