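import Pool.Agent.Lib.MP_a3e05c_co.IRR.Defs
import Pool.Agent.Lib.MP_a3e05c_co.OUT.Bridge

/-!
# EULER, final induction: closed blocks

`red_of_closed`: a closed block with the bound of the theorem is a reduction.
`red_near`: closed near cliques with at least 23 vertices.
-/

open Finset

namespace MP_a3e05c_co.KL

variable {V E : Type} [Fintype V] [DecidableEq V] [Fintype E] [DecidableEq E]

/-- neighbours of a closed set are in it -/
theorem closed_adj {hd : E → Bool → V} (hs : Simple hd) {C : Finset V}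
    (hC : Closed hd C) {u v : V} (hu : u ∈ C) (h : Adj hd u v) : v ∈ C := by
  have h1 : (nb hd (univ : Finset V) u).card ≤ (nb hd C u).card := by
    rw [card_nb hs, card_nb hs, hC u hu]
    exact kk_le_deg hs _ _
  have h2 : nb hd C u ⊆ nb hd (univ : Finset V) u := by
    intro x hx
    rw [mem_nb] at hx ⊢
    exact ⟨mem_univ _, hx.2⟩
  have h3 := Finset.eq_of_subset_of_card_le h2 h1
  have h4 : v ∈ nb hd (univ : Finset V) u := by
    rw [mem_nb]
    exact ⟨mem_univ _, h⟩
  rw [← h3, mem_nb] at h4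
  exact h4.1

theorem closed_kk_sdiff {hd : E → Bool → V} (hs : Simple hd) {A C : Finset V}
    (hC : Closed hd C) {v : V} (hv : v ∉ C) : kk hd (A \ C) v = kk hd A v := by
  rw [← card_nb hs, ← card_nb hs]
  congr 1
  ext u
  rw [mem_nb, mem_nb, mem_sdiff]
  constructor
  · rintro ⟨⟨h, _⟩, h'⟩
    exact ⟨h, h'⟩
  · rintro ⟨h, h'⟩
    exact ⟨⟨h, fun hu => hv (closed_adj hs hC hu h'.symm)⟩, h'⟩

theorem closed_kk {hd : E → Bool → V} (hs : Simple hd) {A C : Finset V} (hCA : C ⊆ A)
    (hC : Closed hd C) {v : V} (hv : v ∈ C) : kk hd A v = deg hd v := by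
  apply le_antisymm (kk_le_deg hs _ _)
  rw [← hC v hv, ← card_nb hs, ← card_nb hs]
  apply card_le_card
  intro u hu
  rw [mem_nb] at hu ⊢
  exact ⟨hCA hu.1, hu.2⟩

/-- the potential splits over a closed block -/
theorem pot_closed {hd : E → Bool → V} (hs : Simple hd) {A C : Finset V} (hCA : C ⊆ A)
    (hC : Closed hd C) : pot hd A = pot hd (A \ C) + ∑ v ∈ C, AA (deg hd v) := by
  unfold pot
  rw [← sum_sdiff hCA]
  congr 1
  · refine sum_congr rfl fun v hv => ?_
    rw [closed_kk_sdiff hs hC (mem_sdiff.1 hv).2]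
  · refine sum_congr rfl fun v hv => ?_
    rw [closed_kk hs hCA hC hv, phi_full]

/-- a closed block with the bound of the theorem is a reduction -/
theorem red_of_closed {hd : E → Bool → V} (hs : Simple hd) {A C : Finset V} (hCA : C ⊆ A)
    (hC : Closed hd C) (hne : C.Nonempty)
    (h : PA hd C ≤ Real.exp (∑ v ∈ C, AA (deg hd v))) : Red hd A := by
  refine ⟨A \ C, ?_, ?_⟩
  · rw [Finset.ssubset_iff_subset_ne]
    refine ⟨sdiff_subset, fun h1 => ?_⟩
    obtain ⟨v, hv⟩ := hne
    have h2 := hCA hv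
    rw [← h1, mem_sdiff] at h2
    exact h2.2 hv
  · rw [PA_split hs hCA hC, pot_closed hs hCA hC, add_sub_cancel_left, mul_comm]
    exact mul_le_mul_of_nonneg_right h (PA_nonneg hd _)

/-- the same, the bound for the block in the form of a theorem about graphs -/
theorem red_of_graph {hd : E → Bool → V} (hs : Simple hd) {A C : Finset V} (hCA : C ⊆ A)
    (hC : Closed hd C) (hne : C.Nonempty)
    (h : PA (hdR hd C) univ ≤ Real.exp (∑ v, AA (deg (hdR hd C) v))) : Red hd A := by
  refine red_of_closed hs hCA hC hne ?_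
  rw [PA_restrict hs hC]
  refine h.trans (le_of_eq ?_)
  congr 1
  rw [← sum_coe_sort C fun v => AA (deg hd v)]
  exact sum_congr rfl fun v _ => by rw [deg_hdR hs hC]

/-- number of missing edges of a closed block -/
theorem card_edges_block {hd : E → Bool → V} (hs : Simple hd) {C : Finset V} (hC : Closed hd C)
    {D q : ℕ} (hcard : C.card = D + 1) (hle : ∀ v ∈ C, deg hd v ≤ D)
    (hq : ∑ v ∈ C, (D - deg hd v) = 2 * q) :
    Fintype.card {e : E // ∀ b, hd e b ∈ C} + q = (D + 1) * (D + 1 - 1) / 2 := by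
  have h1 := two_card_edges (simple_hdR hs C)
  have h2 : ∑ v, deg (hdR hd C) v = ∑ v ∈ C, deg hd v := by
    rw [← sum_coe_sort C fun v => deg hd v]
    exact sum_congr rfl fun v _ => by rw [deg_hdR hs hC]
  have h3 : ∑ v ∈ C, (D - deg hd v) + ∑ v ∈ C, deg hd v = (D + 1) * D := by
    rw [← sum_add_distrib, ← hcard, ← smul_eq_mul, ← sum_const]
    exact sum_congr rfl fun v hv => Nat.sub_add_cancel (hle v hv)
  rw [hq, ← h2, ← h1] at h3
  rw [Nat.add_sub_cancel]
  omega

/-- closed near cliques with at least 23 vertices -/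
theorem red_near {hd : E → Bool → V} (hs : Simple hd) (hev : ∀ v, Even (deg hd v))
    {A C : Finset V} (hCA : C ⊆ A) (hC : Closed hd C) {D q : ℕ} (hD : Even D) (hD22 : 22 ≤ D)
    (hcard : C.card = D + 1) (hle : ∀ v ∈ C, deg hd v ≤ D)
    (hq : ∑ v ∈ C, (D - deg hd v) = 2 * q) (h1q : 1 ≤ q) (h2q : 2 * q + 2 ≤ D)
    (hx : ¬ OUT.Exc (D + 1) q)
    (hL : ∀ m : ℕ, Odd m → 17 ≤ m → m ≤ D + 1 → Real.exp (NCS.mainR m) ≤ PK m) : Red hd A := by
  have h1 := card_edges_block hs hC hcard hle hq
  have h2 : (D + 1) * (D + 1 - 1) / 2 - Fintype.card {e : E // ∀ b, hd e b ∈ C} = q := by omega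
  refine red_of_graph hs hCA hC (card_pos.1 (by omega)) ?_
  refine NC.near_clique (n := D + 1) (simple_hdR hs C) (fun v => ?_) ?_ hD.add_one (by omega)
    (by omega) (by rw [h2]; omega) (by rw [h2]; exact hx) hL
  · rw [deg_hdR hs hC]
    exact hev _
  · rw [Fintype.card_coe]
    exact hcard

end MP_a3e05c_co.KL
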