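import Pool.Agent.Lib.MP_a3e05c_co.OUT.Hold

/-!
# EULER, block OUT: from a subset of the vertices to a type, the complete graph

Paper proof.  (1) `Mn_res`: unfold `lmarginal`: `Mn F S = ∫⁻ y : (i : ↥S) → ℝ, PE (KS S \ F)
(updateFinset 0 S y) dpi`, and the product over `KS S \ F` at `updateFinset 0 S y` is the product over
`KE ↥S \ res F S` at `y` (bijection `Sym2.map Subtype.val`, `Finset.prod_bij`/`prod_map`).
(2) `MF_congr`: relabelling by an equivalence (`volume_measurePreserving_piCongrLeft` is for volume;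
for `Measure.pi` use `measurePreserving_piCongrLeft`), `MF_empty`: `Fintype.equivFinOfCardEq`.
(3) `fd_res`: the edges of `res F S` at `v` inject into the edges of `F` at `v`.
(4) `crude`: `MF V F = Mn F univ` (`lmarginal_univ`), `univ = U ∪ Uᶜ`, `crude_Mn`,
`Mn ∅ Uᶜ = MF ↥Uᶜ ∅ = MM k`.  `MM_succ`: `F = ∅`, `U` a single vertex of `Fin (m+1)`.
(5) `sum_res_le`: `e ↦ e.map Subtype.val` is injective, its values are present edges without `b`,
and `fs (res F S) e ≤ fs F (e.map val)` by `fd_res`.
-/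

set_option linter.unusedSectionVars false

open MeasureTheory Finset
open scoped ENNReal

namespace MP_a3e05c_co.OUT

section
variable {V : Type} [DecidableEq V]

/-- the edges of `F` inside `S`, as pairs of elements of `↥S` -/
def res (F : Finset (Sym2 V)) (S : Finset V) : Finset (Sym2 {v // v ∈ S}) :=
  univ.filter fun e => e.map Subtype.val ∈ F

theorem mem_res {F : Finset (Sym2 V)} {S : Finset V} {u v : {v // v ∈ S}} :
    s(u, v) ∈ res F S ↔ s(u.1, v.1) ∈ F := by
  simp [res]

theorem Rel_mem_res' {F : Finset (Sym2 V)} {S : Finset V} {e : Sym2 {v // v ∈ S}} :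
    e ∈ res F S ↔ e.map Subtype.val ∈ F := by
  simp [res]

theorem Rel_map_inj (S : Finset V) :
    Function.Injective (Sym2.map (Subtype.val : {v // v ∈ S} → V)) :=
  Sym2.map.injective Subtype.val_injective

theorem Rel_image (F : Finset (Sym2 V)) (S : Finset V) :
    KS S \ F = (NC.KE {v // v ∈ S} \ res F S).image (Sym2.map Subtype.val) := by
  ext e
  induction e with
  | h u v =>
    rw [mem_sdiff, mem_KS, mem_image]
    constructor
    · rintro ⟨⟨hu, hv, huv⟩, hF⟩
      refine ⟨s(⟨u, hu⟩, ⟨v, hv⟩), ?_, rfl⟩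
      rw [mem_sdiff, NC.mem_KE, mem_res]
      refine ⟨fun h => huv ?_, hF⟩
      rw [Sym2.mk_isDiag_iff] at h
      exact congrArg Subtype.val h
    · rintro ⟨e, he, hev⟩
      induction e with
      | h a b =>
        rw [mem_sdiff, NC.mem_KE, mem_res, Sym2.mk_isDiag_iff] at he
        rw [Sym2.map_mk] at hev
        have hab : a.1 ≠ b.1 := fun h => he.1 (Subtype.ext h)
        rw [← hev]
        refine ⟨?_, he.2⟩
        rcases Sym2.eq_iff.1 hev with ⟨h1, h2⟩ | ⟨h1, h2⟩
        · rw [← h1, ← h2]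
          exact ⟨a.2, b.2, hab⟩
        · rw [← h1, ← h2]
          exact ⟨b.2, a.2, hab.symm⟩

theorem Rel_ac_map {W : Type} (f : W → V) (θ : V → ℝ) (e : Sym2 W) :
    ac θ (e.map f) = ac (fun w => θ (f w)) e := by
  induction e with
  | h u v => rfl

theorem Mn_res (F : Finset (Sym2 V)) (S : Finset V) : Mn F S = MF {v // v ∈ S} (res F S) := by
  unfold Mn MF lmarginal
  refine lintegral_congr fun y => ?_
  unfold PE
  rw [Rel_image, prod_image fun a _ b _ h => Rel_map_inj S h]
  refine prod_congr rfl fun e _ => ?_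
  rw [Rel_ac_map]
  refine congrArg (fun t => ac t e) ?_
  funext w
  unfold Function.updateFinset
  rw [dif_pos w.2]

theorem fd_res (F : Finset (Sym2 V)) (S : Finset V) (v : {v // v ∈ S}) :
    NC.fd (res F S) v ≤ NC.fd F v.1 := by
  unfold NC.fd
  refine card_le_card_of_injOn (Sym2.map Subtype.val) ?_ fun a _ b _ h => Rel_map_inj S h
  intro e he
  have he' := mem_filter.1 (mem_coe.1 he)
  refine mem_coe.2 (mem_filter.2 ⟨Rel_mem_res'.1 he'.1, ?_⟩)
  exact Sym2.mem_map.2 ⟨v, he'.2, rfl⟩

end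

variable {V : Type} [Fintype V] [DecidableEq V]

theorem res_subset {F : Finset (Sym2 V)} (hF : F ⊆ NC.KE V) (S : Finset V) :
    res F S ⊆ NC.KE {v // v ∈ S} := by
  intro e he
  have h1 := NC.mem_KE.1 (hF (Rel_mem_res'.1 he))
  rw [NC.mem_KE]
  intro h2
  apply h1
  induction e with
  | h a b =>
    rw [Sym2.mk_isDiag_iff] at h2
    rw [h2]
    exact (Sym2.mk_isDiag_iff).2 rfl

theorem Rel_fs_res (F : Finset (Sym2 V)) (S : Finset V) (e : Sym2 {v // v ∈ S}) :
    fs (res F S) e ≤ fs F (e.map Subtype.val) := by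
  induction e with
  | h a b =>
    rw [Sym2.map_mk, fs_mk, fs_mk]
    exact add_le_add (fd_res F S a) (fd_res F S b)

/-- the sum of the weights over the present pairs of `S` -/
theorem sum_res_le (F : Finset (Sym2 V)) {b : V} {S : Finset V} (hb : b ∉ S) :
    ∑ x ∈ NC.KE {v // v ∈ S} \ res F S, (2 : ℝ) ^ fs (res F S) x ≤
      ∑ x ∈ (NC.KE V \ F).filter (fun x => b ∉ x), (2 : ℝ) ^ fs F x := by
  have h1 : ∑ x ∈ NC.KE {v // v ∈ S} \ res F S, (2 : ℝ) ^ fs (res F S) x ≤
      ∑ x ∈ NC.KE {v // v ∈ S} \ res F S, (2 : ℝ) ^ fs F (x.map Subtype.val) :=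
    sum_le_sum fun x _ => pow_le_pow_right₀ one_le_two (Rel_fs_res F S x)
  have h2 : ∑ x ∈ NC.KE {v // v ∈ S} \ res F S, (2 : ℝ) ^ fs F (x.map Subtype.val) =
      ∑ x ∈ KS S \ F, (2 : ℝ) ^ fs F x := by
    rw [Rel_image, sum_image fun a _ b _ h => Rel_map_inj S h]
  refine h1.trans (h2.le.trans (sum_le_sum_of_subset_of_nonneg ?_ fun _ _ _ => by positivity))
  intro e he
  induction e with
  | h u v =>
    rw [mem_sdiff, mem_KS] at he
    rw [mem_filter, mem_sdiff, NC.mem_KE, Sym2.mk_isDiag_iff, Sym2.mem_iff]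
    refine ⟨⟨he.1.2.2, he.2⟩, ?_⟩
    rintro (h | h)
    · exact hb (h ▸ he.1.1)
    · exact hb (h ▸ he.1.2.1)

theorem Rel_KS_univ : KS (univ : Finset V) = NC.KE V := by
  ext e
  induction e with
  | h u v =>
    rw [mem_KS, NC.mem_KE, Sym2.mk_isDiag_iff]
    exact ⟨fun h => h.2.2, fun h => ⟨mem_univ _, mem_univ _, h⟩⟩

theorem MF_univ (F : Finset (Sym2 V)) : MF V F = Mn F univ := by
  unfold MF Mn
  rw [lmarginal_univ, Rel_KS_univ]

theorem MF_empty {m : ℕ} (h : Fintype.card V = m) : MF V ∅ = MM m := by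
  let f : V ≃ Fin m := Fintype.equivFinOfCardEq h
  unfold MM MF
  have hmp := measurePreserving_piCongrLeft (fun _ : Fin m => mu) f
  rw [← hmp.lintegral_comp (measurable_PE _)]
  refine lintegral_congr fun θ => ?_
  unfold PE
  have himg : NC.KE (Fin m) \ ∅ = (NC.KE V \ ∅).image (Sym2.map f) := by
    rw [sdiff_empty, sdiff_empty]
    ext e
    rw [mem_image]
    constructor
    · intro he
      refine ⟨e.map f.symm, ?_, ?_⟩
      · rw [NC.mem_KE] at he ⊢
        intro h2
        apply he
        induction e with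
        | h a b =>
          rw [Sym2.map_mk, Sym2.mk_isDiag_iff] at h2
          exact Sym2.mk_isDiag_iff.2 (f.symm.injective h2)
      · rw [Sym2.map_map]
        have : (f ∘ f.symm : Fin m → Fin m) = id := by
          funext x
          exact f.apply_symm_apply x
        rw [this, Sym2.map_id, id]
    · rintro ⟨e', he', rfl⟩
      rw [NC.mem_KE] at he' ⊢
      intro h2
      apply he'
      induction e' with
      | h a b =>
        rw [Sym2.map_mk, Sym2.mk_isDiag_iff] at h2
        exact Sym2.mk_isDiag_iff.2 (f.injective h2)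
  rw [himg, prod_image fun a _ b _ h => Sym2.map.injective f.injective h]
  refine prod_congr rfl fun e _ => ?_
  rw [Rel_ac_map]
  refine congrArg (fun t => ac t e) ?_
  funext w
  exact (Equiv.piCongrLeft_apply_apply (fun _ : Fin m => ℝ) f θ w).symm

theorem Rel_Mn_empty (S : Finset V) : Mn ∅ S = MM S.card := by
  rw [Mn_res]
  have h : res (∅ : Finset (Sym2 V)) S = ∅ := by
    ext e
    rw [Rel_mem_res']
    simp
  rw [h]
  exact MF_empty (Fintype.card_coe S)

/-- **crude bound** -/
theorem crude {F : Finset (Sym2 V)} {U : Finset V} (hU : ∀ v, v ∉ U → NC.fd F v = 0) {k : ℕ}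
    (hk : Fintype.card V = U.card + k) : MF V F ≤ bt k ^ U.card * MM k := by
  have hc : (Uᶜ : Finset V).card = k := by
    rw [card_compl, hk]
    omega
  have h1 := crude_Mn F (S := Uᶜ) (U := U) disjoint_compl_right
    fun v hv => hU v (mem_compl.1 hv)
  rw [union_compl, Rel_Mn_empty, hc] at h1
  rw [MF_univ]
  exact h1

theorem MM_succ (m : ℕ) : MM (m + 1) ≤ bt m * MM m := by
  have h := crude (V := Fin (m + 1)) (F := ∅) (U := {0}) (fun v _ => by simp [NC.fd]) (k := m)
    (by rw [Fintype.card_fin, card_singleton, add_comm])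
  rw [card_singleton, pow_one] at h
  exact h

end MP_a3e05c_co.OUT
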