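import Pool.Agent.Lib.MP_a3e05c_co.OUT.Union
import Pool.Agent.Lib.MP_a3e05c_co.OUT.Rel

/-!
# EULER, block OUT: integrals over the box and marginals

Paper proof.  (1) `box_lint`: unfold `lmarginal`, the measure `Measure.pi fun _ : ↥(univ.erase b) => mu`
is `ofReal (1/π)^(n-1)` times the restriction of the volume to the box (`Measure.restrict_pi_pi`,
`Measure.pi` of scalar multiples), relabel `↥(univ.erase b)` by `{v // v ≠ b}`
(`Equiv.subtypeEquivRight`, `measurePreserving_piCongrLeft`); `updateFinset 0 _ y = NC.ext b _`.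
(2) `box_diff`: `arcE b E ⊆ box b` because every `s(b, v)` is in `E = KE V \ F`; so
`∫_box - ZE = ∫_(box \ arcE)`, absolute value `≤ ∫_(box \ arcE) |∏ cd| = π^(n-1) * (OT F b).toReal`
by (1) (`|∏ cd| = (PE E θ).toReal`), everything finite (bounded functions on a box).
(3) `MF_le`: `MF V F = (∫⋯∫⁻_(univ.erase b), PE (KE \ F)) 0` (`MF_univ`, `gauge`, see `Rel`/`Shift`;
here the hypothesis `hg` is that equality), split the integrand according to the domain, (1) on the
part inside (there the cosines are `≥ 0`).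
-/

set_option linter.unusedSectionVars false

open MeasureTheory Finset
open scoped ENNReal

namespace MP_a3e05c_co.OUT

variable {V : Type} [Fintype V] [DecidableEq V]

/-- the cube of the angles is a product of intervals -/
private theorem Box_eq (b : V) :
    NC.box b = Set.pi Set.univ fun _ : {v // v ≠ b} => Set.Icc (-(Real.pi / 2)) (Real.pi / 2) := by
  ext t
  simp only [NC.box, Set.mem_ofPred_eq, Set.mem_pi, Set.mem_univ, true_imp_iff, Set.mem_Icc, abs_le]

private theorem Box_meas (b : V) : MeasurableSet (NC.box b) := by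
  rw [Box_eq]
  exact MeasurableSet.univ_pi fun _ => measurableSet_Icc

private theorem Box_card (b : V) : Fintype.card {v // v ≠ b} = Fintype.card V - 1 := by
  rw [Fintype.card_subtype_compl]
  simp

private theorem Box_pi (b : V) :
    Measure.pi (fun _ : {v // v ≠ b} => mu) =
      ENNReal.ofReal (1 / Real.pi) ^ (Fintype.card V - 1) •
        (volume : Measure ({v // v ≠ b} → ℝ)).restrict (NC.box b) := by
  refine Measure.pi_eq fun s _ => ?_
  rw [Box_eq, volume_pi, Measure.restrict_pi_pi, Measure.smul_apply, Measure.pi_pi, smul_eq_mul]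
  unfold mu
  simp only [Measure.smul_apply, smul_eq_mul]
  rw [Finset.prod_mul_distrib, Finset.prod_const, Finset.card_univ, Box_card]

private theorem Box_c (n : ℕ) :
    ENNReal.ofReal (Real.pi ^ n) * ENNReal.ofReal (1 / Real.pi) ^ n = 1 := by
  rw [ENNReal.ofReal_pow Real.pi_pos.le, ← mul_pow, ← ENNReal.ofReal_mul Real.pi_pos.le,
    mul_one_div_cancel Real.pi_pos.ne', ENNReal.ofReal_one, one_pow]

private theorem Box_ext_meas (b : V) : Measurable fun t : {v // v ≠ b} → ℝ => NC.ext b t := by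
  refine measurable_pi_iff.2 fun v => ?_
  unfold NC.ext
  by_cases h : v = b
  · simp only [h, dite_true]
    exact measurable_const
  · simp only [h, dite_false]
    exact measurable_pi_apply _

theorem box_lint (b : V) {g : (V → ℝ) → ℝ≥0∞} (hg : Measurable g) :
    ∫⁻ t in NC.box b, g (NC.ext b t) =
      ENNReal.ofReal (Real.pi ^ (Fintype.card V - 1)) *
        (∫⋯∫⁻_(univ.erase b), g ∂fun _ : V => mu) (fun _ => 0) := by
  have h1 : (∫⋯∫⁻_(univ.erase b), g ∂fun _ : V => mu) (fun _ => 0) =
      ∫⁻ t : {v // v ≠ b} → ℝ, g (NC.ext b t) ∂Measure.pi (fun _ : {v // v ≠ b} => mu) := by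
    unfold lmarginal
    set e0 : {v // v ∈ (univ : Finset V).erase b} ≃ {v // v ≠ b} :=
      Equiv.subtypeEquivRight fun v => by simp
    have hmp := measurePreserving_piCongrLeft (fun _ : {v // v ≠ b} => mu) e0
    have h0 := hmp.lintegral_comp (hg.comp (Box_ext_meas b))
    refine Eq.trans (lintegral_congr fun y => ?_) h0
    show g _ = g _
    congr 1
    funext v
    unfold Function.updateFinset NC.ext
    by_cases hv : v = b
    · have h2 : v ∉ (univ : Finset V).erase b := by simp [hv]
      rw [dif_neg h2]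
      have h5 : NC.ext b (MeasurableEquiv.piCongrLeft (fun _ => ℝ) e0 y) v = 0 := dif_pos hv
      exact h5.symm
    · have h2 : v ∈ (univ : Finset V).erase b := by simp [hv]
      rw [dif_pos h2]
      have h5 : NC.ext b (MeasurableEquiv.piCongrLeft (fun _ => ℝ) e0 y) v =
          MeasurableEquiv.piCongrLeft (fun _ => ℝ) e0 y ⟨v, hv⟩ := dif_neg hv
      have h3 := Equiv.piCongrLeft_apply_apply (fun _ : {v // v ≠ b} => ℝ) e0 y ⟨v, h2⟩
      exact h3.symm.trans h5.symm
  rw [h1, Box_pi, lintegral_smul_measure, smul_eq_mul, ← mul_assoc, Box_c, one_mul]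

theorem OT_le_one (F : Finset (Sym2 V)) (b : V) : OT F b ≤ 1 := by
  unfold OT lmarginal
  calc _ ≤ ∫⁻ _ : ({v // v ∈ (univ : Finset V).erase b} → ℝ), 1 ∂Measure.pi
        (fun _ : {v // v ∈ (univ : Finset V).erase b} => mu) := by
        refine lintegral_mono fun y => ?_
        show (if _ then _ else _) ≤ _
        split_ifs
        · exact zero_le_one
        · exact PE_le_one _ _
    _ = 1 := by simp

/-- domain given by the present edges -/
private def Box_D (F : Finset (Sym2 V)) : Set (V → ℝ) :=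
  {θ | ∀ e ∈ NC.KE V \ F, NC.ad θ e ≤ Real.pi / 2}

private theorem Box_ad_meas (e : Sym2 V) : Measurable fun θ : V → ℝ => NC.ad θ e := by
  induction e with
  | h u v =>
    show Measurable fun θ : V → ℝ => |θ u - θ v|
    exact ((measurable_pi_apply u).sub (measurable_pi_apply v)).abs

private theorem Box_D_meas (F : Finset (Sym2 V)) : MeasurableSet (Box_D F) := by
  have : Box_D F = ⋂ e ∈ NC.KE V \ F, {θ | NC.ad θ e ≤ Real.pi / 2} := by
    ext t
    simp only [Box_D, Set.mem_ofPred_eq, Set.mem_iInter]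
  rw [this]
  exact Finset.measurableSet_biInter _ fun e _ =>
    measurableSet_le (Box_ad_meas e) measurable_const

private theorem Box_sub {F : Finset (Sym2 V)} {b : V} (hb : NC.fd F b = 0) :
    NC.arcE b (NC.KE V \ F) ⊆ NC.box b := by
  intro t ht v
  have h1 : s(b, v.1) ∈ NC.KE V \ F := by
    rw [mem_sdiff, NC.mem_KE]
    refine ⟨by simpa using v.2.symm, fun h => ?_⟩
    have h2 : s(b, v.1) ∈ F.filter (b ∈ ·) := mem_filter.2 ⟨h, Sym2.mem_mk_left _ _⟩
    have h3 : (F.filter (b ∈ ·)).card = 0 := hb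
    rw [card_eq_zero] at h3
    rw [h3] at h2
    exact absurd h2 (notMem_empty _)
  have h2 := ht _ h1
  rw [NC.ad_mk] at h2
  have h3 : NC.ext b t b = 0 := dif_pos rfl
  have h4 : NC.ext b t v.1 = t v := dif_neg v.2
  rw [h3, h4, zero_sub, abs_neg] at h2
  exact h2

private theorem Box_OT (F : Finset (Sym2 V)) (b : V) :
    ∫⁻ t in NC.box b, (Box_D F)ᶜ.indicator (PE (NC.KE V \ F)) (NC.ext b t) =
      ENNReal.ofReal (Real.pi ^ (Fintype.card V - 1)) * OT F b := by
  classical
  have h1 : (fun θ => if ∀ e ∈ NC.KE V \ F, NC.ad θ e ≤ Real.pi / 2 then 0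
      else PE (NC.KE V \ F) θ) = (Box_D F)ᶜ.indicator (PE (NC.KE V \ F)) := by
    funext θ
    by_cases h : ∀ e ∈ NC.KE V \ F, NC.ad θ e ≤ Real.pi / 2
    · rw [if_pos h, Set.indicator_of_notMem]
      exact fun h2 => h2 h
    · rw [if_neg h, Set.indicator_of_mem]
      exact h
  rw [box_lint b ((measurable_PE _).indicator (Box_D_meas F).compl)]
  congr 1
  unfold OT
  rw [← h1]

private theorem Box_abs (E : Finset (Sym2 V)) (θ : V → ℝ) :
    ENNReal.ofReal |∏ e ∈ E, NC.cd θ e| = PE E θ := by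
  unfold PE ac
  rw [Finset.abs_prod, ENNReal.ofReal_prod_of_nonneg fun e _ => abs_nonneg _]

private theorem Box_int (E : Finset (Sym2 V)) (b : V) :
    IntegrableOn (fun t => ∏ e ∈ E, NC.cd (NC.ext b t) e) (NC.box b) := by
  have hfin : volume (NC.box b) < ⊤ := by
    rw [Box_eq, volume_pi, Measure.pi_pi]
    exact ENNReal.prod_lt_top fun i _ => by
      rw [Real.volume_Icc]
      exact ENNReal.ofReal_lt_top
  have hm : Measurable fun t => ∏ e ∈ E, NC.cd (NC.ext b t) e :=
    Finset.measurable_prod _ fun e _ => (measurable_cd e).comp (Box_ext_meas b)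
  refine Measure.integrableOn_of_bounded (M := 1) hfin.ne hm.aestronglyMeasurable
    (Filter.Eventually.of_forall fun t => ?_)
  rw [Real.norm_eq_abs, Finset.abs_prod]
  exact Finset.prod_le_one (fun e _ => abs_nonneg _) fun e _ => abs_cd_le_one _ e

/-- difference between the integral over the box and the integral over the arc domain -/
theorem box_diff {F : Finset (Sym2 V)} {b : V} (hb : NC.fd F b = 0) :
    |(∫ t in NC.box b, ∏ e ∈ NC.KE V \ F, NC.cd (NC.ext b t) e) - NC.ZE b (NC.KE V \ F)| ≤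
      Real.pi ^ (Fintype.card V - 1) * (OT F b).toReal := by
  have hsub := Box_sub hb
  have hint := Box_int (NC.KE V \ F) b
  have h1 : (∫ t in NC.box b, ∏ e ∈ NC.KE V \ F, NC.cd (NC.ext b t) e) -
      NC.ZE b (NC.KE V \ F) =
      ∫ t in NC.box b \ NC.arcE b (NC.KE V \ F), ∏ e ∈ NC.KE V \ F, NC.cd (NC.ext b t) e := by
    unfold NC.ZE
    rw [setIntegral_sdiff (NC.arcE_measurableSet b _) hint hsub]
  rw [h1]
  have h2 := Box_OT F b
  have h3 : ∫⁻ t in NC.box b, (Box_D F)ᶜ.indicator (PE (NC.KE V \ F)) (NC.ext b t) =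
      ∫⁻ t in NC.box b \ NC.arcE b (NC.KE V \ F),
        ENNReal.ofReal |∏ e ∈ NC.KE V \ F, NC.cd (NC.ext b t) e| := by
    have h4 : ∀ t, (Box_D F)ᶜ.indicator (PE (NC.KE V \ F)) (NC.ext b t) =
        (NC.arcE b (NC.KE V \ F))ᶜ.indicator (fun t =>
          ENNReal.ofReal |∏ e ∈ NC.KE V \ F, NC.cd (NC.ext b t) e|) t := by
      intro t
      by_cases h : t ∈ NC.arcE b (NC.KE V \ F)
      · rw [Set.indicator_of_notMem, Set.indicator_of_notMem]
        · exact fun h2 => h2 h
        · exact fun h2 => h2 h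
      · rw [Set.indicator_of_mem, Set.indicator_of_mem, Box_abs]
        · exact h
        · exact h
    rw [lintegral_congr h4, lintegral_indicator (NC.arcE_measurableSet b _).compl,
      Measure.restrict_restrict (NC.arcE_measurableSet b _).compl, Set.inter_comm,
      ← Set.sdiff_eq]
  have h5 : ∫⁻ t in NC.box b \ NC.arcE b (NC.KE V \ F),
      ENNReal.ofReal |∏ e ∈ NC.KE V \ F, NC.cd (NC.ext b t) e| =
      ENNReal.ofReal (Real.pi ^ (Fintype.card V - 1)) * OT F b := h3.symm.trans h2
  have h6 : IntegrableOn (fun t => ∏ e ∈ NC.KE V \ F, NC.cd (NC.ext b t) e)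
      (NC.box b \ NC.arcE b (NC.KE V \ F)) := hint.mono_set Set.sdiff_subset
  calc |∫ t in NC.box b \ NC.arcE b (NC.KE V \ F), ∏ e ∈ NC.KE V \ F, NC.cd (NC.ext b t) e|
      ≤ ∫ t in NC.box b \ NC.arcE b (NC.KE V \ F),
        |∏ e ∈ NC.KE V \ F, NC.cd (NC.ext b t) e| := abs_integral_le_integral_abs
    _ = (∫⁻ t in NC.box b \ NC.arcE b (NC.KE V \ F),
        ENNReal.ofReal |∏ e ∈ NC.KE V \ F, NC.cd (NC.ext b t) e|).toReal :=
        integral_eq_lintegral_of_nonneg_ae (Filter.Eventually.of_forall fun t => abs_nonneg _)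
          h6.abs.aestronglyMeasurable
    _ = Real.pi ^ (Fintype.card V - 1) * (OT F b).toReal := by
        rw [h5, ENNReal.toReal_mul, ENNReal.toReal_ofReal (pow_nonneg Real.pi_pos.le _)]

theorem MF_le {F : Finset (Sym2 V)} {b : V} (hb : NC.fd F b = 0) :
    MF V F ≤ ENNReal.ofReal (NC.ZE b (NC.KE V \ F) / Real.pi ^ (Fintype.card V - 1)) + OT F b := by
  have hπ : (0 : ℝ) < Real.pi ^ (Fintype.card V - 1) := pow_pos Real.pi_pos _
  have hsub := Box_sub hb
  have h0 : MF V F = (∫⋯∫⁻_((univ : Finset V).erase b), PE (NC.KE V \ F) ∂fun _ : V => mu)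
      (fun _ => 0) := by
    rw [MF_univ, ← gauge F (mem_univ b) (fun _ => 0), KS_univ]
  have h1 := box_lint b (measurable_PE (NC.KE V \ F))
  rw [← h0] at h1
  have h2 : ∫⁻ t in NC.box b, PE (NC.KE V \ F) (NC.ext b t) =
      (∫⁻ t in NC.arcE b (NC.KE V \ F), PE (NC.KE V \ F) (NC.ext b t)) +
        ENNReal.ofReal (Real.pi ^ (Fintype.card V - 1)) * OT F b := by
    rw [← Box_OT F b]
    have h3 : ∀ t, PE (NC.KE V \ F) (NC.ext b t) =
        (NC.arcE b (NC.KE V \ F)).indicator (fun t => PE (NC.KE V \ F) (NC.ext b t)) t +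
          (Box_D F)ᶜ.indicator (PE (NC.KE V \ F)) (NC.ext b t) := by
      intro t
      by_cases h : t ∈ NC.arcE b (NC.KE V \ F)
      · rw [Set.indicator_of_mem h, Set.indicator_of_notMem, add_zero]
        exact fun h2 => h2 h
      · rw [Set.indicator_of_notMem h, Set.indicator_of_mem, zero_add]
        exact h
    rw [lintegral_congr h3, lintegral_add_left]
    · congr 1
      rw [lintegral_indicator (NC.arcE_measurableSet b _),
        Measure.restrict_restrict (NC.arcE_measurableSet b _), Set.inter_eq_left.2 hsub]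
    · exact ((measurable_PE _).comp (Box_ext_meas b)).indicator (NC.arcE_measurableSet b _)
  have h3 : ∫⁻ t in NC.arcE b (NC.KE V \ F), PE (NC.KE V \ F) (NC.ext b t) =
      ENNReal.ofReal (NC.ZE b (NC.KE V \ F)) := by
    unfold NC.ZE
    rw [ofReal_integral_eq_lintegral_ofReal ((Box_int (NC.KE V \ F) b).mono_set hsub)]
    · refine setLIntegral_congr_fun (NC.arcE_measurableSet b _) fun t ht => ?_
      rw [← Box_abs, abs_of_nonneg]
      refine Finset.prod_nonneg fun e he => ?_
      have h4 := NC.cc_eq (NC.ext b t) e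
      rw [if_pos (ht e he)] at h4
      rw [← h4]
      exact NC.cc_nonneg _ _
    · refine (ae_restrict_iff' (NC.arcE_measurableSet b _)).2
        (Filter.Eventually.of_forall fun t ht => ?_)
      refine Finset.prod_nonneg fun e he => ?_
      have h4 := NC.cc_eq (NC.ext b t) e
      rw [if_pos (ht e he)] at h4
      rw [← h4]
      exact NC.cc_nonneg _ _
  rw [h2, h3] at h1
  refine le_of_eq ?_
  rw [ENNReal.ofReal_div_of_pos hπ]
  have hc0 : ENNReal.ofReal (Real.pi ^ (Fintype.card V - 1)) ≠ 0 := by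
    rw [Ne, ENNReal.ofReal_eq_zero, not_le]
    exact hπ
  have hc1 : ENNReal.ofReal (Real.pi ^ (Fintype.card V - 1)) ≠ ⊤ := ENNReal.ofReal_ne_top
  rw [← ENNReal.mul_right_inj hc0 hc1, ← h1, mul_add, ENNReal.mul_div_cancel hc0 hc1]

end MP_a3e05c_co.OUT
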