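import Pool.Agent.Lib.MP_a3e05c_co.OUT.Defs
import Pool.Agent.Lib.MP_a3e05c_co.NCS.Cb

/-!
# EULER, block OUT: the means of `|cos|^k`

Paper proof.  `bt k = (1/π) ∫_{-π/2}^{π/2} cos^k`.  For `k = 2 m`: `bt k = centralBinom m / 4^m`
(Wallis, `integral_cos_pow`/`integral_sin_pow_even`), `bt k ^ 2 ≤ 1/(π (m + 1/4)) = 2/(π (k + 1/2))`
(`NCS.cb_sq_le`).  For `k` odd: Cauchy-Schwarz `bt k ^ 2 ≤ bt (k-1) * bt (k+1)`, so
`bt k ^ 2 ≤ (2/π) ((k - 1/2)(k + 3/2))^(-1/2) ≤ 2/(π (k + 2/5))` for `k ≥ 5`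
(`(k + 1/2)² - 1 ≥ (k + 2/5)²` iff `k/5 + 9/100 ≥ 1`).  `k = 1`: `bt 1 = 2/π`; `k = 3`:
`bt 3 = 4/(3π)`: direct, `π` bounds.
-/

open MeasureTheory Finset
open scoped ENNReal

namespace MP_a3e05c_co.OUT

/-- the real integral -/
private noncomputable def Jc (k : ℕ) : ℝ :=
  ∫ s in (-(Real.pi / 2))..(Real.pi / 2), Real.cos s ^ k

private theorem Jc_zero : Jc 0 = Real.pi := by
  simp [Jc]

private theorem Jc_one : Jc 1 = 2 := by
  simp only [Jc, pow_one, integral_cos, Real.sin_neg, Real.sin_pi_div_two]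
  norm_num

private theorem Jc_succ (k : ℕ) : Jc (k + 2) = ((k : ℝ) + 1) / ((k : ℝ) + 2) * Jc k := by
  unfold Jc
  rw [integral_cos_pow]
  simp [Real.cos_neg, Real.cos_pi_div_two]

private theorem Jc_nonneg (k : ℕ) : 0 ≤ Jc k := by
  refine intervalIntegral.integral_nonneg (by linarith [Real.pi_pos]) fun s hs => ?_
  exact pow_nonneg (Real.cos_nonneg_of_mem_Icc ⟨hs.1, hs.2⟩) _

private theorem Jc_even (m : ℕ) : Jc (2 * m) = Real.pi * NCS.cb m := by
  induction m with
  | zero => rw [Nat.mul_zero, Jc_zero]; simp [NCS.cb]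
  | succ m ih =>
    rw [Nat.mul_succ, Jc_succ, ih, NCS.cb_succ]
    push_cast
    ring

private theorem Jc_int (k : ℕ) : IntervalIntegrable (fun s : ℝ => Real.cos s ^ k) volume
    (-(Real.pi / 2)) (Real.pi / 2) :=
  Continuous.intervalIntegrable (by fun_prop) _ _

private theorem Jc_quad (k : ℕ) (t : ℝ) :
    0 ≤ t ^ 2 * Jc k - 2 * t * Jc (k + 1) + Jc (k + 2) := by
  have h1 : t ^ 2 * Jc k - 2 * t * Jc (k + 1) + Jc (k + 2) =
      ∫ s in (-(Real.pi / 2))..(Real.pi / 2),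
        (t ^ 2 * Real.cos s ^ k - 2 * t * Real.cos s ^ (k + 1) + Real.cos s ^ (k + 2)) := by
    rw [intervalIntegral.integral_add (((Jc_int k).const_mul _).sub ((Jc_int (k + 1)).const_mul _))
      (Jc_int (k + 2)), intervalIntegral.integral_sub ((Jc_int k).const_mul _)
      ((Jc_int (k + 1)).const_mul _), intervalIntegral.integral_const_mul,
      intervalIntegral.integral_const_mul]
    rfl
  rw [h1]
  refine intervalIntegral.integral_nonneg (by linarith [Real.pi_pos]) fun s hs => ?_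
  have h0 : 0 ≤ Real.cos s ^ k := pow_nonneg (Real.cos_nonneg_of_mem_Icc ⟨hs.1, hs.2⟩) _
  have h2 : t ^ 2 * Real.cos s ^ k - 2 * t * Real.cos s ^ (k + 1) + Real.cos s ^ (k + 2) =
      Real.cos s ^ k * (t - Real.cos s) ^ 2 := by ring
  rw [h2]
  positivity

private theorem Jc_cs (k : ℕ) (hk : 0 < Jc k) : Jc (k + 1) ^ 2 ≤ Jc k * Jc (k + 2) := by
  have h := Jc_quad k (Jc (k + 1) / Jc k)
  have h1 : (Jc (k + 1) / Jc k) ^ 2 * Jc k - 2 * (Jc (k + 1) / Jc k) * Jc (k + 1) + Jc (k + 2) =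
      (Jc k * Jc (k + 2) - Jc (k + 1) ^ 2) / Jc k := by
    field_simp
    ring
  rw [h1] at h
  have h2 := (div_nonneg_iff.1 h)
  rcases h2 with h2 | h2
  · linarith [h2.1]
  · linarith [h2.2]

private theorem bt_eq (k : ℕ) : bt k = ENNReal.ofReal (1 / Real.pi * Jc k) := by
  have hpi := Real.pi_pos
  unfold bt mu
  rw [lintegral_smul_measure, smul_eq_mul, ENNReal.ofReal_mul (by positivity)]
  congr 1
  have h1 : ∀ s ∈ Set.Icc (-(Real.pi / 2)) (Real.pi / 2),
      ENNReal.ofReal |Real.cos s| ^ k = ENNReal.ofReal (Real.cos s ^ k) := by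
    intro s hs
    have h0 : 0 ≤ Real.cos s := Real.cos_nonneg_of_mem_Icc hs
    rw [abs_of_nonneg h0, ENNReal.ofReal_pow h0]
  rw [setLIntegral_congr_fun measurableSet_Icc h1]
  unfold Jc
  rw [intervalIntegral.integral_of_le (by linarith), ← integral_Icc_eq_integral_Ioc]
  rw [← ofReal_integral_eq_lintegral_ofReal]
  · exact (Continuous.integrableOn_Icc (by fun_prop))
  · refine (ae_restrict_iff' measurableSet_Icc).2 (Filter.Eventually.of_forall fun s hs => ?_)
    exact pow_nonneg (Real.cos_nonneg_of_mem_Icc hs) _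

theorem bt_anti {k l : ℕ} (h : k ≤ l) : bt l ≤ bt k := by
  unfold bt
  refine lintegral_mono fun s => ?_
  have h1 : ENNReal.ofReal |Real.cos s| ≤ 1 := by
    rw [← ENNReal.ofReal_one]
    exact ENNReal.ofReal_le_ofReal (Real.abs_cos_le_one _)
  exact pow_le_pow_right_of_le_one' h1 h

private theorem c_even (m : ℕ) : 1 / Real.pi * Jc (2 * m) = NCS.cb m := by
  have hpi := Real.pi_pos
  rw [Jc_even]
  field_simp

private theorem c_sq_le {k : ℕ} (hk : 1 ≤ k) :
    (1 / Real.pi * Jc k) ^ 2 ≤ 2 / (Real.pi * ((k : ℝ) + 2 / 5)) := by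
  have hpi := Real.pi_pos
  rcases Nat.even_or_odd' k with ⟨m, rfl | rfl⟩
  · rw [c_even]
    refine (NCS.cb_sq_le m).trans ?_
    have h1 : (1 : ℝ) / (Real.pi * ((m : ℝ) + 1 / 4)) = 2 / (Real.pi * (2 * (m : ℝ) + 1 / 2)) := by
      field_simp
      ring
    rw [h1]
    push_cast
    refine div_le_div_of_nonneg_left (by norm_num) (by positivity) ?_
    exact mul_le_mul_of_nonneg_left (by linarith) hpi.le
  · rcases Nat.lt_or_ge m 2 with hm | hm
    · interval_cases m
      · have h1 : Jc (2 * 0 + 1) = 2 := Jc_one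
        rw [h1, le_div_iff₀ (by positivity)]
        have h2 : (1 / Real.pi * 2) ^ 2 * (Real.pi * (((2 * 0 + 1 : ℕ) : ℝ) + 2 / 5)) =
            28 / 5 / Real.pi := by
          push_cast
          field_simp
          ring
        rw [h2, div_le_iff₀ hpi]
        linarith [Real.pi_gt_three]
      · have h1 : Jc (2 * 1 + 1) = 4 / 3 := by
          have h := Jc_succ 1
          rw [Jc_one] at h
          norm_num at h
          exact h
        rw [h1, le_div_iff₀ (by positivity)]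
        have h2 : (1 / Real.pi * (4 / 3)) ^ 2 * (Real.pi * (((2 * 1 + 1 : ℕ) : ℝ) + 2 / 5)) =
            272 / 45 / Real.pi := by
          push_cast
          field_simp
          ring
        rw [h2, div_le_iff₀ hpi]
        linarith [Real.pi_gt_d2]
    · have hJ : 0 < Jc (2 * m) := by
        rw [Jc_even]
        exact mul_pos hpi (NCS.cb_pos m)
      have hcs := Jc_cs (2 * m) hJ
      have h0 := Jc_nonneg (2 * m + 1)
      have e0 := c_even m
      have e1 := c_even (m + 1)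
      have b0 := NCS.cb_sq_le m
      have b1 := NCS.cb_sq_le (m + 1)
      rw [← e0] at b0
      rw [← e1, show 2 * (m + 1) = 2 * m + 2 by ring] at b1
      have hm2 : (2 : ℝ) ≤ (m : ℝ) := by exact_mod_cast hm
      push_cast at b1
      -- fourth powers
      have h4 : ((1 / Real.pi * Jc (2 * m + 1)) ^ 2) ^ 2 ≤
          (2 / (Real.pi * (((2 * m + 1 : ℕ) : ℝ) + 2 / 5))) ^ 2 := by
        have s1 : ((1 / Real.pi * Jc (2 * m + 1)) ^ 2) ^ 2 ≤
            (1 / Real.pi * Jc (2 * m)) ^ 2 * (1 / Real.pi * Jc (2 * m + 2)) ^ 2 := by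
          have s0 : (Jc (2 * m + 1) ^ 2) ^ 2 ≤ (Jc (2 * m) * Jc (2 * m + 2)) ^ 2 :=
            pow_le_pow_left₀ (by positivity) hcs 2
          have s2 : ((1 / Real.pi * Jc (2 * m + 1)) ^ 2) ^ 2 =
              (1 / Real.pi) ^ 4 * (Jc (2 * m + 1) ^ 2) ^ 2 := by ring
          have s3 : (1 / Real.pi * Jc (2 * m)) ^ 2 * (1 / Real.pi * Jc (2 * m + 2)) ^ 2 =
              (1 / Real.pi) ^ 4 * (Jc (2 * m) * Jc (2 * m + 2)) ^ 2 := by ring
          rw [s2, s3]
          exact mul_le_mul_of_nonneg_left s0 (by positivity)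
        have s4 : (1 / Real.pi * Jc (2 * m)) ^ 2 * (1 / Real.pi * Jc (2 * m + 2)) ^ 2 ≤
            (1 / (Real.pi * ((m : ℝ) + 1 / 4))) * (1 / (Real.pi * ((m : ℝ) + 1 + 1 / 4))) :=
          mul_le_mul b0 b1 (by positivity) (by positivity)
        refine (s1.trans s4).trans ?_
        have s5 : (1 / (Real.pi * ((m : ℝ) + 1 / 4))) * (1 / (Real.pi * ((m : ℝ) + 1 + 1 / 4))) =
            1 / (Real.pi ^ 2 * (((m : ℝ) + 1 / 4) * ((m : ℝ) + 1 + 1 / 4))) := by
          field_simp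
        have s6 : (2 / (Real.pi * (((2 * m + 1 : ℕ) : ℝ) + 2 / 5))) ^ 2 =
            1 / (Real.pi ^ 2 * (((m : ℝ) + 7 / 10) ^ 2)) := by
          push_cast
          field_simp
          ring
        rw [s5, s6]
        refine div_le_div_of_nonneg_left (by norm_num) (by positivity) ?_
        refine mul_le_mul_of_nonneg_left ?_ (by positivity)
        nlinarith
      exact (pow_le_pow_iff_left₀ (by positivity) (by positivity) (by norm_num)).1 h4

theorem bt_le {k : ℕ} (hk : 1 ≤ k) :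
    bt k ≤ ENNReal.ofReal (√(2 / (Real.pi * ((k : ℝ) + 2 / 5)))) := by
  rw [bt_eq]
  exact ENNReal.ofReal_le_ofReal (Real.le_sqrt_of_sq_le (c_sq_le hk))

end MP_a3e05c_co.OUT
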