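import Pool.Agent.Lib.MP_a3e05c_co.NC.ArcE
import Pool.Agent.Lib.MP_a3e05c_co.NCS.Chain

/-!
# EULER, block OUT: the part of the torus off the arc.  Definitions

`V` is a finite set of vertices, `F` the set of the missing edges (`F ⊆ NC.KE V`).  All angles have
the uniform law `mu` on `[-π/2, π/2]`; `|cos|` has period `π`.
-/

set_option linter.unusedSectionVars false

open MeasureTheory Finset
open scoped ENNReal

namespace MP_a3e05c_co.OUT

/-- the uniform law on `[-π/2, π/2]` -/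
noncomputable def mu : Measure ℝ :=
  ENNReal.ofReal (1 / Real.pi) • volume.restrict (Set.Icc (-(Real.pi / 2)) (Real.pi / 2))

instance mu_prob : IsProbabilityMeasure mu := by
  constructor
  unfold mu
  rw [Measure.smul_apply, Measure.restrict_apply MeasurableSet.univ, Set.univ_inter,
    Real.volume_Icc, smul_eq_mul, ← ENNReal.ofReal_mul (by positivity)]
  have : 1 / Real.pi * (Real.pi / 2 - -(Real.pi / 2)) = 1 := by
    field_simp
    ring
  rw [this, ENNReal.ofReal_one]

theorem mu_ae : ∀ᵐ s ∂mu, |s| ≤ Real.pi / 2 := by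
  unfold mu
  refine Measure.ae_smul_measure ?_ _
  rw [ae_restrict_iff' measurableSet_Icc]
  exact Filter.Eventually.of_forall fun s hs => abs_le.2 hs

section
variable {V : Type}

/-- `|cos (θ u - θ v)|` -/
noncomputable def ac (θ : V → ℝ) (e : Sym2 V) : ℝ≥0∞ := ENNReal.ofReal |NC.cd θ e|

theorem ac_mk (θ : V → ℝ) (u v : V) : ac θ s(u, v) = ENNReal.ofReal |Real.cos (θ u - θ v)| := rfl

theorem abs_cd_le_one (θ : V → ℝ) (e : Sym2 V) : |NC.cd θ e| ≤ 1 := by
  induction e with
  | h u v => exact Real.abs_cos_le_one _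

theorem ac_le_one (θ : V → ℝ) (e : Sym2 V) : ac θ e ≤ 1 := by
  rw [← ENNReal.ofReal_one]
  exact ENNReal.ofReal_le_ofReal (abs_cd_le_one θ e)

theorem measurable_cd (e : Sym2 V) : Measurable fun θ : V → ℝ => NC.cd θ e := by
  induction e with
  | h u v =>
    show Measurable fun θ : V → ℝ => Real.cos (θ u - θ v)
    exact Real.measurable_cos.comp ((measurable_pi_apply u).sub (measurable_pi_apply v))

theorem measurable_ac (e : Sym2 V) : Measurable fun θ : V → ℝ => ac θ e :=
  ENNReal.measurable_ofReal.comp (measurable_cd e).abs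

/-- product of the `|cos|` over the edges of `E` -/
noncomputable def PE (E : Finset (Sym2 V)) (θ : V → ℝ) : ℝ≥0∞ := ∏ e ∈ E, ac θ e

theorem measurable_PE (E : Finset (Sym2 V)) : Measurable (PE E) :=
  Finset.measurable_prod _ fun e _ => measurable_ac e

theorem PE_le_one (E : Finset (Sym2 V)) (θ : V → ℝ) : PE E θ ≤ 1 :=
  prod_le_one' fun e _ => ac_le_one θ e

variable [DecidableEq V]

/-- the edges inside `S` -/
def KS (S : Finset V) : Finset (Sym2 V) := S.sym2.filter fun e => ¬ e.IsDiag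

theorem mem_KS {S : Finset V} {u v : V} : s(u, v) ∈ KS S ↔ u ∈ S ∧ v ∈ S ∧ u ≠ v := by
  simp only [KS, mem_filter, mk_mem_sym2_iff, Sym2.isDiag_iff_proj_eq, and_assoc]

/-- mean value of `∏ |cos|` over the edges inside `S` which are not in `F` -/
noncomputable def Mn (F : Finset (Sym2 V)) (S : Finset V) : ℝ≥0∞ :=
  (∫⋯∫⁻_S, PE (KS S \ F) ∂fun _ : V => mu) fun _ => 0

/-- sum of the `F`-degrees of the two ends -/
def fs (F : Finset (Sym2 V)) : Sym2 V → ℕ :=
  Sym2.lift ⟨fun u v => NC.fd F u + NC.fd F v, fun _ _ => add_comm _ _⟩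

@[simp] theorem fs_mk (F : Finset (Sym2 V)) (u v : V) : fs F s(u, v) = NC.fd F u + NC.fd F v := rfl

end

/-- mean value of `∏ |cos|` over the edges of the complete graph on `V` minus `F` -/
noncomputable def MF (V : Type) [Fintype V] [DecidableEq V] (F : Finset (Sym2 V)) : ℝ≥0∞ :=
  ∫⁻ θ, PE (NC.KE V \ F) θ ∂(Measure.pi fun _ : V => mu)

/-- the same for the complete graph on `m` vertices -/
noncomputable def MM (m : ℕ) : ℝ≥0∞ := MF (Fin m) ∅

/-- mean value of `|cos|^k` -/
noncomputable def bt (k : ℕ) : ℝ≥0∞ := ∫⁻ s, ENNReal.ofReal |Real.cos s| ^ k ∂mu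

/-- the maximum of `t (1/2 - t)^K` -/
noncomputable def kq (K : ℕ) : ℝ := (1 / 2) ^ (K + 1) * ((K : ℝ) ^ K / ((K : ℝ) + 1) ^ (K + 1))

/-- the Gaussian bound for the complete graph on `m` vertices -/
noncomputable def Gm (m : ℕ) : ℝ := Real.exp (NCS.mainR m + 1 / 2)

/-- bound for the exponent `XF` on `m` vertices: at most `q` missing edges, degrees at most `d` -/
noncomputable def XX (m q d : ℕ) : ℝ :=
  (q : ℝ) / ((m : ℝ) - 1 - d) +
    (q : ℝ) * ((d : ℝ) - 1) / (2 * ((m : ℝ) - 2 - 2 * d) * ((m : ℝ) - 1 - d) ^ 2)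

/-- bound for `∑ 2 ^ (f_i + f_j)` over the present pairs, `d ≥ e ≥ g` the top three degrees -/
noncomputable def Phi (n q d e g : ℕ) : ℝ :=
  ((2 : ℝ) ^ d + 2 ^ e) * ((n : ℝ) - 3 + (2 ^ g - 1) * (2 * q - d - e) / g) +
    ((n : ℝ) - 3 + (2 ^ g - 1) * (2 * q - d - e) / g) ^ 2 / 2 +
    if d + e ≤ q then (2 : ℝ) ^ (d + e) else 0

/-- bound for the number of vertices met by `F` -/
def vv (q d e : ℕ) : ℕ := min q ((2 * q - d - e) / 2 + 2)

/-- conditions on the degree pattern of a nonempty even graph with `q` edges -/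
structure Pat (q d e g : ℕ) : Prop where
  ed : Even d
  ee : Even e
  eg : Even g
  g2 : 2 ≤ g
  ge : g ≤ e
  ed' : e ≤ d
  d3 : 3 * d ≤ 2 * q
  de : d + e ≤ q + 1
  deg : d + e + g ≤ q + 3

end MP_a3e05c_co.OUT
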