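import Pool.Agent.Lib.MP_a3e05c_co.OUT.Defs
import Pool.Agent.Lib.MP_a3e05c_co.RT.Gauss

/-!
# EULER, block OUT: Gaussian bound for the arc integral of the complete graph

Paper proof.  On the arc `cos x ≤ exp (-x²/2)` (`RT.cos_le_exp`), so
`Z b (KE V) ≤ ∫ exp (-(1/2) ∑_{e ∈ KE V} sd (ext b t) e) dt` over all `t : {v // v ≠ b} → ℝ`.
Relabel `{v // v ≠ b} ≃ Fin N`, `N = card V - 1` (`volume_measurePreserving_piCongrLeft`):
`∑_{e ∈ KE V} sd (ext b t) e = ∑_i θ_i² + ∑_{p ∈ prs N} (θ_p1 - θ_p2)²` (the edges at `b` and the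
others; `sum` over `Sym2` of `Fin N` non diagonal = sum over `i < j`), then `RT.gauss_total`, and
`RT.main (N+1) + 1/2 = NCS.mainR (N+1) + 1/2` (`log (2/(π n)) = - log (π n/2)`).
-/

set_option linter.unusedSectionVars false

open MeasureTheory Finset
open scoped ENNReal

namespace MP_a3e05c_co.OUT

variable {V : Type} [Fintype V] [DecidableEq V]

private theorem GaussZ_prs {n : ℕ} (η : Fin n → ℝ) :
    ∑ p ∈ RT.prs n, (η p.1 - η p.2) ^ 2 = (1 / 2) * ∑ i, ∑ j, (η i - η j) ^ 2 := by
  have h0 : ∑ p ∈ RT.prs n, (η p.1 - η p.2) ^ 2 =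
      ∑ i, ∑ j, if i < j then (η i - η j) ^ 2 else 0 := by
    unfold RT.prs
    rw [Finset.sum_filter, Fintype.sum_prod_type]
  have h1 : ∑ i, ∑ j, (if j < i then (η i - η j) ^ 2 else 0) =
      ∑ i, ∑ j, (if i < j then (η i - η j) ^ 2 else 0) := by
    rw [Finset.sum_comm]
    refine Finset.sum_congr rfl fun i _ => Finset.sum_congr rfl fun j _ => ?_
    split_ifs
    · ring
    · rfl
  have h2 : ∑ i, ∑ j, (η i - η j) ^ 2 =
      ∑ i, ∑ j, (if i < j then (η i - η j) ^ 2 else 0) +
        ∑ i, ∑ j, (if j < i then (η i - η j) ^ 2 else 0) := by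
    rw [← Finset.sum_add_distrib]
    refine Finset.sum_congr rfl fun i _ => ?_
    rw [← Finset.sum_add_distrib]
    refine Finset.sum_congr rfl fun j _ => ?_
    rcases lt_trichotomy i j with h | h | h
    · simp [h, h.not_gt]
    · simp [h]
    · simp [h, h.not_gt]
  rw [h0, h2, h1]
  ring

private theorem GaussZ_fin {n : ℕ} (η : Fin n → ℝ) :
    ∑ e ∈ NC.KE (Fin n), NC.sd η e = ∑ p ∈ RT.prs n, (η p.1 - η p.2) ^ 2 := by
  have h := Finset.sum_sym2_filter_not_isDiag (univ : Finset (Fin n)) (NC.sd η)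
  rw [Finset.sym2_univ] at h
  have h1 : NC.KE (Fin n) = univ.filter fun e : Sym2 (Fin n) => ¬ e.IsDiag := rfl
  rw [h1, h]
  refine Finset.sum_congr ?_ fun p _ => rfl
  ext p
  simp only [RT.prs, mem_filter, mem_offDiag, mem_univ, true_and]
  exact ⟨fun h => h.2, fun h => ⟨ne_of_lt h, h⟩⟩

private theorem GaussZ_dbl (θ : V → ℝ) :
    ∑ e ∈ NC.KE V, NC.sd θ e = (1 / 2) * ∑ u, ∑ v, (θ u - θ v) ^ 2 := by
  set ε := Fintype.equivFin V with hε
  have h1 : ∑ e ∈ NC.KE V, NC.sd θ e =
      ∑ e ∈ NC.KE (Fin (Fintype.card V)), NC.sd (fun i => θ (ε.symm i)) e := by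
    refine Finset.sum_nbij' (Sym2.map ε) (Sym2.map ε.symm) (fun e he => ?_) (fun e he => ?_)
      (fun e _ => ?_) (fun e _ => ?_) (fun e _ => ?_)
    · rw [NC.mem_KE] at he ⊢
      induction e with
      | h u v => simpa using he
    · rw [NC.mem_KE] at he ⊢
      induction e with
      | h u v => simpa using he
    · induction e with
      | h u v => simp
    · induction e with
      | h u v => simp
    · induction e with
      | h u v => simp
  rw [h1, GaussZ_fin, GaussZ_prs (fun i => θ (ε.symm i))]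
  congr 1
  rw [← Equiv.sum_comp ε]
  refine Finset.sum_congr rfl fun u _ => ?_
  rw [← Equiv.sum_comp ε]
  simp

private theorem GaussZ_ext (b : V) (t : {v // v ≠ b} → ℝ) :
    ∑ e ∈ NC.KE V, NC.sd (NC.ext b t) e = ∑ v, t v ^ 2 + (1 / 2) * ∑ u, ∑ v, (t u - t v) ^ 2 := by
  have hb : NC.ext b t b = 0 := dif_pos rfl
  have hv : ∀ v : {v // v ≠ b}, NC.ext b t v = t v := fun v => dif_neg v.2
  rw [GaussZ_dbl, Fintype.sum_eq_add_sum_subtype_ne _ b]
  have h1 : ∑ v, (NC.ext b t b - NC.ext b t v) ^ 2 = ∑ v, t v ^ 2 := by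
    rw [Fintype.sum_eq_add_sum_subtype_ne _ b, hb]
    simp [hv]
  have h2 : ∀ u : {v // v ≠ b}, ∑ v, (NC.ext b t u - NC.ext b t v) ^ 2 =
      t u ^ 2 + ∑ v, (t u - t v) ^ 2 := by
    intro u
    rw [Fintype.sum_eq_add_sum_subtype_ne _ b, hb, hv]
    simp [hv]
  rw [h1]
  simp_rw [h2]
  rw [Finset.sum_add_distrib]
  ring

theorem Z_le (b : V) :
    NC.Z b (NC.KE V) ≤ Real.pi ^ (Fintype.card V - 1) * Gm (Fintype.card V) := by
  classical
  set N := Fintype.card V - 1 with hN
  have hc : 0 < Fintype.card V := Fintype.card_pos_iff.mpr ⟨b⟩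
  have hcard : Fintype.card {v // v ≠ b} = N := by
    rw [Fintype.card_subtype_compl, Fintype.card_subtype_eq]
  let e : {v // v ≠ b} ≃ Fin N := Fintype.equivFinOfCardEq hcard
  have hp := volume_measurePreserving_piCongrLeft (fun _ : {v // v ≠ b} => ℝ) e.symm
  have hcoe : ∀ t : Fin N → ℝ,
      MeasurableEquiv.piCongrLeft (fun _ : {v // v ≠ b} => ℝ) e.symm t = fun i => t (e i) := by
    intro t
    funext i
    have h1 := MeasurableEquiv.piCongrLeft_apply_apply (β := fun _ : {v // v ≠ b} => ℝ) e.symm t (e i)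
    rw [Equiv.symm_apply_apply] at h1
    exact h1
  set g : ({v // v ≠ b} → ℝ) → ℝ := fun t =>
    Real.exp (-((∑ v, t v ^ 2 + (1 / 2) * ∑ u, ∑ v, (t u - t v) ^ 2) / 2)) with hg
  have hgm : Measurable g := by
    rw [hg]
    fun_prop
  have hg0 : ∀ t, 0 ≤ g t := fun t => (Real.exp_pos _).le
  have hgl : ∫⁻ t, ENNReal.ofReal (g t) =
      ENNReal.ofReal (Real.pi ^ N * Real.exp (RT.main (N + 1) + 1 / 2)) := by
    rw [← RT.gauss_total N, ← hp.lintegral_comp_emb (MeasurableEquiv.measurableEmbedding _)]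
    refine lintegral_congr fun t => ?_
    rw [hcoe]
    simp only [hg]
    congr 4
    rw [GaussZ_prs t]
    congr 1
    · exact Equiv.sum_comp e fun i => t i ^ 2
    · congr 1
      rw [← Equiv.sum_comp e]
      refine Finset.sum_congr rfl fun u _ => ?_
      exact Equiv.sum_comp e fun i => (t (e u) - t i) ^ 2
  have hgi : Integrable g := by
    refine ⟨hgm.aestronglyMeasurable, ?_⟩
    rw [hasFiniteIntegral_iff_ofReal (Filter.Eventually.of_forall hg0), hgl]
    exact ENNReal.ofReal_lt_top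
  have hgv : ∫ t, g t = Real.pi ^ N * Real.exp (RT.main (N + 1) + 1 / 2) := by
    rw [integral_eq_lintegral_of_nonneg_ae (Filter.Eventually.of_forall hg0)
      hgm.aestronglyMeasurable, hgl, ENNReal.toReal_ofReal (by positivity)]
  have hle : ∀ t ∈ NC.arc b, ∏ e ∈ NC.KE V, NC.cd (NC.ext b t) e ≤ g t := by
    intro t ht
    have h1 : ∏ e ∈ NC.KE V, NC.cd (NC.ext b t) e ≤
        ∏ e ∈ NC.KE V, Real.exp (-(NC.sd (NC.ext b t) e / 2)) := by
      refine Finset.prod_le_prod (fun e _ => ?_) (fun e _ => ?_)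
      · induction e with
        | h u v =>
          rw [NC.cd_mk]
          exact Real.cos_nonneg_of_mem_Icc (abs_le.1 (ht u v))
      · induction e with
        | h u v =>
          rw [NC.cd_mk, NC.sd_mk]
          exact RT.cos_le_exp (ht u v)
    refine h1.trans (le_of_eq ?_)
    rw [← Real.exp_sum, hg, Finset.sum_neg_distrib, ← Finset.sum_div, GaussZ_ext]
  have hmain : Real.pi ^ N * Real.exp (RT.main (N + 1) + 1 / 2) =
      Real.pi ^ N * Gm (Fintype.card V) := by
    unfold Gm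
    have h1 : N + 1 = Fintype.card V := by omega
    rw [h1]
    congr 3
    have h2 : (0 : ℝ) < (Fintype.card V : ℝ) := by exact_mod_cast hc
    unfold RT.main NCS.mainR
    have h3 : Real.log (2 / (Real.pi * (Fintype.card V : ℝ))) =
        -Real.log (Real.pi * (Fintype.card V : ℝ) / 2) := by
      rw [← Real.log_inv, inv_div]
    rw [h3]
    ring
  have hem : Measurable fun t : {v // v ≠ b} → ℝ => NC.ext b t := by
    refine measurable_pi_lambda _ fun v => ?_
    unfold NC.ext
    by_cases h : v = b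
    · simp only [h, dite_true]
      exact measurable_const
    · simp only [h, dite_false]
      exact measurable_pi_apply _
  have hni : IntegrableOn (fun t => ∏ e ∈ NC.KE V, NC.cd (NC.ext b t) e) (NC.arc b) := by
    refine Integrable.mono' hgi.integrableOn ?_ ?_
    · exact (Finset.measurable_prod _ fun e _ =>
        (measurable_cd e).comp hem).aestronglyMeasurable
    · rw [ae_restrict_iff' (NC.arc_measurableSet b)]
      refine Filter.Eventually.of_forall fun t ht => ?_
      rw [Real.norm_of_nonneg (Finset.prod_nonneg fun e _ => ?_)]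
      · exact hle t ht
      · induction e with
        | h u v =>
          rw [NC.cd_mk]
          exact Real.cos_nonneg_of_mem_Icc (abs_le.1 (ht u v))
  rw [← hmain, ← hgv]
  unfold NC.Z
  calc _ ≤ ∫ t in NC.arc b, g t :=
        setIntegral_mono_on hni hgi.integrableOn (NC.arc_measurableSet b) hle
    _ ≤ ∫ t, g t := setIntegral_le_integral hgi (Filter.Eventually.of_forall hg0)

/-- closed form of `Gm` -/
theorem Gm_eq {m : ℕ} (hm : 1 ≤ m) :
    Gm m = √m * √(2 / (Real.pi * m)) ^ (m - 1) := by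
  have hm0 : (0 : ℝ) < m := by exact_mod_cast hm
  have hpi := Real.pi_pos
  have e1 : √(m : ℝ) = Real.exp (Real.log m / 2) := by
    rw [Real.sqrt_eq_rpow, Real.rpow_def_of_pos hm0]
    congr 1
    ring
  have e2 : √(2 / (Real.pi * m)) = Real.exp (-Real.log (Real.pi * m / 2) / 2) := by
    rw [Real.sqrt_eq_rpow, Real.rpow_def_of_pos (by positivity)]
    have h3 : Real.log (2 / (Real.pi * m)) = -Real.log (Real.pi * m / 2) := by
      rw [← Real.log_inv, inv_div]
    rw [h3]
    congr 1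
    ring
  unfold Gm NCS.mainR
  rw [e1, e2, ← Real.exp_nat_mul, ← Real.exp_add]
  congr 1
  push_cast [Nat.cast_sub hm]
  ring

end MP_a3e05c_co.OUT
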