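import Pool.Agent.Lib.MP_a3e05c_co.OUT.Defs

/-!
# EULER, block OUT: splitting off the factors of three vertices

Paper proof.  (1) `star`: `KS (insert v S)` is the disjoint union of `KS S` and of the edges
`s(u, v)`, `u ∈ S`; remove the elements of `F`; `prod_image` for the injective map `u ↦ s(u, v)`.
(2) `split`: `KE V = KS univ`, `univ = insert w (insert i (insert j S))`, `S = univ \ {w, i, j}`,
three times `star` (first `j` over `S`, then `i` over `insert j S`, then `w`).  As `fd F w = 0` no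
edge at `w` is in `F`; the factors of `s(u, i)`, `s(u, j)` with `u` outside the filter are `≤ 1`
(use `prod_le_prod_of_subset_of_le_one'` / `mul_le_of_le_one_right'`).
(3) `card_split`: the complement of the filter in `univ \ {w,i,j}` is contained in the union of the
`F`-neighbours of `i` and of `j`, which have `fd F i`, `fd F j` elements.
-/

set_option linter.unusedSectionVars false

open MeasureTheory Finset
open scoped ENNReal

namespace MP_a3e05c_co.OUT

variable {V : Type} [DecidableEq V]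

theorem star (F : Finset (Sym2 V)) {S : Finset V} {v : V} (hv : v ∉ S) (θ : V → ℝ) :
    PE (KS (insert v S) \ F) θ =
      (∏ u ∈ S.filter (fun u => s(u, v) ∉ F), ac θ s(u, v)) * PE (KS S \ F) θ := by
  have hdec : KS (insert v S) \ F =
      (S.filter (fun u => s(u, v) ∉ F)).image (fun u => s(u, v)) ∪ (KS S \ F) := by
    ext e
    induction e with
    | h a b =>
      simp only [mem_sdiff, mem_KS, mem_union, mem_image, mem_filter, mem_insert]
      constructor
      · rintro ⟨⟨ha, hb, hab⟩, hF⟩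
        rcases ha with rfl | ha
        · rcases hb with rfl | hb
          · exact absurd rfl hab
          · exact Or.inl ⟨b, ⟨hb, by rwa [Sym2.eq_swap]⟩, Sym2.eq_swap⟩
        · rcases hb with rfl | hb
          · exact Or.inl ⟨a, ⟨ha, hF⟩, rfl⟩
          · exact Or.inr ⟨⟨ha, hb, hab⟩, hF⟩
      · rintro (⟨u, ⟨hu, huF⟩, he⟩ | ⟨⟨ha, hb, hab⟩, hF⟩)
        · have huv : u ≠ v := fun h => hv (h ▸ hu)
          rw [← he]
          rcases Sym2.eq_iff.1 he with ⟨rfl, rfl⟩ | ⟨rfl, rfl⟩
          · exact ⟨⟨Or.inr hu, Or.inl rfl, huv⟩, huF⟩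
          · exact ⟨⟨Or.inl rfl, Or.inr hu, huv.symm⟩, huF⟩
        · exact ⟨⟨Or.inr ha, Or.inr hb, hab⟩, hF⟩
  have hdisj : Disjoint ((S.filter (fun u => s(u, v) ∉ F)).image (fun u => s(u, v)))
      (KS S \ F) := by
    rw [Finset.disjoint_left]
    intro e he he'
    obtain ⟨u, _, rfl⟩ := mem_image.1 he
    exact hv (mem_KS.1 (mem_sdiff.1 he').1).2.1
  unfold PE
  rw [hdec, prod_union hdisj, prod_image]
  intro a _ b _ hab
  exact Sym2.congr_left.1 hab

variable [Fintype V]

theorem KS_univ : KS (univ : Finset V) = NC.KE V := by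
  ext e
  rw [NC.mem_KE, KS, mem_filter, sym2_univ]
  exact ⟨fun h => h.2, fun h => ⟨mem_univ _, h⟩⟩

/-- the vertices joined to `i` and to `j` -/
def cm (F : Finset (Sym2 V)) (w i j : V) : Finset V :=
  (univ \ {w, i, j}).filter fun u => s(u, i) ∉ F ∧ s(u, j) ∉ F

theorem split {F : Finset (Sym2 V)} {w i j : V} (hwi : w ≠ i) (hwj : w ≠ j) (hij : i ≠ j)
    (hw : NC.fd F w = 0) (hF : s(i, j) ∉ F) (θ : V → ℝ) :
    PE (NC.KE V \ F) θ ≤ (ac θ s(w, i) * ac θ s(w, j) * ac θ s(i, j)) *
      (∏ u ∈ cm F w i j, (ac θ s(u, w) * ac θ s(u, i) * ac θ s(u, j))) *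
      PE (KS (univ \ {w, i, j}) \ F) θ := by
  have hcm : cm F w i j = (univ \ {w, i, j} : Finset V).filter
      fun u => s(u, i) ∉ F ∧ s(u, j) ∉ F := rfl
  generalize hS : (univ \ {w, i, j} : Finset V) = S at hcm ⊢
  have hmem : ∀ u : V, u ∈ S ↔ u ≠ w ∧ u ≠ i ∧ u ≠ j := by
    intro u
    rw [← hS]
    simp only [mem_sdiff, mem_univ, true_and, mem_insert, mem_singleton, not_or, ne_eq]
  have hjS : j ∉ S := fun h => ((hmem j).1 h).2.2 rfl
  have hiS : i ∉ S := fun h => ((hmem i).1 h).2.1 rfl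
  have hwS : w ∉ S := fun h => ((hmem w).1 h).1 rfl
  have hijS : i ∉ insert j S := by
    rw [mem_insert, not_or]
    exact ⟨hij, hiS⟩
  have hwijS : w ∉ insert i (insert j S) := by
    rw [mem_insert, mem_insert, not_or, not_or]
    exact ⟨hwi, hwj, hwS⟩
  have huniv : (univ : Finset V) = insert w (insert i (insert j S)) := by
    ext u
    simp only [mem_univ, mem_insert, hmem, true_iff]
    tauto
  have hwF : ∀ u : V, s(u, w) ∉ F := by
    intro u hu
    have h1 : s(u, w) ∈ F.filter fun e => w ∈ e := mem_filter.2 ⟨hu, Sym2.mem_mk_right u w⟩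
    have h2 : 0 < NC.fd F w := card_pos.2 ⟨_, h1⟩
    omega
  have hfw : (insert i (insert j S)).filter (fun u => s(u, w) ∉ F) = insert i (insert j S) :=
    filter_true_of_mem fun u _ => hwF u
  have hfi : (insert j S).filter (fun u => s(u, i) ∉ F) =
      insert j (S.filter fun u => s(u, i) ∉ F) := by
    rw [filter_insert, if_pos (by rwa [Sym2.eq_swap])]
  have hj' : j ∉ S.filter fun u => s(u, i) ∉ F := fun h => hjS (mem_filter.1 h).1
  rw [← KS_univ, huniv, star F hwijS, star F hijS, star F hjS, hfw, hfi, prod_insert hj',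
    prod_insert hijS, prod_insert hjS]
  have hsub1 : cm F w i j ⊆ S := by
    rw [hcm]
    exact filter_subset _ _
  have hsub2 : cm F w i j ⊆ S.filter fun u => s(u, i) ∉ F := by
    rw [hcm]
    intro u hu
    exact mem_filter.2 ⟨(mem_filter.1 hu).1, (mem_filter.1 hu).2.1⟩
  have hsub3 : cm F w i j ⊆ S.filter fun u => s(u, j) ∉ F := by
    rw [hcm]
    intro u hu
    exact mem_filter.2 ⟨(mem_filter.1 hu).1, (mem_filter.1 hu).2.2⟩
  have b1 : ∏ u ∈ S, ac θ s(u, w) ≤ ∏ u ∈ cm F w i j, ac θ s(u, w) :=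
    prod_le_prod_of_subset_of_le_one' hsub1 fun u _ _ => ac_le_one θ _
  have b2 : ∏ u ∈ S.filter (fun u => s(u, i) ∉ F), ac θ s(u, i) ≤
      ∏ u ∈ cm F w i j, ac θ s(u, i) :=
    prod_le_prod_of_subset_of_le_one' hsub2 fun u _ _ => ac_le_one θ _
  have b3 : ∏ u ∈ S.filter (fun u => s(u, j) ∉ F), ac θ s(u, j) ≤
      ∏ u ∈ cm F w i j, ac θ s(u, j) :=
    prod_le_prod_of_subset_of_le_one' hsub3 fun u _ _ => ac_le_one θ _
  have e1 : ac θ s(w, i) = ac θ s(i, w) := by rw [Sym2.eq_swap]
  have e2 : ac θ s(w, j) = ac θ s(j, w) := by rw [Sym2.eq_swap]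
  have e3 : ac θ s(i, j) = ac θ s(j, i) := by rw [Sym2.eq_swap]
  rw [prod_mul_distrib, prod_mul_distrib, e1, e2, e3]
  calc ac θ s(i, w) * (ac θ s(j, w) * ∏ u ∈ S, ac θ s(u, w)) *
        (ac θ s(j, i) * (∏ u ∈ S.filter (fun u => s(u, i) ∉ F), ac θ s(u, i)) *
          ((∏ u ∈ S.filter (fun u => s(u, j) ∉ F), ac θ s(u, j)) * PE (KS S \ F) θ))
      ≤ ac θ s(i, w) * (ac θ s(j, w) * ∏ u ∈ cm F w i j, ac θ s(u, w)) *
        (ac θ s(j, i) * (∏ u ∈ cm F w i j, ac θ s(u, i)) *
          ((∏ u ∈ cm F w i j, ac θ s(u, j)) * PE (KS S \ F) θ)) := by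
        gcongr
    _ = _ := by ring

theorem card_split {F : Finset (Sym2 V)} {w i j : V} (hwi : w ≠ i) (hwj : w ≠ j) (hij : i ≠ j) :
    Fintype.card V ≤ (cm F w i j).card + 3 + (NC.fd F i + NC.fd F j) := by
  have key : ∀ a : V, ((univ : Finset V).filter fun u => s(u, a) ∈ F).card ≤ NC.fd F a := by
    intro a
    unfold NC.fd
    refine card_le_card_of_injOn (fun u => s(u, a)) ?_ ?_
    · intro u hu
      exact mem_filter.2 ⟨(mem_filter.1 hu).2, Sym2.mem_mk_right u a⟩
    · intro u _ u' _ h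
      exact Sym2.congr_left.1 h
  have hsub : (univ : Finset V) ⊆ (cm F w i j ∪ {w, i, j}) ∪
      (((univ : Finset V).filter fun u => s(u, i) ∈ F) ∪
        ((univ : Finset V).filter fun u => s(u, j) ∈ F)) := by
    intro u _
    by_cases h3 : u ∈ ({w, i, j} : Finset V)
    · exact mem_union_left _ (mem_union_right _ h3)
    by_cases hi : s(u, i) ∈ F
    · exact mem_union_right _ (mem_union_left _ (mem_filter.2 ⟨mem_univ _, hi⟩))
    by_cases hj : s(u, j) ∈ F
    · exact mem_union_right _ (mem_union_right _ (mem_filter.2 ⟨mem_univ _, hj⟩))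
    · exact mem_union_left _ (mem_union_left _
        (mem_filter.2 ⟨mem_sdiff.2 ⟨mem_univ _, h3⟩, hi, hj⟩))
  calc Fintype.card V = (univ : Finset V).card := rfl
    _ ≤ ((cm F w i j ∪ {w, i, j}) ∪
      (((univ : Finset V).filter fun u => s(u, i) ∈ F) ∪
        ((univ : Finset V).filter fun u => s(u, j) ∈ F))).card := card_le_card hsub
    _ ≤ (cm F w i j ∪ {w, i, j}).card +
      (((univ : Finset V).filter fun u => s(u, i) ∈ F) ∪
        ((univ : Finset V).filter fun u => s(u, j) ∈ F)).card := card_union_le _ _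
    _ ≤ ((cm F w i j).card + ({w, i, j} : Finset V).card) +
      (((univ : Finset V).filter fun u => s(u, i) ∈ F).card +
        ((univ : Finset V).filter fun u => s(u, j) ∈ F).card) :=
        Nat.add_le_add (card_union_le _ _) (card_union_le _ _)
    _ ≤ (cm F w i j).card + 3 + (NC.fd F i + NC.fd F j) := by
        have h3 : ({w, i, j} : Finset V).card ≤ 3 := card_le_three
        have := key i
        have := key j
        omega

end MP_a3e05c_co.OUT
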