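import Pool.Agent.Lib.MP_a3e05c_co.OUT.Shift
import Pool.Agent.Lib.MP_a3e05c_co.OUT.Star

/-!
# EULER, block OUT: Hoelder's inequality for one vertex, the crude bound

Paper proof.  (1) `hold1`: generalised Hoelder (`ENNReal.lintegral_prod_norm_pow_le` with exponents
`1 / |C|`, or weighted AM-GM `∏ a_r ≤ (1/k) ∑ a_r ^ k`) and `lint_shift`: the mean of
`|cos (s - x_r)| ^ k` is `bt k`.  (`C = ∅`: both sides are `1`.)
(2) `crude`: induction on `U` in the form: for every `S` disjoint from `U` with `fd F v = 0` for all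
`v ∈ S`, `|S| = k`: `(∫⋯∫⁻_(U ∪ S), PE (KS (U ∪ S) \ F)) x ≤ bt k ^ |U| * Mn ∅ S`.
For `U = insert u U'`: by `star` (with `v = u`) the integrand is at most
`(∏_{r ∈ S} ac s(r, u)) * PE (KS (U' ∪ S) \ F)` (no edge between `S` and `u` is in `F`, drop the
other factors `≤ 1`); integrate first over the coordinate `u` (`lmarginal_insert'`): the second factor
does not depend on it, the first one gives `≤ bt k` by `hold1`.
For `U = ∅`: `KS S \ F = KS S` because no edge of `F` meets `S`.
(3) `MM_succ` is the case `F = ∅`, `|U| = 1`, with `Mn ∅ S = MM |S|` (`Rel.lean`), so it is stated in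
`Rel.lean`'s form: here only the version with `Mn`.
-/

set_option linter.unusedSectionVars false

open MeasureTheory Finset
open scoped ENNReal

namespace MP_a3e05c_co.OUT

variable {V : Type} [DecidableEq V]

private theorem hold_shift (a : ℝ) (k : ℕ) :
    ∫⁻ s, ENNReal.ofReal |Real.cos (s - a)| ^ k ∂mu = bt k := by
  have h := lint_shift (g := fun s => ENNReal.ofReal |Real.cos s| ^ k)
    ((ENNReal.measurable_ofReal.comp Real.measurable_cos.abs).pow_const k)
    (fun s => by simp only [Real.cos_add_pi, abs_neg]) (-a)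
  unfold bt
  rw [← h]
  simp only [sub_eq_add_neg]

theorem hold1 (C : Finset V) (x : V → ℝ) :
    ∫⁻ s, ∏ r ∈ C, ENNReal.ofReal |Real.cos (s - x r)| ∂mu ≤ bt C.card := by
  rcases C.eq_empty_or_nonempty with rfl | hC
  · simp [bt]
  have hk : C.card ≠ 0 := (card_pos.2 hC).ne'
  have hk' : (C.card : ℝ) ≠ 0 := Nat.cast_ne_zero.2 hk
  have hmeas : ∀ r ∈ C, AEMeasurable (fun s => ENNReal.ofReal |Real.cos (s - x r)| ^ C.card) mu := by
    intro r _
    exact ((ENNReal.measurable_ofReal.comp
      (Real.measurable_cos.comp (measurable_id.sub_const _)).abs).pow_const _).aemeasurable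
  have hp : ∑ _i ∈ C, (C.card : ℝ)⁻¹ = 1 := by
    rw [sum_const, nsmul_eq_mul, mul_inv_cancel₀ hk']
  have h := ENNReal.lintegral_prod_norm_pow_le (μ := mu) C hmeas hp
    (fun _ _ => inv_nonneg.2 (Nat.cast_nonneg _))
  simp only [ENNReal.pow_rpow_inv_natCast hk, hold_shift, prod_const] at h
  rwa [ENNReal.rpow_inv_natCast_pow hk] at h

private theorem fd_zero_notMem {F : Finset (Sym2 V)} {v : V} (h : NC.fd F v = 0) {e : Sym2 V}
    (he : e ∈ F) : v ∉ e := by
  intro hv
  have h1 : e ∈ F.filter fun e => v ∈ e := mem_filter.2 ⟨he, hv⟩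
  have h2 : 0 < NC.fd F v := card_pos.2 ⟨_, h1⟩
  omega

private theorem PE_update (F : Finset (Sym2 V)) {T : Finset V} {u : V} (hu : u ∉ T) (x : V → ℝ)
    (s : ℝ) : PE (KS T \ F) (Function.update x u s) = PE (KS T \ F) x := by
  unfold PE
  refine prod_congr rfl fun e he => ?_
  induction e with
  | h a b =>
    have h := mem_KS.1 (mem_sdiff.1 he).1
    have ha : a ≠ u := fun h' => hu (h' ▸ h.1)
    have hb : b ≠ u := fun h' => hu (h' ▸ h.2.1)
    rw [ac_mk, ac_mk, Function.update_of_ne ha, Function.update_of_ne hb]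

private theorem hold_step (F : Finset (Sym2 V)) {S T : Finset V} {u : V} (hST : S ⊆ T)
    (hu : u ∉ T) (hS : ∀ v ∈ S, NC.fd F v = 0) :
    Mn F (insert u T) ≤ bt S.card * Mn F T := by
  have hpt : ∀ x : V → ℝ, ∫⁻ s, PE (KS (insert u T) \ F) (Function.update x u s) ∂mu ≤
      bt S.card * PE (KS T \ F) x := by
    intro x
    calc ∫⁻ s, PE (KS (insert u T) \ F) (Function.update x u s) ∂mu
        ≤ ∫⁻ s, (∏ r ∈ S, ENNReal.ofReal |Real.cos (s - x r)|) * PE (KS T \ F) x ∂mu := by
          refine lintegral_mono fun s => ?_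
          rw [star F hu, PE_update F hu]
          refine mul_le_mul' ?_ le_rfl
          have hsub : S ⊆ T.filter fun r => s(r, u) ∉ F := fun r hr =>
            mem_filter.2 ⟨hST hr, fun h => fd_zero_notMem (hS r hr) h (Sym2.mem_mk_left r u)⟩
          refine (prod_le_prod_of_subset_of_le_one' hsub fun r _ _ => ac_le_one _ _).trans
            (le_of_eq (prod_congr rfl fun r hr => ?_))
          have hru : r ≠ u := fun h => hu (h ▸ hST hr)
          rw [ac_mk, Function.update_of_ne hru, Function.update_self, ← Real.cos_neg, neg_sub]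
      _ = (∫⁻ s, ∏ r ∈ S, ENNReal.ofReal |Real.cos (s - x r)| ∂mu) * PE (KS T \ F) x :=
          lintegral_mul_const' _ _ (ne_top_of_le_ne_top ENNReal.one_ne_top (PE_le_one _ _))
      _ ≤ bt S.card * PE (KS T \ F) x := mul_le_mul' (hold1 S x) le_rfl
  have hbt : bt S.card ≠ ⊤ := by
    refine ne_top_of_le_ne_top ENNReal.one_ne_top ?_
    unfold bt
    calc ∫⁻ s, ENNReal.ofReal |Real.cos s| ^ S.card ∂mu ≤ ∫⁻ _, 1 ∂mu := by
          refine lintegral_mono fun s => pow_le_one' ?_ _
          rw [← ENNReal.ofReal_one]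
          exact ENNReal.ofReal_le_ofReal (Real.abs_cos_le_one s)
      _ = 1 := by simp
  unfold Mn
  rw [lmarginal_insert' _ (measurable_PE _) hu]
  refine (lmarginal_mono (fun x => hpt x) _).trans (le_of_eq ?_)
  unfold lmarginal
  exact lintegral_const_mul' _ _ hbt

/-- crude bound: the vertices of `U` are integrated out first -/
theorem crude_Mn (F : Finset (Sym2 V)) {S U : Finset V} (hd : Disjoint U S)
    (hS : ∀ v ∈ S, NC.fd F v = 0) : Mn F (U ∪ S) ≤ bt S.card ^ U.card * Mn ∅ S := by
  induction U using Finset.induction_on with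
  | empty =>
    rw [empty_union, card_empty, pow_zero, one_mul]
    have h : KS S \ F = KS S \ ∅ := by
      rw [sdiff_empty, Finset.sdiff_eq_self_iff_disjoint, Finset.disjoint_left]
      intro e he heF
      induction e with
      | h a b =>
        exact fd_zero_notMem (hS a (mem_KS.1 he).1) heF (Sym2.mem_mk_left a b)
    unfold Mn
    rw [h]
  | insert u U hu ih =>
    rw [disjoint_insert_left] at hd
    have huT : u ∉ U ∪ S := by
      rw [mem_union, not_or]
      exact ⟨hu, hd.1⟩
    rw [insert_union, card_insert_of_notMem hu, pow_succ']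
    calc Mn F (insert u (U ∪ S)) ≤ bt S.card * Mn F (U ∪ S) :=
          hold_step F subset_union_right huT hS
      _ ≤ bt S.card * (bt S.card ^ U.card * Mn ∅ S) := mul_le_mul' le_rfl (ih hd.2)
      _ = _ := by ring

end MP_a3e05c_co.OUT
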