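import Pool.Agent.Lib.MP_a3e05c_co.OUT.MRec
import Pool.Agent.Lib.MP_a3e05c_co.NCS.EvenG

/-!
# EULER, block OUT: the mean of `∏ |cos|` for a nearly complete graph

Paper proof.  (1) `XF_le`: `XF F d = ∑_v (1/2 ∑_{k=1}^{f_v} 1/(m-1-k) + f_v (f_v-1)/(4 (m-2-2d)
(m-1-d)²))`; each `1/(m-1-k) ≤ 1/(m-1-d)`, `f_v (f_v - 1) ≤ (d-1) f_v`, `∑ f_v = 2 |F| ≤ 2 q`
(`NC.sum_fd`).
(2) `level`: `MF_le` with gauge `w`; `NC.arc_ratioEZ` and `Z_le`:
`ZE w (KE \ F) / π^(m-1) ≤ exp (XF F d) * Gm m`.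
`OT F w ≤ ofReal (11/256 ∑_e kq (m-3-fs F e)) * B` by `union_le`, with `kq (m-3-fs) ≤
2^fs * (kq (m-3-J)/2^J)` (`kq_scale`) and `B = bt c ^ v * MM c`, `c = m-3-v`: for `i, j` let
`S = univ \ {w,i,j}`, `Mn F S = MF ↥S (res F S)` (`Mn_res`), choose `U ⊆ ↥S` with exactly `v`
elements containing all vertices met by `res F S` (their number is `≤ v` by `fd_res`), `crude`.
Finally `bt_le` and `MM_le` (`c ≥ 7`).
-/

set_option linter.unusedSectionVars false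

open MeasureTheory Finset
open scoped ENNReal

namespace MP_a3e05c_co.OUT

variable {V : Type} [Fintype V] [DecidableEq V]

theorem XF_le {F : Finset (Sym2 V)} (hF : F ⊆ NC.KE V) {m q d : ℕ} (hm : Fintype.card V = m)
    (hq : F.card ≤ q) (hd : ∀ x, NC.fd F x ≤ d) (hd1 : 1 ≤ d) (h2d : 2 * d + 2 < m) :
    NC.XF F d ≤ XX m q d := by
  have hm' : ((Fintype.card V : ℕ) : ℝ) = (m : ℝ) := by rw [hm]
  have h2d' : 2 * (d : ℝ) + 2 < m := by exact_mod_cast h2d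
  have hd1' : (1 : ℝ) ≤ d := by exact_mod_cast hd1
  have hA : (0 : ℝ) < (m : ℝ) - 1 - d := by linarith
  have hB : (0 : ℝ) < (m : ℝ) - 2 - 2 * d := by linarith
  have hq' : (F.card : ℝ) ≤ q := by exact_mod_cast hq
  have hsum : ∑ v, (NC.fd F v : ℝ) = 2 * F.card := by
    have h := NC.sum_fd hF
    exact_mod_cast h
  have hterm : ∀ v : V, ((1 / 2 : ℝ) * ∑ k ∈ Icc 1 (NC.fd F v), 1 / ((m : ℝ) - 1 - k) +
      (NC.fd F v : ℝ) * ((NC.fd F v : ℝ) - 1) /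
        (4 * ((m : ℝ) - 2 - 2 * d) * ((m : ℝ) - 1 - d) ^ 2)) ≤
      (NC.fd F v : ℝ) * (1 / (2 * ((m : ℝ) - 1 - d)) + ((d : ℝ) - 1) /
        (4 * ((m : ℝ) - 2 - 2 * d) * ((m : ℝ) - 1 - d) ^ 2)) := by
    intro v
    have hv : (NC.fd F v : ℝ) ≤ d := by exact_mod_cast hd v
    have h1 : ∑ k ∈ Icc 1 (NC.fd F v), 1 / ((m : ℝ) - 1 - k) ≤
        (NC.fd F v : ℝ) * (1 / ((m : ℝ) - 1 - d)) := by
      have h2 : ∀ k ∈ Icc 1 (NC.fd F v), 1 / ((m : ℝ) - 1 - k) ≤ 1 / ((m : ℝ) - 1 - d) := by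
        intro k hk
        have h3 : (k : ℝ) ≤ d := by
          have := (mem_Icc.1 hk).2.trans (hd v)
          exact_mod_cast this
        exact one_div_le_one_div_of_le hA (by linarith)
      refine (sum_le_sum h2).trans (le_of_eq ?_)
      rw [sum_const, Nat.card_Icc, Nat.add_sub_cancel, nsmul_eq_mul]
    have h4 : (NC.fd F v : ℝ) * ((NC.fd F v : ℝ) - 1) ≤ (NC.fd F v : ℝ) * ((d : ℝ) - 1) :=
      mul_le_mul_of_nonneg_left (by linarith) (Nat.cast_nonneg _)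
    have hC : (0 : ℝ) < 4 * ((m : ℝ) - 2 - 2 * d) * ((m : ℝ) - 1 - d) ^ 2 := by positivity
    have h5 : (NC.fd F v : ℝ) * ((NC.fd F v : ℝ) - 1) /
        (4 * ((m : ℝ) - 2 - 2 * d) * ((m : ℝ) - 1 - d) ^ 2) ≤
        (NC.fd F v : ℝ) * ((d : ℝ) - 1) /
        (4 * ((m : ℝ) - 2 - 2 * d) * ((m : ℝ) - 1 - d) ^ 2) :=
      div_le_div_of_nonneg_right h4 hC.le
    calc _ ≤ (1 / 2 : ℝ) * ((NC.fd F v : ℝ) * (1 / ((m : ℝ) - 1 - d))) +
        (NC.fd F v : ℝ) * ((d : ℝ) - 1) /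
        (4 * ((m : ℝ) - 2 - 2 * d) * ((m : ℝ) - 1 - d) ^ 2) := by linarith
      _ = _ := by
        field_simp
  have hall : NC.XF F d ≤ ∑ v : V, (NC.fd F v : ℝ) * (1 / (2 * ((m : ℝ) - 1 - d)) +
      ((d : ℝ) - 1) / (4 * ((m : ℝ) - 2 - 2 * d) * ((m : ℝ) - 1 - d) ^ 2)) := by
    unfold NC.XF
    rw [hm']
    exact sum_le_sum fun v _ => hterm v
  refine hall.trans ?_
  rw [← sum_mul, hsum]
  have hD : (0 : ℝ) ≤ 1 / (2 * ((m : ℝ) - 1 - d)) +
      ((d : ℝ) - 1) / (4 * ((m : ℝ) - 2 - 2 * d) * ((m : ℝ) - 1 - d) ^ 2) := by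
    have : (0 : ℝ) ≤ (d : ℝ) - 1 := by linarith
    positivity
  refine (mul_le_mul_of_nonneg_right (by linarith : (2 : ℝ) * F.card ≤ 2 * q) hD).trans
    (le_of_eq ?_)
  unfold XX
  field_simp
  ring

theorem level_crude {F : Finset (Sym2 V)} {S : Finset V} {v c : ℕ}
    (hv : (univ.filter fun x => NC.fd F x ≠ 0).card ≤ v) (hS : S.card = v + c) :
    Mn F S ≤ bt c ^ v * MM c := by
  rw [Mn_res]
  have hcard : Fintype.card {x // x ∈ S} = v + c := by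
    rw [Fintype.card_coe, hS]
  have h1 : (univ.filter fun x : {x // x ∈ S} => NC.fd (res F S) x ≠ 0).card ≤ v := by
    refine le_trans ?_ hv
    refine card_le_card_of_injOn Subtype.val ?_ ?_
    · intro x hx
      have hx' := (mem_filter.1 hx).2
      refine mem_coe.2 (mem_filter.2 ⟨mem_univ _, fun h0 => hx' ?_⟩)
      have h2 := fd_res F S x
      omega
    · intro x _ y _ hxy
      exact Subtype.ext hxy
  obtain ⟨U, hU1, _, hU3⟩ := exists_subsuperset_card_eq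
    (s := univ.filter fun x : {x // x ∈ S} => NC.fd (res F S) x ≠ 0)
    (t := (univ : Finset {x // x ∈ S})) (n := v) (filter_subset _ _) h1
    (by rw [card_univ, hcard]; exact Nat.le_add_right _ _)
  have h3 := crude (F := res F S) (U := U) (k := c) (fun x hx => by
    by_contra h0
    exact hx (hU1 (mem_filter.2 ⟨mem_univ _, h0⟩))) (by rw [hcard, hU3])
  rwa [hU3] at h3

theorem level {F : Finset (Sym2 V)} (hF : F ⊆ NC.KE V) {w : V} (hw : NC.fd F w = 0)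
    {m q d J v : ℕ} (hm : Fintype.card V = m) (hq : F.card ≤ q) (hd : ∀ x, NC.fd F x ≤ d)
    (hd1 : 1 ≤ d) (h2d : 2 * d + 2 < m)
    (hJ : ∀ i j, i ≠ j → s(i, j) ∉ F → NC.fd F i + NC.fd F j ≤ J) (hJm : J + 7 ≤ m) {P : ℝ}
    (hP : ∑ x ∈ (NC.KE V \ F).filter (fun x => w ∉ x), (2 : ℝ) ^ fs F x ≤ P)
    (hv : (univ.filter fun x => NC.fd F x ≠ 0).card ≤ v) (hvm : v + 10 ≤ m) :
    MF V F ≤ ENNReal.ofReal (Gm m * Real.exp (XX m q d) +
      11 / 256 * (kq (m - 3 - J) / 2 ^ J * P) *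
        (√(2 / (Real.pi * (((m - 3 - v : ℕ) : ℝ) + 2 / 5))) ^ v * (6 / 5 * Gm (m - 3 - v)))) := by
  have hpi : (0 : ℝ) < Real.pi ^ (m - 1) := by positivity
  have hGm : ∀ k, 0 < Gm k := fun k => Real.exp_pos _
  -- the arc part
  have harc : NC.ZE w (NC.KE V \ F) / Real.pi ^ (m - 1) ≤ Gm m * Real.exp (XX m q d) := by
    have h1 := NC.arc_ratioEZ w (M := d) (by rw [hm]; exact h2d) F hF hw hd
    have h2 := Z_le w
    rw [hm] at h2
    have h3 : NC.ZE w (NC.KE V \ F) ≤ Real.exp (NC.XF F d) * (Real.pi ^ (m - 1) * Gm m) := by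
      have h4 := mul_le_mul_of_nonneg_left (h1.trans h2) (Real.exp_pos (NC.XF F d)).le
      rwa [← mul_assoc, ← Real.exp_add, add_neg_cancel, Real.exp_zero, one_mul] at h4
    rw [div_le_iff₀ hpi]
    refine h3.trans ?_
    have h5 : Real.exp (NC.XF F d) ≤ Real.exp (XX m q d) :=
      Real.exp_le_exp.2 (XF_le hF hm hq hd hd1 h2d)
    calc Real.exp (NC.XF F d) * (Real.pi ^ (m - 1) * Gm m)
        ≤ Real.exp (XX m q d) * (Real.pi ^ (m - 1) * Gm m) :=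
          mul_le_mul_of_nonneg_right h5 (mul_nonneg hpi.le (hGm m).le)
      _ = _ := by ring
  -- the part off the arc
  have hB : ∀ i j, w ≠ i → w ≠ j → i ≠ j → s(i, j) ∉ F →
      Mn F (univ \ {w, i, j}) ≤ bt (m - 3 - v) ^ v * MM (m - 3 - v) := by
    intro i j hwi hwj hij _
    refine level_crude hv ?_
    have hcard3 : ({w, i, j} : Finset V).card = 3 := by
      rw [card_eq_three]
      exact ⟨w, i, j, hwi, hwj, hij, rfl⟩
    rw [card_sdiff_of_subset (subset_univ _), card_univ, hm, hcard3]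
    omega
  have hU := union_le hw hB (fun i j _ _ hij hijF => by
    rw [hm]
    have := hJ i j hij hijF
    omega)
  have hkqpos : 0 < kq (m - 3 - J) := kq_pos _
  have hsumkq : ∑ e ∈ (NC.KE V \ F).filter (fun e => w ∉ e), kq (Fintype.card V - 3 - fs F e) ≤
      kq (m - 3 - J) / 2 ^ J * P := by
    have h1 : ∀ e ∈ (NC.KE V \ F).filter (fun e => w ∉ e),
        kq (Fintype.card V - 3 - fs F e) ≤ (2 : ℝ) ^ fs F e * (kq (m - 3 - J) / 2 ^ J) := by
      intro e he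
      rw [hm]
      have he1 := (mem_filter.1 he).1
      have hfs : fs F e ≤ J := by
        induction e with
        | h i j =>
          rw [fs_mk]
          refine hJ i j ?_ (mem_sdiff.1 he1).2
          have h2 := NC.mem_KE.1 (mem_sdiff.1 he1).1
          simpa using h2
      exact kq_scale hfs (by omega)
    refine (sum_le_sum h1).trans ?_
    rw [← sum_mul, mul_comm]
    exact mul_le_mul_of_nonneg_left hP (by positivity)
  have hc7 : 7 ≤ m - 3 - v := by omega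
  have hbt := bt_le (k := m - 3 - v) (by omega)
  have hMM := MM_le hc7
  have hsq : 0 ≤ √(2 / (Real.pi * (((m - 3 - v : ℕ) : ℝ) + 2 / 5))) := Real.sqrt_nonneg _
  have hBB : bt (m - 3 - v) ^ v * MM (m - 3 - v) ≤
      ENNReal.ofReal (√(2 / (Real.pi * (((m - 3 - v : ℕ) : ℝ) + 2 / 5))) ^ v *
        (6 / 5 * Gm (m - 3 - v))) := by
    rw [ENNReal.ofReal_mul (pow_nonneg hsq v), ENNReal.ofReal_pow hsq]
    exact mul_le_mul' (pow_le_pow_left' hbt v) hMM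
  have hOT : OT F w ≤ ENNReal.ofReal (11 / 256 * (kq (m - 3 - J) / 2 ^ J * P) *
      (√(2 / (Real.pi * (((m - 3 - v : ℕ) : ℝ) + 2 / 5))) ^ v * (6 / 5 * Gm (m - 3 - v)))) := by
    refine hU.trans ?_
    have h0 : 0 ≤ ∑ e ∈ (NC.KE V \ F).filter (fun e => w ∉ e),
        kq (Fintype.card V - 3 - fs F e) := sum_nonneg fun e _ => (kq_pos _).le
    have h1 : 0 ≤ 11 / 256 * (kq (m - 3 - J) / 2 ^ J * P) := by
      have := h0.trans hsumkq
      positivity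
    rw [ENNReal.ofReal_mul h1]
    refine mul_le_mul' (ENNReal.ofReal_le_ofReal ?_) hBB
    exact mul_le_mul_of_nonneg_left hsumkq (by norm_num)
  have h1 : 0 ≤ NC.ZE w (NC.KE V \ F) / Real.pi ^ (m - 1) :=
    div_nonneg (NC.ZE_nonneg w _) hpi.le
  have hfin := MF_le (F := F) (b := w) hw
  rw [hm] at hfin
  refine hfin.trans ?_
  have h2 : 0 ≤ Gm m * Real.exp (XX m q d) := mul_nonneg (hGm m).le (Real.exp_pos _).le
  have h3 : 0 ≤ 11 / 256 * (kq (m - 3 - J) / 2 ^ J * P) *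
      (√(2 / (Real.pi * (((m - 3 - v : ℕ) : ℝ) + 2 / 5))) ^ v * (6 / 5 * Gm (m - 3 - v))) := by
    have h0 : 0 ≤ ∑ e ∈ (NC.KE V \ F).filter (fun e => w ∉ e),
        kq (Fintype.card V - 3 - fs F e) := sum_nonneg fun e _ => (kq_pos _).le
    have h4 : 0 ≤ kq (m - 3 - J) / 2 ^ J * P := h0.trans hsumkq
    have h5 := hGm (m - 3 - v)
    have h6 := pow_nonneg hsq v
    positivity
  rw [ENNReal.ofReal_add h2 h3]
  exact add_le_add (ENNReal.ofReal_le_ofReal harc) hOT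

end MP_a3e05c_co.OUT
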