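import Pool.Agent.Lib.MP_a3e05c_co.OUT.Defs

/-!
# EULER, block OUT: small real facts

Paper proof.  (1) `area`: with `mu = (1/π) dx` on `I = [-π/2, π/2]`: for `s ∈ I` the set of `t ∈ I`
with `|s - t| > π/2` has length `|s|` (`t < s - π/2` if `s ≥ 0`, `t > s + π/2` if `s ≤ 0`), so the
double integral is `(1/π²) ∫_I |s| ds = 1/4`.
(2) `kq_bound`: weighted AM-GM for `t` and `K` factors `(1/2 - t)/K`: with `x = K t`,
`x (1/2 - t)^K ≤ ((x + K (1/2 - t))/(K+1))^(K+1) = (K/(2(K+1)))^(K+1)`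
(`Real.inner_le_nnorm_mul_nnorm` is not needed: `Real.geom_mean_le_arith_mean_weighted`, or
`inner`/`convexity`; or calculus), divide by `K`.  `K = 0`: `t ≤ 1/2 = kq 0`.
(3) `kq K = (1/2)^(K+1) (K/(K+1))^K/(K+1)` and `(1 + 1/K)^K` is increasing in `K`, so
`K ↦ 2 ^ K * kq K` is decreasing: hence `kq_anti` and `kq_scale`.
-/

open MeasureTheory Finset
open scoped ENNReal

namespace MP_a3e05c_co.OUT

private theorem mu_far (s : ℝ) :
    mu {t : ℝ | Real.pi / 2 < |s - t|} ≤ ENNReal.ofReal (|s| / Real.pi) := by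
  have hpi := Real.pi_pos
  have hsub : ∃ a b : ℝ, b - a = |s| ∧
      {t : ℝ | Real.pi / 2 < |s - t|} ∩ Set.Icc (-(Real.pi / 2)) (Real.pi / 2) ⊆ Set.Icc a b := by
    rcases le_total 0 s with h | h
    · refine ⟨-(Real.pi / 2), s - Real.pi / 2, by rw [abs_of_nonneg h]; ring, ?_⟩
      rintro t ⟨ht, ht1, ht2⟩
      simp only [Set.mem_ofPred_eq] at ht
      refine ⟨ht1, ?_⟩
      by_contra hc
      push Not at hc
      have : |s - t| ≤ Real.pi / 2 := abs_le.2 ⟨by linarith, by linarith⟩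
      linarith
    · refine ⟨s + Real.pi / 2, Real.pi / 2, by rw [abs_of_nonpos h]; ring, ?_⟩
      rintro t ⟨ht, ht1, ht2⟩
      simp only [Set.mem_ofPred_eq] at ht
      refine ⟨?_, ht2⟩
      by_contra hc
      push Not at hc
      have : |s - t| ≤ Real.pi / 2 := abs_le.2 ⟨by linarith, by linarith⟩
      linarith
  obtain ⟨a, b, hab, hsub⟩ := hsub
  have hm : MeasurableSet {t : ℝ | Real.pi / 2 < |s - t|} :=
    measurableSet_lt measurable_const (measurable_const.sub measurable_id).abs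
  unfold mu
  rw [Measure.smul_apply, Measure.restrict_apply hm, smul_eq_mul]
  calc ENNReal.ofReal (1 / Real.pi) *
        volume ({t : ℝ | Real.pi / 2 < |s - t|} ∩ Set.Icc (-(Real.pi / 2)) (Real.pi / 2))
      ≤ ENNReal.ofReal (1 / Real.pi) * volume (Set.Icc a b) := by gcongr
    _ = ENNReal.ofReal (|s| / Real.pi) := by
        rw [Real.volume_Icc, hab, ← ENNReal.ofReal_mul (by positivity)]
        congr 1
        ring

private theorem int_abs (a : ℝ) (ha : 0 ≤ a) : ∫ x in (-a)..a, |x| = a ^ 2 := by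
  have h1 : ∫ x in (-a)..0, |x| = a ^ 2 / 2 := by
    have : ∫ x in (-a)..0, |x| = ∫ x in (-a)..0, -x := by
      refine intervalIntegral.integral_congr fun x hx => ?_
      rw [Set.uIcc_of_le (by linarith)] at hx
      exact abs_of_nonpos hx.2
    rw [this, intervalIntegral.integral_neg, integral_id]
    ring
  have h2 : ∫ x in (0 : ℝ)..a, |x| = a ^ 2 / 2 := by
    have : ∫ x in (0 : ℝ)..a, |x| = ∫ x in (0 : ℝ)..a, x := by
      refine intervalIntegral.integral_congr fun x hx => ?_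
      rw [Set.uIcc_of_le ha] at hx
      exact abs_of_nonneg hx.1
    rw [this, integral_id]
    ring
  rw [← intervalIntegral.integral_add_adjacent_intervals
    (continuous_abs.intervalIntegrable (-a) 0) (continuous_abs.intervalIntegrable 0 a), h1, h2]
  ring

theorem area : ∫⁻ s, ∫⁻ t, (if Real.pi / 2 < |s - t| then (1 : ℝ≥0∞) else 0) ∂mu ∂mu ≤
    ENNReal.ofReal (1 / 4) := by
  have hpi := Real.pi_pos
  have hpi2 : 0 ≤ Real.pi / 2 := by positivity
  have hin : ∀ s : ℝ, ∫⁻ t, (if Real.pi / 2 < |s - t| then (1 : ℝ≥0∞) else 0) ∂mu =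
      mu {t : ℝ | Real.pi / 2 < |s - t|} := by
    intro s
    have hm : MeasurableSet {t : ℝ | Real.pi / 2 < |s - t|} :=
      measurableSet_lt measurable_const (measurable_const.sub measurable_id).abs
    rw [← lintegral_indicator_one hm]
    refine lintegral_congr fun t => ?_
    by_cases h : Real.pi / 2 < |s - t|
    · rw [if_pos h, Set.indicator_of_mem (show t ∈ {t : ℝ | Real.pi / 2 < |s - t|} from h),
        Pi.one_apply]
    · rw [if_neg h, Set.indicator_of_notMem (show t ∉ {t : ℝ | Real.pi / 2 < |s - t|} from h)]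
  have hint : ∫ x in Set.Icc (-(Real.pi / 2)) (Real.pi / 2), |x| / Real.pi = Real.pi / 4 := by
    rw [integral_Icc_eq_integral_Ioc, ← intervalIntegral.integral_of_le (by linarith),
      intervalIntegral.integral_div, int_abs _ hpi2]
    field_simp
    ring
  calc ∫⁻ s, ∫⁻ t, (if Real.pi / 2 < |s - t| then (1 : ℝ≥0∞) else 0) ∂mu ∂mu
      ≤ ∫⁻ s, ENNReal.ofReal (|s| / Real.pi) ∂mu := by
        refine lintegral_mono_ae ?_
        filter_upwards with s
        rw [hin s]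
        exact mu_far s
    _ = ENNReal.ofReal (1 / Real.pi) *
          ∫⁻ s in Set.Icc (-(Real.pi / 2)) (Real.pi / 2), ENNReal.ofReal (|s| / Real.pi) := by
        unfold mu
        rw [lintegral_smul_measure, smul_eq_mul]
    _ = ENNReal.ofReal (1 / Real.pi) * ENNReal.ofReal (Real.pi / 4) := by
        rw [← hint, ofReal_integral_eq_lintegral_ofReal]
        · exact (Continuous.continuousOn (by fun_prop)).integrableOn_compact isCompact_Icc
        · exact Filter.Eventually.of_forall fun x => by positivity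
    _ = ENNReal.ofReal (1 / 4) := by
        rw [← ENNReal.ofReal_mul (by positivity)]
        congr 1
        field_simp
    _ ≤ ENNReal.ofReal (1 / 4) := le_rfl

private theorem kq_eq (K : ℕ) :
    kq K = 1 / (2 * ((K : ℝ) + 1)) * (1 / 2 - 1 / (2 * ((K : ℝ) + 1))) ^ K := by
  have h : (0 : ℝ) < (K : ℝ) + 1 := by positivity
  have h2 : (1 : ℝ) / 2 - 1 / (2 * ((K : ℝ) + 1)) = (1 / 2) * ((K : ℝ) / ((K : ℝ) + 1)) := by
    field_simp
    ring
  rw [h2, mul_pow, div_pow (K : ℝ), kq, pow_succ (1 / 2 : ℝ), pow_succ ((K : ℝ) + 1)]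
  field_simp

theorem kq_pos (K : ℕ) : 0 < kq K := by
  unfold kq
  have h : (0 : ℝ) < (K : ℝ) ^ K := by
    rcases Nat.eq_zero_or_pos K with h | h
    · subst h
      norm_num
    · positivity
  positivity

private theorem amgm (K : ℕ) {x y : ℝ} (hx : 0 ≤ x) (hy : 0 ≤ y) :
    x * y ^ K ≤ ((x + K * y) / (K + 1)) ^ (K + 1) := by
  have h : (0 : ℝ) < (K : ℝ) + 1 := by positivity
  have key := Real.geom_mean_le_arith_mean2_weighted (w₁ := 1 / ((K : ℝ) + 1))
    (w₂ := (K : ℝ) / ((K : ℝ) + 1)) (by positivity) (by positivity) hx hy (by field_simp; ring)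
  have h0 : 0 ≤ x ^ (1 / ((K : ℝ) + 1)) * y ^ ((K : ℝ) / ((K : ℝ) + 1)) := by positivity
  have key2 := pow_le_pow_left₀ h0 key (K + 1)
  have e1 : (x ^ (1 / ((K : ℝ) + 1)) * y ^ ((K : ℝ) / ((K : ℝ) + 1))) ^ (K + 1) = x * y ^ K := by
    rw [mul_pow, ← Real.rpow_natCast (x ^ _), ← Real.rpow_mul hx, ← Real.rpow_natCast (y ^ _),
      ← Real.rpow_mul hy]
    push_cast
    rw [one_div_mul_cancel h.ne', div_mul_cancel₀ _ h.ne', Real.rpow_one, Real.rpow_natCast]
  rw [e1] at key2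
  refine key2.trans (le_of_eq ?_)
  congr 1
  field_simp

theorem kq_bound {t : ℝ} (h0 : 0 ≤ t) (h1 : t ≤ 1 / 2) (K : ℕ) : t * (1 / 2 - t) ^ K ≤ kq K := by
  rcases Nat.eq_zero_or_pos K with h | h
  · subst h
    unfold kq
    norm_num
    linarith
  · have hK : (0 : ℝ) < (K : ℝ) := by exact_mod_cast h
    have h2 := amgm K (x := K * t) (y := 1 / 2 - t) (by positivity) (by linarith)
    have h3 : ((K : ℝ) * t + K * (1 / 2 - t)) / (K + 1) = (1 / 2) * ((K : ℝ) / (K + 1)) := by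
      field_simp
      ring
    rw [h3, mul_pow, div_pow (K : ℝ)] at h2
    have h4 : (1 / 2 : ℝ) ^ (K + 1) * ((K : ℝ) ^ (K + 1) / ((K : ℝ) + 1) ^ (K + 1)) =
        K * kq K := by
      unfold kq
      rw [pow_succ (K : ℝ)]
      ring
    rw [h4, mul_assoc] at h2
    exact le_of_mul_le_mul_left h2 hK

private theorem kq_two {K L : ℕ} (h : K ≤ L) : 2 ^ (L - K) * kq L ≤ kq K := by
  set t : ℝ := 1 / (2 * ((L : ℝ) + 1)) with ht
  have h0 : 0 ≤ t := by positivity
  have h1 : t ≤ 1 / 2 := by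
    rw [ht, div_le_div_iff₀ (by positivity) (by norm_num)]
    have : (0 : ℝ) ≤ (L : ℝ) := by positivity
    linarith
  have h2 := kq_bound h0 h1 K
  have h3 : (1 / 2 - t) ^ (L - K) ≤ (1 / 2 : ℝ) ^ (L - K) :=
    pow_le_pow_left₀ (by linarith) (by linarith) _
  have h4 : kq L = t * (1 / 2 - t) ^ K * (1 / 2 - t) ^ (L - K) := by
    rw [kq_eq L, ← ht, mul_assoc, ← pow_add, Nat.add_sub_cancel' h]
  have h5 : 0 ≤ t * (1 / 2 - t) ^ K := mul_nonneg h0 (pow_nonneg (by linarith) _)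
  calc 2 ^ (L - K) * kq L = 2 ^ (L - K) * (t * (1 / 2 - t) ^ K * (1 / 2 - t) ^ (L - K)) := by
        rw [h4]
    _ ≤ 2 ^ (L - K) * (t * (1 / 2 - t) ^ K * (1 / 2 : ℝ) ^ (L - K)) := by gcongr
    _ = t * (1 / 2 - t) ^ K := by
        rw [one_div, inv_pow]
        field_simp
    _ ≤ kq K := h2

theorem kq_anti {K L : ℕ} (h : K ≤ L) : kq L ≤ kq K := by
  have h1 := kq_two h
  have h2 : (1 : ℝ) ≤ 2 ^ (L - K) := one_le_pow₀ (by norm_num)
  have h3 := kq_pos L
  nlinarith

theorem kq_scale {K j J : ℕ} (hj : j ≤ J) (hJ : J ≤ K) :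
    kq (K - j) ≤ 2 ^ j * (kq (K - J) / 2 ^ J) := by
  have h1 := kq_two (show K - J ≤ K - j by omega)
  rw [show K - j - (K - J) = J - j by omega] at h1
  have h2 : (2 : ℝ) ^ J = 2 ^ j * 2 ^ (J - j) := by
    rw [← pow_add, Nat.add_sub_cancel' hj]
  rw [h2]
  have h3 : (2 : ℝ) ^ j * (kq (K - J) / (2 ^ j * 2 ^ (J - j))) = kq (K - J) / 2 ^ (J - j) := by
    field_simp
  rw [h3, le_div_iff₀ (by positivity), mul_comm]
  exact h1

end MP_a3e05c_co.OUT
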