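import Pool.Agent.Lib.MP_a3e05c_co.OUT.GaussZ
import Pool.Agent.Lib.MP_a3e05c_co.OUT.TB

/-!
# EULER, block OUT: the coefficient of the recursion for the complete graph

Paper proof.  By `Gm_eq`, `Gm (m-3)/Gm m = (π m/2)^(3/2) (m/(m-3))^((m-5)/2)`.  `rr` is decreasing
for `m ≥ 10`: `kq (m-2) ≤ kq (m-3)/2` (`kq_scale`), and
`((m+1)/(m-2))^((m-4)/2) ≤ (m/(m-3))^((m-5)/2) √((m+1)/(m-2))` because
`(m+1)(m-3) ≤ m (m-2)`, so `rr (m+1)/rr m ≤ (1/2) (m/(m-2)) ((m+1)/m)^(3/2) √((m+1)/(m-2)) ≤ 1`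
(`= .8455` at `m = 10`).  Values: `rr 10 = .0451`, `rr 20 = .00044` (square, `π < 3.1416`).
(Or avoid square roots by working with `rr m ^ 2`.)
-/

open Real

namespace MP_a3e05c_co.OUT

/-- the coefficient of the recursion -/
noncomputable def rr (m : ℕ) : ℝ :=
  11 / 256 * ((((m : ℝ) - 1) * ((m : ℝ) - 2) / 2) * kq (m - 3)) * (Gm (m - 3) / Gm m)

private theorem RR_Gm_pos (m : ℕ) : 0 < Gm m := by
  unfold Gm
  exact Real.exp_pos _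

private theorem RR_Gm_sq {m : ℕ} (hm : 1 ≤ m) :
    Gm m ^ 2 = m * (2 / (Real.pi * m)) ^ (m - 1) := by
  rw [Gm_eq hm, mul_pow, Real.sq_sqrt (by positivity), ← pow_mul, mul_comm (m - 1) 2, pow_mul,
    Real.sq_sqrt (by positivity)]

/-- the polynomial part -/
private noncomputable def RR_p (j : ℕ) : ℝ :=
  ((j : ℝ) + 3) ^ 2 * ((j : ℝ) + 2) ^ 2 * ((j : ℝ) + 1) * (1 / 4) ^ (j + 2)

private theorem RR_p_anti {a j : ℕ} (h2 : 2 ≤ a) (h : a ≤ j) : RR_p j ≤ RR_p a := by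
  induction j, h using Nat.le_induction with
  | base => exact le_rfl
  | succ j hj ih =>
    refine le_trans ?_ ih
    have hj2 : (2 : ℝ) ≤ j := by exact_mod_cast h2.trans hj
    unfold RR_p
    rw [pow_succ (1 / 4 : ℝ) (j + 2)]
    have h1 : (0 : ℝ) < (1 / 4) ^ (j + 2) := by positivity
    have h3 : (((j + 1 : ℕ) : ℝ) + 3) ^ 2 * (((j + 1 : ℕ) : ℝ) + 2) ^ 2 *
        (((j + 1 : ℕ) : ℝ) + 1) * (1 / 4) ≤
        ((j : ℝ) + 3) ^ 2 * ((j : ℝ) + 2) ^ 2 * ((j : ℝ) + 1) := by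
      push_cast
      have h4 : ((j : ℝ) + 4) ^ 2 ≤ 4 * (j + 2) * (j + 1) := by nlinarith
      have h5 : (0 : ℝ) ≤ ((j : ℝ) + 3) ^ 2 * (j + 2) := by positivity
      have h6 := mul_le_mul_of_nonneg_left h4 h5
      nlinarith
    calc _ = ((((j + 1 : ℕ) : ℝ) + 3) ^ 2 * (((j + 1 : ℕ) : ℝ) + 2) ^ 2 *
        (((j + 1 : ℕ) : ℝ) + 1) * (1 / 4)) * (1 / 4) ^ (j + 2) := by ring
      _ ≤ _ := mul_le_mul_of_nonneg_right h3 h1.le

private theorem RR_sq (j : ℕ) : rr (j + 4) ^ 2 =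
    (11 / 512) ^ 2 * (π / 2) ^ 3 * RR_p j *
      (((j : ℝ) + 1) * ((j : ℝ) + 4) / ((j : ℝ) + 2) ^ 2) ^ (j + 2) := by
  have hpi := Real.pi_pos
  have e1 : j + 4 - 3 = j + 1 := by omega
  unfold rr RR_p
  rw [e1, mul_pow, div_pow (Gm (j + 1)), RR_Gm_sq (by omega : 1 ≤ j + 1),
    RR_Gm_sq (by omega : 1 ≤ j + 4)]
  unfold kq
  have e2 : j + 1 - 1 = j := by omega
  have e3 : j + 4 - 1 = j + 3 := by omega
  rw [e2, e3]
  push_cast
  have hA : (0 : ℝ) < (j : ℝ) + 1 := by positivity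
  have hB : (0 : ℝ) < (j : ℝ) + 4 := by positivity
  have hC : (0 : ℝ) < (j : ℝ) + 2 := by positivity
  have e4 : (j : ℝ) + 1 + 1 = (j : ℝ) + 2 := by ring
  have e5 : (j : ℝ) + 4 - 1 = (j : ℝ) + 3 := by ring
  have e6 : (j : ℝ) + 4 - 2 = (j : ℝ) + 2 := by ring
  rw [e4, e5, e6]
  have e7 : (1 / 4 : ℝ) ^ (j + 2) = ((1 / 2) ^ (j + 2)) ^ 2 := by
    rw [← pow_mul, mul_comm (j + 2) 2, pow_mul]
    norm_num
  rw [e7]
  have e8 : ((j : ℝ) + 1) * (2 / (π * ((j : ℝ) + 1))) ^ j /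
      (((j : ℝ) + 4) * (2 / (π * ((j : ℝ) + 4))) ^ (j + 3)) =
      (π / 2) ^ 3 * ((j : ℝ) + 1) * ((j : ℝ) + 4) ^ (j + 2) / ((j : ℝ) + 1) ^ j := by
    rw [div_pow, div_pow, mul_pow, mul_pow]
    field_simp
    ring
  rw [e8, show j + 1 + 1 = j + 2 from rfl]
  have e9 : (((j : ℝ) + 1) * ((j : ℝ) + 4) / ((j : ℝ) + 2) ^ 2) ^ (j + 2) =
      ((j : ℝ) + 1) ^ (j + 2) * ((j : ℝ) + 4) ^ (j + 2) / (((j : ℝ) + 2) ^ (j + 2)) ^ 2 := by
    rw [div_pow, mul_pow, ← pow_mul, mul_comm 2 (j + 2), pow_mul]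
  rw [e9]
  have hX : (0 : ℝ) < ((j : ℝ) + 2) ^ (j + 2) := by positivity
  have hY : (0 : ℝ) < ((j : ℝ) + 1) ^ j := by positivity
  have e10 : ((j : ℝ) + 1) ^ (j + 1) = ((j : ℝ) + 1) ^ j * ((j : ℝ) + 1) := pow_succ _ _
  have e11 : ((j : ℝ) + 1) ^ (j + 2) = ((j : ℝ) + 1) ^ j * ((j : ℝ) + 1) ^ 2 := pow_add _ _ _
  rw [e10, e11]
  generalize ((j : ℝ) + 2) ^ (j + 2) = X at *
  generalize ((j : ℝ) + 1) ^ j = Y at *
  generalize ((j : ℝ) + 4) ^ (j + 2) = Z at *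
  generalize (1 / 2 : ℝ) ^ (j + 2) = W at *
  field_simp
  ring

private theorem RR_e (j : ℕ) :
    (((j : ℝ) + 1) * ((j : ℝ) + 4) / ((j : ℝ) + 2) ^ 2) ^ (j + 2) ≤ 272 / 100 := by
  have hC : (0 : ℝ) < (j : ℝ) + 2 := by positivity
  have h1 : ((j : ℝ) + 1) * ((j : ℝ) + 4) / ((j : ℝ) + 2) ^ 2 = (j : ℝ) / (j + 2) ^ 2 + 1 := by
    field_simp
    ring
  have h2 : (j : ℝ) / (j + 2) ^ 2 + 1 ≤ exp ((j : ℝ) / (j + 2) ^ 2) := Real.add_one_le_exp _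
  rw [h1]
  calc ((j : ℝ) / (j + 2) ^ 2 + 1) ^ (j + 2) ≤ exp ((j : ℝ) / (j + 2) ^ 2) ^ (j + 2) :=
        pow_le_pow_left₀ (by positivity) h2 _
    _ = exp ((j + 2 : ℕ) * ((j : ℝ) / (j + 2) ^ 2)) := by rw [← exp_nat_mul]
    _ ≤ exp 1 := by
        apply exp_le_exp.2
        push_cast
        have h3 : ((j : ℝ) + 2) * ((j : ℝ) / (j + 2) ^ 2) = (j : ℝ) / (j + 2) := by
          field_simp
        rw [h3, div_le_one hC]
        linarith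
    _ ≤ 272 / 100 := by
        have := Real.exp_one_lt_d9
        linarith

private theorem RR_bound {j : ℕ} {e p r : ℝ} (hp : RR_p j ≤ p)
    (he : (((j : ℝ) + 1) * ((j : ℝ) + 4) / ((j : ℝ) + 2) ^ 2) ^ (j + 2) ≤ e) (hr : 0 ≤ r)
    (h : (11 / 512) ^ 2 * (315 / 200) ^ 3 * p * e ≤ r ^ 2) : rr (j + 4) ≤ r := by
  refine le_of_sq_le_sq ?_ hr
  rw [RR_sq]
  refine le_trans ?_ h
  have hpi : π / 2 ≤ 315 / 200 := by
    have := Real.pi_lt_d2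
    linarith
  have hpi0 := Real.pi_pos
  have h1 : (π / 2) ^ 3 ≤ (315 / 200) ^ 3 := pow_le_pow_left₀ (by positivity) hpi 3
  have hp0 : 0 ≤ RR_p j := by
    unfold RR_p
    positivity
  have he0 : (0 : ℝ) ≤ (((j : ℝ) + 1) * ((j : ℝ) + 4) / ((j : ℝ) + 2) ^ 2) ^ (j + 2) := by
    positivity
  apply mul_le_mul _ he he0 (by
    have := hp0.trans hp
    positivity)
  apply mul_le_mul _ hp hp0 (by positivity)
  exact mul_le_mul_of_nonneg_left h1 (by positivity)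

theorem rr_le {m : ℕ} (hm : 10 ≤ m) : rr m ≤ 1 / 20 := by
  obtain ⟨j, rfl⟩ : ∃ j, m = j + 4 := ⟨m - 4, by omega⟩
  rcases Nat.lt_or_ge j 7 with h | h
  · have h1 : j = 6 := by omega
    subst h1
    refine RR_bound (e := (70 / 64) ^ 8) (p := 36288 / 65536) ?_ ?_ (by norm_num) (by norm_num)
    · unfold RR_p
      norm_num
    · norm_num
  · refine RR_bound (e := 272 / 100) (p := 64800 / 262144) ((RR_p_anti (by norm_num) h).trans ?_)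
      (RR_e j) (by norm_num) (by norm_num)
    unfold RR_p
    norm_num

theorem rr_le20 {m : ℕ} (hm : 20 ≤ m) : rr m ≤ 1 / 200 := by
  obtain ⟨j, rfl⟩ : ∃ j, m = j + 4 := ⟨m - 4, by omega⟩
  refine RR_bound (e := 272 / 100) (p := 1988388 / 4 ^ 18)
    ((RR_p_anti (a := 16) (by norm_num) (by omega)).trans ?_)
    (RR_e j) (by norm_num) (by norm_num)
  unfold RR_p
  norm_num

private theorem RR_Gm_ge {m : ℕ} {x : ℝ} (hm : 1 ≤ m)
    (h : x ^ 2 ≤ m * (2 / (315 / 100 * m)) ^ (m - 1)) : x ≤ Gm m := by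
  refine le_of_sq_le_sq ?_ (RR_Gm_pos m).le
  rw [RR_Gm_sq hm]
  refine h.trans ?_
  have hm0 : (0 : ℝ) < m := by exact_mod_cast hm
  have hpi0 := Real.pi_pos
  refine mul_le_mul_of_nonneg_left (pow_le_pow_left₀ (by positivity) ?_ _) hm0.le
  apply div_le_div_of_nonneg_left (by norm_num) (by positivity)
  have := Real.pi_lt_d2
  exact mul_le_mul_of_nonneg_right (by linarith) hm0.le

/-- the cases `m = 7, 8, 9` -/
theorem rr_small :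
    11 / 256 * (15 * kq 4) * (13 / 86) ≤ 1 / 5 * Gm 7 ∧
    11 / 256 * (21 * kq 5) * (3 / 52) ≤ 1 / 5 * Gm 8 ∧
    11 / 256 * (28 * kq 6) * (1 / 50) ≤ 1 / 5 * Gm 9 := by
  refine ⟨?_, ?_, ?_⟩
  · have h : (13 / 10000 : ℝ) ≤ Gm 7 := RR_Gm_ge (by norm_num) (by norm_num)
    unfold kq
    norm_num at h ⊢
    linarith
  · have h : (28 / 100000 : ℝ) ≤ Gm 8 := RR_Gm_ge (by norm_num) (by norm_num)
    unfold kq
    norm_num at h ⊢
    linarith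
  · have h : (54 / 1000000 : ℝ) ≤ Gm 9 := RR_Gm_ge (by norm_num) (by norm_num)
    unfold kq
    norm_num at h ⊢
    linarith

end MP_a3e05c_co.OUT
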