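import Pool.Agent.Lib.MP_a3e05c_co.OUT.Rel
import Pool.Agent.Lib.MP_a3e05c_co.OUT.Box
import Pool.Agent.Lib.MP_a3e05c_co.OUT.GaussZ
import Pool.Agent.Lib.MP_a3e05c_co.OUT.Bt
import Pool.Agent.Lib.MP_a3e05c_co.OUT.RR

/-!
# EULER, block OUT: the complete graph

Paper proof.  (1) `OT_empty_le` = `union_le` with `F = ∅`, `B = MM (n - 3)` (`Mn_res`, `MF_empty`,
`card (univ \ {w,i,j}) = n - 3`); the number of edges not at `w` is `(n-1)(n-2)/2`, `fs = 0`.
(2) `MM_rec`: `MF_le` for `V = Fin m`, `F = ∅`, `ZE_KE`, `Z_le`, (1).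
(3) `MM_le`: `MM 1 ≤ 1`, `MM (m+1) ≤ bt m * MM m` (`MM_succ`), `bt_le`: `MM 4 ≤ bt 3 bt 2 bt 1 ≤
.1503 ≤ 13/86`, `MM 5 ≤ .3804 * .1503 ≤ 3/52`, `MM 6 ≤ .3434 * .0572 ≤ 1/50` (squares, `π > 3.14`);
`MM_rec` and `rr_small` for `m = 7, 8, 9`; induction from `m = 10` on: `MM m ≤ Gm m + rr m * (6/5) Gm m
≤ (1 + 3/50) Gm m` (`rr_le`), and for `m ≥ 20`: `≤ (1 + (6/5)/200) Gm m` (`rr_le20`).
-/

set_option linter.unusedSectionVars false

open MeasureTheory Finset
open scoped ENNReal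

namespace MP_a3e05c_co.OUT

variable {V : Type} [Fintype V] [DecidableEq V]

private theorem MRec_edges (b : V) : (NC.KE V \ ∅).filter (fun e => b ∉ e) =
    ((univ.erase b).offDiag).image Sym2.mk.uncurry := by
  ext e
  induction e with
  | h u v =>
    simp only [mem_filter, mem_sdiff, notMem_empty, not_false_eq_true, and_true, NC.mem_KE,
      Sym2.mk_isDiag_iff, Sym2.mem_iff, not_or, mem_image, mem_offDiag, mem_erase, mem_univ,
      Prod.exists, Function.uncurry_apply_pair, and_true]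
    constructor
    · rintro ⟨h1, h2, h3⟩
      exact ⟨u, v, ⟨fun h => h2 h.symm, fun h => h3 h.symm, h1⟩, rfl⟩
    · rintro ⟨x, y, ⟨h1, h2, h3⟩, h4⟩
      rcases Sym2.eq_iff.1 h4 with ⟨rfl, rfl⟩ | ⟨rfl, rfl⟩
      · exact ⟨h3, fun h => h1 h.symm, fun h => h2 h.symm⟩
      · exact ⟨fun h => h3 h.symm, fun h => h2 h.symm, fun h => h1 h.symm⟩

private theorem MRec_card (b : V) : (((NC.KE V \ ∅).filter (fun e => b ∉ e)).card : ℝ) =
    ((Fintype.card V : ℝ) - 1) * ((Fintype.card V : ℝ) - 2) / 2 := by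
  have h1 : 1 ≤ Fintype.card V := Fintype.card_pos_iff.2 ⟨b⟩
  rw [MRec_edges, Sym2.card_image_offDiag, card_erase_of_mem (mem_univ b), card_univ,
    Nat.cast_choose_two, Nat.cast_sub h1]
  push_cast
  ring

private theorem MRec_fs (e : Sym2 V) : fs (∅ : Finset (Sym2 V)) e = 0 := by
  induction e with
  | h u v => simp [NC.fd]

private theorem MRec_res (S : Finset V) : res (∅ : Finset (Sym2 V)) S = ∅ := by
  unfold res
  rw [filter_eq_empty_iff]
  intro e _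
  exact notMem_empty _

theorem OT_empty_le {n : ℕ} (hn : Fintype.card V = n) (h7 : 7 ≤ n) (b : V) :
    OT (∅ : Finset (Sym2 V)) b ≤
      ENNReal.ofReal (11 / 256 * ((((n : ℝ) - 1) * ((n : ℝ) - 2) / 2) * kq (n - 3))) *
        MM (n - 3) := by
  have h0 : ∀ v : V, NC.fd (∅ : Finset (Sym2 V)) v = 0 := fun v => by simp [NC.fd]
  have h := union_le (F := (∅ : Finset (Sym2 V))) (w := b) (h0 b) (B := MM (n - 3)) ?_ ?_
  · refine h.trans_eq ?_
    congr 3
    rw [sum_congr rfl fun e _ => by rw [MRec_fs e, Nat.sub_zero, hn], sum_const, nsmul_eq_mul,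
      MRec_card, hn]
  · intro i j hi hj hij _
    rw [Mn_res, MRec_res]
    refine (MF_empty ?_).le
    rw [Fintype.card_coe, card_sdiff_of_subset (subset_univ _), card_univ, hn]
    congr 1
    exact card_eq_three.2 ⟨b, i, j, hi, hj, hij, rfl⟩
  · intro i j _ _ _ _
    rw [h0, h0, hn]
    omega

theorem MM_rec {m : ℕ} (hm : 7 ≤ m) :
    MM m ≤ ENNReal.ofReal (Gm m) +
      ENNReal.ofReal (11 / 256 * ((((m : ℝ) - 1) * ((m : ℝ) - 2) / 2) * kq (m - 3))) *
        MM (m - 3) := by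
  have h := MF_le (V := Fin m) (F := ∅) (b := ⟨0, by omega⟩) (by simp [NC.fd])
  unfold MM at *
  refine h.trans (add_le_add ?_ (OT_empty_le (Fintype.card_fin m) hm _))
  refine ENNReal.ofReal_le_ofReal ?_
  have hz := Z_le (V := Fin m) ⟨0, by omega⟩
  rw [sdiff_empty, NC.ZE_KE, div_le_iff₀ (by positivity)]
  rw [Fintype.card_fin] at *
  linarith [hz]

private theorem MRec_bt {k : ℕ} (hk : 1 ≤ k) {c : ℝ} (hc : 0 ≤ c)
    (h : 2 / (3.14 * ((k : ℝ) + 2 / 5)) ≤ c ^ 2) : bt k ≤ ENNReal.ofReal c := by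
  refine (bt_le hk).trans (ENNReal.ofReal_le_ofReal (Real.sqrt_le_iff.2 ⟨hc, le_trans ?_ h⟩))
  have hp := Real.pi_gt_d2
  have hk' : (0 : ℝ) ≤ k := Nat.cast_nonneg k
  refine div_le_div_of_nonneg_left (by norm_num) (by positivity) ?_
  exact mul_le_mul_of_nonneg_right (by linarith) (by positivity)

private theorem MRec_mul {x y : ℝ≥0∞} {a b c : ℝ} (ha : 0 ≤ a) (hx : x ≤ ENNReal.ofReal a)
    (hy : y ≤ ENNReal.ofReal b) (h : a * b ≤ c) : x * y ≤ ENNReal.ofReal c := by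
  calc x * y ≤ ENNReal.ofReal a * ENNReal.ofReal b := mul_le_mul' hx hy
    _ = ENNReal.ofReal (a * b) := (ENNReal.ofReal_mul ha).symm
    _ ≤ ENNReal.ofReal c := ENNReal.ofReal_le_ofReal h

private theorem MRec_one : MM 1 ≤ ENNReal.ofReal 1 := by
  unfold MM MF
  rw [ENNReal.ofReal_one]
  refine (lintegral_mono fun θ => PE_le_one _ θ).trans ?_
  rw [lintegral_one, measure_univ]

private theorem MRec_456 : MM 4 ≤ ENNReal.ofReal (13 / 86) ∧ MM 5 ≤ ENNReal.ofReal (3 / 52) ∧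
    MM 6 ≤ ENNReal.ofReal (1 / 50) := by
  have b1 : bt 1 ≤ ENNReal.ofReal 0.6746 := MRec_bt le_rfl (by norm_num) (by norm_num)
  have b2 : bt 2 ≤ ENNReal.ofReal 0.5152 := MRec_bt (by norm_num) (by norm_num) (by norm_num)
  have b3 : bt 3 ≤ ENNReal.ofReal 0.4329 := MRec_bt (by norm_num) (by norm_num) (by norm_num)
  have b4 : bt 4 ≤ ENNReal.ofReal 0.3805 := MRec_bt (by norm_num) (by norm_num) (by norm_num)
  have b5 : bt 5 ≤ ENNReal.ofReal 0.3435 := MRec_bt (by norm_num) (by norm_num) (by norm_num)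
  have m2 : MM 2 ≤ ENNReal.ofReal 0.6746 :=
    (MM_succ 1).trans (MRec_mul (by norm_num) b1 MRec_one (by norm_num))
  have m3 : MM 3 ≤ ENNReal.ofReal 0.3476 :=
    (MM_succ 2).trans (MRec_mul (by norm_num) b2 m2 (by norm_num))
  have m4 : MM 4 ≤ ENNReal.ofReal (13 / 86) :=
    (MM_succ 3).trans (MRec_mul (by norm_num) b3 m3 (by norm_num))
  have m5 : MM 5 ≤ ENNReal.ofReal (3 / 52) :=
    (MM_succ 4).trans (MRec_mul (by norm_num) b4 m4 (by norm_num))
  have m6 : MM 6 ≤ ENNReal.ofReal (1 / 50) :=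
    (MM_succ 5).trans (MRec_mul (by norm_num) b5 m5 (by norm_num))
  exact ⟨m4, m5, m6⟩

private theorem MRec_Gm_pos (m : ℕ) : 0 < Gm m := Real.exp_pos _

/-- one step of the recursion -/
private theorem MRec_step {m : ℕ} (hm : 7 ≤ m) {B C : ℝ} (hB : 0 ≤ B)
    (h : MM (m - 3) ≤ ENNReal.ofReal B)
    (hC : Gm m + 11 / 256 * ((((m : ℝ) - 1) * ((m : ℝ) - 2) / 2) * kq (m - 3)) * B ≤ C) :
    MM m ≤ ENNReal.ofReal C := by
  have h7 : (7 : ℝ) ≤ m := by exact_mod_cast hm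
  have h0 : 0 ≤ 11 / 256 * ((((m : ℝ) - 1) * ((m : ℝ) - 2) / 2) * kq (m - 3)) := by
    have := (kq_pos (m - 3)).le
    have h1 : 0 ≤ (m : ℝ) - 1 := by linarith
    have h2 : 0 ≤ (m : ℝ) - 2 := by linarith
    positivity
  refine (MM_rec hm).trans ((add_le_add le_rfl (MRec_mul h0 le_rfl h le_rfl)).trans ?_)
  rw [← ENNReal.ofReal_add (MRec_Gm_pos m).le (mul_nonneg h0 hB)]
  exact ENNReal.ofReal_le_ofReal hC

private theorem MRec_rr (m : ℕ) (c : ℝ) :
    11 / 256 * ((((m : ℝ) - 1) * ((m : ℝ) - 2) / 2) * kq (m - 3)) * (c * Gm (m - 3)) =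
      c * (rr m * Gm m) := by
  have h := (MRec_Gm_pos m).ne'
  unfold rr
  field_simp

theorem MM_le {m : ℕ} (hm : 7 ≤ m) : MM m ≤ ENNReal.ofReal (6 / 5 * Gm m) := by
  induction m using Nat.strong_induction_on with
  | _ m ih =>
    obtain ⟨m4, m5, m6⟩ := MRec_456
    obtain ⟨r7, r8, r9⟩ := rr_small
    rcases lt_or_ge m 10 with h | h
    · obtain rfl | rfl | rfl : m = 7 ∨ m = 8 ∨ m = 9 := by omega
      · refine MRec_step (by norm_num) (by norm_num) m4 ?_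
        have e1 : (((7 : ℕ) : ℝ) - 1) * (((7 : ℕ) : ℝ) - 2) / 2 = 15 := by norm_num
        rw [e1]
        linarith
      · refine MRec_step (by norm_num) (by norm_num) m5 ?_
        have e1 : (((8 : ℕ) : ℝ) - 1) * (((8 : ℕ) : ℝ) - 2) / 2 = 21 := by norm_num
        rw [e1]
        linarith
      · refine MRec_step (by norm_num) (by norm_num) m6 ?_
        have e1 : (((9 : ℕ) : ℝ) - 1) * (((9 : ℕ) : ℝ) - 2) / 2 = 28 := by norm_num
        rw [e1]
        linarith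
    · have h1 := ih (m - 3) (by omega) (by omega)
      refine MRec_step hm (by have := MRec_Gm_pos (m - 3); positivity) h1 ?_
      rw [MRec_rr]
      have h2 := mul_le_mul_of_nonneg_right (rr_le h) (MRec_Gm_pos m).le
      have h3 := MRec_Gm_pos m
      linarith

theorem MM_le20 {m : ℕ} (hm : 20 ≤ m) : MM m ≤ ENNReal.ofReal (101 / 100 * Gm m) := by
  have h1 := MM_le (m := m - 3) (by omega)
  refine MRec_step (by omega) (by have := MRec_Gm_pos (m - 3); positivity) h1 ?_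
  rw [MRec_rr]
  have h2 := mul_le_mul_of_nonneg_right (rr_le20 hm) (MRec_Gm_pos m).le
  have h3 := MRec_Gm_pos m
  linarith

end MP_a3e05c_co.OUT
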