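import Pool.Agent.Lib.MP_a3e05c_co.OUT.Defs

/-!
# EULER, block OUT: the fourth moment

Paper proof.  Put `h s = cos s cos (s - α) cos (s - β)`, `t = -(cos α cos β cos (α - β))`, so
`0 ≤ t ≤ 1/8` (`RT.tri_le`).  `4 h s = cos (3 s - S) + P cos s + Q sin s`, `S = α + β`,
`P = 2 cos (α - β) + cos S`, `Q = sin S`, `P² + Q² = 1 - 8 t =: r²`.  Expand the fourth power and
integrate over one period (the mean over `[-π/2, π/2]` of a function of period `π` equals the mean
over `[0, 2π]`, all terms are trigonometric polynomials in `2 s`):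
mean of `(4h)^4 = 3/8 + (3/2) r² + (3/8) r⁴ + (1/2) (P³ - 3 P Q²) cos S + ... ` where the last term
(the resonance) is `(1/2) Re (e^{-iS} (P + iQ)^3) ≤ (1/2) r³`.
So mean of `h⁴ ≤ (1/256) (3/8 + (3/2) r² + (1/2) r³ + (3/8) r⁴)`, and with `t = (1 - r²)/8`,
`1/2 - t = (3 + r²)/8` the claim is
`3/8 + (3/2) r² + (1/2) r³ + (3/8) r⁴ ≤ (11/4) ((3 + r²)/4)^4` for `0 ≤ r ≤ 1`, equality at `r = 1`:
checked numerically; with `u = r²`, `r³ ≤ (r² + r⁴)/2`: `3/8 + (7/4) u + (5/8) u² ≤ (11/1024) (3+u)^4`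
holds for `0 ≤ u ≤ 1` (difference: convexity/`nlinarith`; factor `(1-u)`).
-/

open MeasureTheory Finset
open scoped ENNReal

namespace MP_a3e05c_co.OUT

private theorem Mom_prod (x y : ℝ) :
    Real.cos (x + y) + Real.cos (x - y) = 2 * (Real.cos x * Real.cos y) := by
  rw [Real.cos_add, Real.cos_sub]; ring

private theorem Mom_ident (α β s : ℝ) :
    4 * (Real.cos s * Real.cos (s - α) * Real.cos (s - β)) = Real.cos (3 * s - (α + β)) +
      (Real.cos s * (2 * Real.cos (α - β) + Real.cos (α + β)) +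
        Real.sin s * Real.sin (α + β)) := by
  have e1 : Real.cos (3 * s - (α + β)) + Real.cos (s - (α + β)) =
      2 * (Real.cos (2 * s - (α + β)) * Real.cos s) := by
    have := Mom_prod (2 * s - (α + β)) s
    rw [show 2 * s - (α + β) + s = 3 * s - (α + β) by ring,
      show 2 * s - (α + β) - s = s - (α + β) by ring] at this
    exact this
  have e2 : Real.cos (2 * s - (α + β)) + Real.cos (α - β) =
      2 * (Real.cos (s - α) * Real.cos (s - β)) := by
    have := Mom_prod (s - α) (s - β)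
    rw [show s - α + (s - β) = 2 * s - (α + β) by ring,
      show s - α - (s - β) = -(α - β) by ring, Real.cos_neg] at this
    exact this
  have e3 : Real.cos (s - (α + β)) =
      Real.cos s * Real.cos (α + β) + Real.sin s * Real.sin (α + β) := Real.cos_sub _ _
  have e4 : 4 * (Real.cos s * Real.cos (s - α) * Real.cos (s - β)) =
      2 * Real.cos s * (2 * (Real.cos (s - α) * Real.cos (s - β))) := by ring
  rw [e4, ← e2]
  linear_combination -e1 + e3

private theorem Mom_cos4 (x : ℝ) : Real.cos (4 * x) = 8 * Real.cos x ^ 4 - 8 * Real.cos x ^ 2 + 1 := by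
  rw [show 4 * x = 2 * (2 * x) by ring, Real.cos_two_mul, Real.cos_two_mul]
  ring

private theorem Mom_pow4 (a b r : ℝ) :
    (Real.cos a + r * Real.cos b) ^ 4 =
      (3 / 8 + 3 / 2 * r ^ 2 + 1 / 2 * r ^ 3 * Real.cos (a - 3 * b) + 3 / 8 * r ^ 4) +
      (1 / 2 * Real.cos (2 * a) + (1 / 8 * Real.cos (4 * a) +
      (3 / 2 * r * Real.cos (a - b) + (3 / 2 * r * Real.cos (a + b) +
      (1 / 2 * r * Real.cos (3 * a - b) + (1 / 2 * r * Real.cos (3 * a + b) +
      (3 / 2 * r ^ 2 * Real.cos (2 * a) + (3 / 2 * r ^ 2 * Real.cos (2 * b) +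
      (3 / 4 * r ^ 2 * Real.cos (2 * a - 2 * b) + (3 / 4 * r ^ 2 * Real.cos (2 * a + 2 * b) +
      (3 / 2 * r ^ 3 * Real.cos (a - b) + (3 / 2 * r ^ 3 * Real.cos (a + b) +
      (1 / 2 * r ^ 3 * Real.cos (a + 3 * b) + (1 / 2 * r ^ 4 * Real.cos (2 * b) +
      1 / 8 * r ^ 4 * Real.cos (4 * b))))))))))))))) := by
  have h1 := Mom_prod a b
  have h2 := Mom_prod (3 * a) b
  have h3 := Mom_prod (2 * a) (2 * b)
  have h4 := Mom_prod a (3 * b)
  have h5 := Real.cos_three_mul a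
  have h6 := Real.cos_three_mul b
  have h7 := Real.cos_two_mul a
  have h8 := Real.cos_two_mul b
  have h9 := Mom_cos4 a
  have h10 := Mom_cos4 b
  rw [h5] at h2
  rw [h7, h8] at h3
  rw [h6] at h4
  rw [h9, h10]
  rw [h7, h8]
  linear_combination (-(3 / 2) * r - 3 / 2 * r ^ 3) * h1 - 1 / 2 * r * h2 - 3 / 4 * r ^ 2 * h3 -
    1 / 2 * r ^ 3 * h4

/-- continuous functions with integral zero over `[-π/2, π/2]` -/
private def Mom_Z (f : ℝ → ℝ) : Prop :=
  Continuous f ∧ ∫ s in (-(Real.pi / 2))..(Real.pi / 2), f s = 0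

private theorem Mom_Z_add {f g : ℝ → ℝ} (hf : Mom_Z f) (hg : Mom_Z g) :
    Mom_Z fun s => f s + g s := by
  refine ⟨hf.1.add hg.1, ?_⟩
  rw [intervalIntegral.integral_add (hf.1.intervalIntegrable _ _) (hg.1.intervalIntegrable _ _),
    hf.2, hg.2, add_zero]

private theorem Mom_Z_cos (c : ℝ) (k : ℕ) (hk : k ≠ 0) (δ : ℝ) :
    Mom_Z fun s => c * Real.cos (2 * k * s + δ) := by
  refine ⟨by fun_prop, ?_⟩
  have hk' : (k : ℝ) ≠ 0 := by exact_mod_cast hk
  rw [intervalIntegral.integral_const_mul]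
  have h1 : ∫ s in (-(Real.pi / 2))..(Real.pi / 2), Real.cos (2 * k * s + δ) =
      Real.sin (2 * k * (Real.pi / 2) + δ) / (2 * k) -
        Real.sin (2 * k * (-(Real.pi / 2)) + δ) / (2 * k) := by
    refine intervalIntegral.integral_eq_sub_of_hasDerivAt
      (f := fun s => Real.sin (2 * k * s + δ) / (2 * k)) ?_ ?_
    · intro s _
      have h2 : HasDerivAt (fun s : ℝ => 2 * k * s + δ) (2 * k) s := by
        have := ((hasDerivAt_id s).const_mul (2 * (k : ℝ))).add_const δ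
        simpa using this
      have h3 := (h2.sin).div_const (2 * (k : ℝ))
      have h4 : Real.cos (2 * k * s + δ) * (2 * (k : ℝ)) / (2 * k) =
          Real.cos (2 * k * s + δ) := by
        field_simp
      rw [h4] at h3
      exact h3
    · exact Continuous.intervalIntegrable (by fun_prop) _ _
  rw [h1]
  have h5 : 2 * (k : ℝ) * (Real.pi / 2) + δ = (2 * (k : ℝ) * (-(Real.pi / 2)) + δ) +
      (k : ℝ) * (2 * Real.pi) := by ring
  rw [h5, Real.sin_add_nat_mul_two_pi, sub_self, mul_zero]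

private theorem Mom_congr {f g : ℝ → ℝ} (hf : Mom_Z f) (h : ∀ s, g s = f s) : Mom_Z g := by
  have : g = f := funext h
  rw [this]
  exact hf

private theorem Mom_mean (S φ r : ℝ) :
    ∫ s in (-(Real.pi / 2))..(Real.pi / 2), (Real.cos (3 * s - S) + r * Real.cos (s - φ)) ^ 4 =
      Real.pi * (3 / 8 + 3 / 2 * r ^ 2 + 1 / 2 * r ^ 3 * Real.cos (3 * φ - S) + 3 / 8 * r ^ 4) := by
  have hz : Mom_Z fun s => (Real.cos (3 * s - S) + r * Real.cos (s - φ)) ^ 4 -
      (3 / 8 + 3 / 2 * r ^ 2 + 1 / 2 * r ^ 3 * Real.cos (3 * φ - S) + 3 / 8 * r ^ 4) := by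
    have hs := Mom_Z_add (Mom_Z_cos (1 / 2) 3 (by norm_num) (-(2 * S))) <|
      Mom_Z_add (Mom_Z_cos (1 / 8) 6 (by norm_num) (-(4 * S))) <|
      Mom_Z_add (Mom_Z_cos (3 / 2 * r) 1 (by norm_num) (-S + φ)) <|
      Mom_Z_add (Mom_Z_cos (3 / 2 * r) 2 (by norm_num) (-S - φ)) <|
      Mom_Z_add (Mom_Z_cos (1 / 2 * r) 4 (by norm_num) (-(3 * S) + φ)) <|
      Mom_Z_add (Mom_Z_cos (1 / 2 * r) 5 (by norm_num) (-(3 * S) - φ)) <|
      Mom_Z_add (Mom_Z_cos (3 / 2 * r ^ 2) 3 (by norm_num) (-(2 * S))) <|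
      Mom_Z_add (Mom_Z_cos (3 / 2 * r ^ 2) 1 (by norm_num) (-(2 * φ))) <|
      Mom_Z_add (Mom_Z_cos (3 / 4 * r ^ 2) 2 (by norm_num) (-(2 * S) + 2 * φ)) <|
      Mom_Z_add (Mom_Z_cos (3 / 4 * r ^ 2) 4 (by norm_num) (-(2 * S) - 2 * φ)) <|
      Mom_Z_add (Mom_Z_cos (3 / 2 * r ^ 3) 1 (by norm_num) (-S + φ)) <|
      Mom_Z_add (Mom_Z_cos (3 / 2 * r ^ 3) 2 (by norm_num) (-S - φ)) <|
      Mom_Z_add (Mom_Z_cos (1 / 2 * r ^ 3) 3 (by norm_num) (-S - 3 * φ)) <|
      Mom_Z_add (Mom_Z_cos (1 / 2 * r ^ 4) 1 (by norm_num) (-(2 * φ))) <|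
      Mom_Z_cos (1 / 8 * r ^ 4) 2 (by norm_num) (-(4 * φ))
    refine Mom_congr hs fun s => ?_
    rw [Mom_pow4 (3 * s - S) (s - φ) r]
    have e0 : Real.cos (3 * s - S - 3 * (s - φ)) = Real.cos (3 * φ - S) := by
      congr 1
      ring
    rw [e0, add_sub_cancel_left]
    push_cast
    congr 1
    · congr 2
      ring
    congr 1
    · congr 2
      ring
    congr 1
    · congr 2
      ring
    congr 1
    · congr 2
      ring
    congr 1
    · congr 2
      ring
    congr 1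
    · congr 2
      ring
    congr 1
    · congr 2
      ring
    congr 1
    · congr 2
      ring
    congr 1
    · congr 2
      ring
    congr 1
    · congr 2
      ring
    congr 1
    · congr 2
      ring
    congr 1
    · congr 2
      ring
    congr 1
    · congr 2
      ring
    congr 1
    · congr 2
      ring
    congr 2
    ring
  have h1 := hz.2
  rw [intervalIntegral.integral_sub, intervalIntegral.integral_const, smul_eq_mul] at h1
  · linear_combination h1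
  · exact Continuous.intervalIntegrable (by fun_prop) _ _
  · exact Continuous.intervalIntegrable (by fun_prop) _ _

private theorem Mom_poly {u : ℝ} (h0 : 0 ≤ u) (h1 : u ≤ 1) :
    384 + 1792 * u + 640 * u ^ 2 ≤ 11 * (3 + u) ^ 4 := by
  have e : 11 * (3 + u) ^ 4 - (384 + 1792 * u + 640 * u ^ 2) =
      (1 - u) * (507 - 97 * u - 143 * u ^ 2 - 11 * u ^ 3) := by ring
  have h2 : u ^ 2 ≤ 1 := pow_le_one₀ h0 h1
  have h3 : u ^ 3 ≤ 1 := pow_le_one₀ h0 h1
  have h4 : 0 ≤ (1 - u) * (507 - 97 * u - 143 * u ^ 2 - 11 * u ^ 3) :=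
    mul_nonneg (by linarith) (by linarith)
  linarith

theorem mom4 {α β : ℝ} (hα : 0 ≤ Real.cos α) (hβ : 0 ≤ Real.cos β) (h : Real.cos (α - β) ≤ 0) :
    ∫⁻ s, ENNReal.ofReal |Real.cos s * Real.cos (s - α) * Real.cos (s - β)| ^ 4 ∂mu ≤
      ENNReal.ofReal (11 / 64 *
        (1 / 2 - -(Real.cos α * Real.cos β * Real.cos (α - β))) ^ 4) := by
  have hpi := Real.pi_pos
  set z : ℂ := ⟨2 * Real.cos (α - β) + Real.cos (α + β), Real.sin (α + β)⟩ with hz
  set r : ℝ := ‖z‖ with hr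
  set φ : ℝ := z.arg with hφ
  have hP : r * Real.cos φ = 2 * Real.cos (α - β) + Real.cos (α + β) :=
    Complex.norm_mul_cos_arg z
  have hQ : r * Real.sin φ = Real.sin (α + β) := Complex.norm_mul_sin_arg z
  have hr0 : 0 ≤ r := norm_nonneg z
  set t : ℝ := -(Real.cos α * Real.cos β * Real.cos (α - β)) with ht
  have ht0 : 0 ≤ t := by
    have := mul_nonneg hα hβ
    nlinarith
  have hr2 : r ^ 2 = 1 - 8 * t := by
    have h1 := Real.sin_sq_add_cos_sq φ
    have h2 : r ^ 2 = (r * Real.cos φ) ^ 2 + (r * Real.sin φ) ^ 2 := by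
      linear_combination (-r ^ 2) * h1
    rw [h2, hP, hQ]
    have h3 : Real.sin (α + β) ^ 2 = 1 - Real.cos (α + β) ^ 2 := by
      have := Real.sin_sq_add_cos_sq (α + β); linarith
    have h4 : Real.cos (α + β) + Real.cos (α - β) = 2 * (Real.cos α * Real.cos β) := by
      rw [Real.cos_add, Real.cos_sub]; ring
    have h5 : Real.cos (α + β) = 2 * (Real.cos α * Real.cos β) - Real.cos (α - β) := by linarith
    rw [h3, h5, ht]
    ring
  have hr1 : r ≤ 1 := by
    nlinarith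
  have hfun : ∀ s : ℝ, ENNReal.ofReal |Real.cos s * Real.cos (s - α) * Real.cos (s - β)| ^ 4 =
      ENNReal.ofReal (1 / 256 * (Real.cos (3 * s - (α + β)) + r * Real.cos (s - φ)) ^ 4) := by
    intro s
    rw [← ENNReal.ofReal_pow (abs_nonneg _)]
    congr 1
    have h1 := Mom_ident α β s
    have h2 : r * Real.cos (s - φ) = Real.cos s * (2 * Real.cos (α - β) + Real.cos (α + β)) +
        Real.sin s * Real.sin (α + β) := by
      rw [Real.cos_sub, ← hP, ← hQ]
      ring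
    rw [h2, ← h1, Even.pow_abs (by decide : Even 4)]
    ring
  simp only [hfun]
  unfold mu
  rw [lintegral_smul_measure, smul_eq_mul, ← ofReal_integral_eq_lintegral_ofReal]
  · rw [← ENNReal.ofReal_mul (by positivity)]
    apply ENNReal.ofReal_le_ofReal
    rw [MeasureTheory.integral_Icc_eq_integral_Ioc, ← intervalIntegral.integral_of_le (by linarith),
      intervalIntegral.integral_const_mul, Mom_mean]
    have h1 : 1 / Real.pi * (1 / 256 * (Real.pi * (3 / 8 + 3 / 2 * r ^ 2 +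
        1 / 2 * r ^ 3 * Real.cos (3 * φ - (α + β)) + 3 / 8 * r ^ 4))) =
        1 / 256 * (3 / 8 + 3 / 2 * r ^ 2 +
          1 / 2 * r ^ 3 * Real.cos (3 * φ - (α + β)) + 3 / 8 * r ^ 4) := by
      field_simp
    rw [h1]
    have h2 : r ^ 3 * Real.cos (3 * φ - (α + β)) ≤ r ^ 3 :=
      mul_le_of_le_one_right (by positivity) (Real.cos_le_one _)
    have h3 : 2 * r ^ 3 ≤ r ^ 2 + r ^ 4 := by nlinarith [sq_nonneg (r - r ^ 2)]
    have h4 := Mom_poly (u := r ^ 2) (by positivity) (pow_le_one₀ hr0 hr1)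
    have h5 : (1 / 2 - t : ℝ) = (3 + r ^ 2) / 8 := by
      rw [hr2]
      ring
    rw [h5]
    have h6 : (11 / 64 * ((3 + r ^ 2) / 8) ^ 4 : ℝ) = 11 * (3 + r ^ 2) ^ 4 / 262144 := by ring
    rw [h6]
    nlinarith
  · exact (Continuous.integrableOn_Icc (by fun_prop))
  · exact Filter.Eventually.of_forall fun s => by positivity

end MP_a3e05c_co.OUT
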