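import Pool.Agent.Lib.MP_a3e05c_co.OUT.GaussZ

/-!
# EULER, block OUT: the final numerical inequality, definitions and reduction to rational numbers

Paper proof of `red` (n odd, `23 ≤ n ≤ 59`).  Everything is divided by `exp (mainR n) =
Gm n * exp (-1/2)`.  With `m = n - 3` (even), `J = min q (d+e)`, `v = vv q d e`, `c = m - 3 - v`:
* `Gm m / Gm n = (π n/2)^(3/2) (n/m)^((n-5)/2)` (`(n-5)/2` is an integer), `(π/2)^(3/2) ≤ 1.9688`,
  `√n ≤ (n+25)/10`, `exp (1/2) ≤ 1.6488`;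
* `√(2/(π (c+2/5)))^v * Gm c / Gm m = (π m/2)^(3/2) (m/c)^((m-5)/2) (c/(c+2/5))^(v/2)`
  `= (π/2)^(3/2) m √c (m/c)^((m-4)/2) (c/(c+2/5))^(v/2)` (`c - 1 + v = m - 4`),
  `√c ≤ (c+9)/6`, `√(c/(c+2/5)) ≤ (5c+1)/(5c+2)`;
* `exp x ≤ 1/(1 - x/16)^16` for `0 ≤ x < 16`.
-/

open Real

namespace MP_a3e05c_co.OUT

/-- the bound of both outer parts -/
noncomputable def TT (n q d e g : ℕ) : ℝ :=
  11 / 256 * ((((n : ℝ) - 1) * ((n : ℝ) - 2) / 2) * kq (n - 3)) * (101 / 100 * Gm (n - 3)) +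
  11 / 256 * (kq (n - 3 - min q (d + e)) / 2 ^ min q (d + e) * Phi n q d e g) *
    (Gm (n - 3) * Real.exp (XX (n - 3) q d) +
      11 / 256 * (kq (n - 3 - 3 - min q (d + e)) / 2 ^ min q (d + e) * Phi n q d e g) *
        (√(2 / (Real.pi * (((n - 3 - 3 - vv q d e : ℕ) : ℝ) + 2 / 5))) ^ vv q d e *
          (6 / 5 * Gm (n - 3 - 3 - vv q d e))))

/-- the four pairs `(n, q)` which are not covered -/
def Exc (n q : ℕ) : Prop := (n = 23 ∧ q = 9) ∨ (n = 23 ∧ q = 10) ∨ (n = 25 ∧ q = 11) ∨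
  (n = 27 ∧ q = 12)

instance (n q : ℕ) : Decidable (Exc n q) := by unfold Exc; infer_instance

/-- the claimed constant -/
def sQ (q : ℕ) : ℚ := if q ≤ 5 then 7 / 5 else 3 / 2

/-- rational version of `kq` -/
def kqQ (K : ℕ) : ℚ := (1 / 2) ^ (K + 1) * ((K : ℚ) ^ K / ((K : ℚ) + 1) ^ (K + 1))

/-- rational version of `Phi` -/
def PhiQ (n q d e g : ℕ) : ℚ :=
  ((2 : ℚ) ^ d + 2 ^ e) * ((n : ℚ) - 3 + (2 ^ g - 1) * (2 * q - d - e) / g) +
    ((n : ℚ) - 3 + (2 ^ g - 1) * (2 * q - d - e) / g) ^ 2 / 2 +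
    if d + e ≤ q then (2 : ℚ) ^ (d + e) else 0

/-- rational version of `XX` -/
def XXQ (m q d : ℕ) : ℚ :=
  (q : ℚ) / ((m : ℚ) - 1 - d) +
    (q : ℚ) * ((d : ℚ) - 1) / (2 * ((m : ℚ) - 2 - 2 * d) * ((m : ℚ) - 1 - d) ^ 2)

/-- rational upper bound for `TT n q d e g / exp (mainR n)` -/
def TQ (n q d e g : ℕ) : ℚ :=
  16488 / 10000 * (11 / 256) * (19688 / 10000 * n * ((n + 25) / 10) *
    ((n : ℚ) / ((n : ℚ) - 3)) ^ ((n - 5) / 2)) *
  ((((n : ℚ) - 1) * ((n : ℚ) - 2) / 2) * kqQ (n - 3) * (101 / 100) +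
    kqQ (n - 3 - min q (d + e)) / 2 ^ min q (d + e) * PhiQ n q d e g *
      (1 / (1 - XXQ (n - 3) q d / 16) ^ 16 +
        11 / 256 * (kqQ (n - 3 - 3 - min q (d + e)) / 2 ^ min q (d + e) * PhiQ n q d e g) *
          (6 / 5 * (19688 / 10000) * ((n : ℚ) - 3) *
            ((((n - 3 - 3 - vv q d e : ℕ) : ℚ) + 9) / 6) *
            (((n : ℚ) - 3) / ((n - 3 - 3 - vv q d e : ℕ) : ℚ)) ^ ((n - 3 - 4) / 2) *
            ((5 * ((n - 3 - 3 - vv q d e : ℕ) : ℚ) + 1) /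
              (5 * ((n - 3 - 3 - vv q d e : ℕ) : ℚ) + 2)) ^ vv q d e)))


private theorem num_sqrt_c (c : ℝ) (hc : 0 < c) :
    √(2 / (Real.pi * (c + 2 / 5))) ≤ √(2 / (Real.pi * c)) * ((5 * c + 1) / (5 * c + 2)) := by
  have hpi := Real.pi_pos
  have h1 : (0 : ℝ) ≤ (5 * c + 1) / (5 * c + 2) := by positivity
  rw [Real.sqrt_le_left (by positivity), mul_pow, Real.sq_sqrt (by positivity), div_pow,
    div_mul_div_comm, div_le_div_iff₀ (by positivity) (by positivity)]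
  have h2 : 0 < Real.pi * 2 := by positivity
  have h3 : c * (5 * c + 2) ^ 2 ≤ (5 * c + 1) ^ 2 * (c + 2 / 5) := by nlinarith
  nlinarith [mul_le_mul_of_nonneg_left h3 h2.le]

private theorem num_sqrt_nine (c : ℝ) (hc : 0 ≤ c) : √c ≤ (c + 9) / 6 := by
  rw [Real.sqrt_le_left (by positivity)]
  nlinarith [sq_nonneg (c - 9)]

private theorem num_sqrt_25 (n : ℝ) (hn : 0 ≤ n) : √n ≤ (n + 25) / 10 := by
  rw [Real.sqrt_le_left (by positivity)]
  nlinarith [sq_nonneg (n - 25)]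

private theorem num_K : √(2 / Real.pi) * (Real.pi / 2) ^ 2 ≤ 19688 / 10000 := by
  have hpi := Real.pi_pos
  have h1 := Real.pi_lt_d4
  have h0 : (√(2 / Real.pi) * (Real.pi / 2) ^ 2) ^ 2 = (Real.pi / 2) ^ 3 := by
    rw [mul_pow, Real.sq_sqrt (by positivity)]
    field_simp
  have h2 : (Real.pi / 2) ^ 3 ≤ (31416 / 20000 : ℝ) ^ 3 :=
    pow_le_pow_left₀ (by positivity) (by linarith) 3
  refine abs_le_of_sq_le_sq' ?_ (by norm_num) |>.2
  rw [h0]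
  refine h2.trans (by norm_num)

private theorem num_exp_half : Real.exp (1 / 2) ≤ 16488 / 10000 := by
  have h1 : Real.exp (1 / 2) ^ 2 = Real.exp 1 := by
    rw [← Real.exp_nat_mul]
    norm_num
  have h2 := Real.exp_one_lt_d9
  refine abs_le_of_sq_le_sq' ?_ (by norm_num) |>.2
  rw [h1]
  refine h2.le.trans (by norm_num)

private theorem num_exp_le (x : ℝ) (h1 : x < 16) :
    Real.exp x ≤ 1 / (1 - x / 16) ^ 16 := by
  have h2 : 1 - x / 16 ≤ Real.exp (-(x / 16)) := by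
    have := Real.add_one_le_exp (-(x / 16))
    linarith
  have h3 : 0 < 1 - x / 16 := by linarith
  have h4 : (1 - x / 16) ^ 16 ≤ Real.exp (-x) := by
    refine (pow_le_pow_left₀ h3.le h2 16).trans (le_of_eq ?_)
    rw [← Real.exp_nat_mul]
    congr 1
    push_cast
    ring
  rw [le_div_iff₀ (by positivity)]
  calc Real.exp x * (1 - x / 16) ^ 16 ≤ Real.exp x * Real.exp (-x) :=
        mul_le_mul_of_nonneg_left h4 (Real.exp_pos _).le
    _ = 1 := by rw [← Real.exp_add]; simp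

private theorem num_abs {A M P k0 k1 k2 E X S G R1 R2 : ℝ} (hA0 : 0 ≤ A) (hP : 0 ≤ P)
    (h0 : 0 ≤ k0) (h1 : 0 ≤ k1) (h2 : 0 ≤ k2) (hX : 0 ≤ X) (hR : 0 ≤ R2)
    (hA : A ≤ 16488 / 10000 * R1 * M) (hE : E ≤ X) (hS : S * G ≤ R2 * A) :
    11 / 256 * (P * k0) * (101 / 100 * A) + 11 / 256 * k1 * (A * E + 11 / 256 * k2 *
      (S * (6 / 5 * G))) ≤
    16488 / 10000 * (11 / 256) * R1 * (P * k0 * (101 / 100) +
      k1 * (X + 11 / 256 * k2 * (6 / 5 * R2))) * M := by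
  have e1 : A * E ≤ A * X := mul_le_mul_of_nonneg_left hE hA0
  have e2 : 11 / 256 * k2 * (S * (6 / 5 * G)) ≤ 11 / 256 * k2 * (6 / 5 * (R2 * A)) := by
    refine mul_le_mul_of_nonneg_left ?_ (by positivity)
    linarith
  have e3 : 11 / 256 * k1 * (A * E + 11 / 256 * k2 * (S * (6 / 5 * G))) ≤
      11 / 256 * k1 * (A * X + 11 / 256 * k2 * (6 / 5 * (R2 * A))) :=
    mul_le_mul_of_nonneg_left (add_le_add e1 e2) (by positivity)
  have e4 : (11 / 256) * (P * k0 * (101 / 100) +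
      k1 * (X + 11 / 256 * k2 * (6 / 5 * R2))) * A ≤ (11 / 256) * (P * k0 * (101 / 100) +
      k1 * (X + 11 / 256 * k2 * (6 / 5 * R2))) * (16488 / 10000 * R1 * M) :=
    mul_le_mul_of_nonneg_left hA (by positivity)
  linarith

/-- `Gm` on an even number of vertices -/
private theorem num_Gm_even (k : ℕ) :
    Gm (2 * k + 2) = √(2 / Real.pi) * (2 / (Real.pi * ((2 * k + 2 : ℕ) : ℝ))) ^ k := by
  have hpi := Real.pi_pos
  have hm : (0 : ℝ) < ((2 * k + 2 : ℕ) : ℝ) := by exact_mod_cast Nat.succ_pos _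
  rw [Gm_eq (by omega : 1 ≤ 2 * k + 2), show 2 * k + 2 - 1 = 2 * k + 1 by omega, pow_succ, pow_mul,
    Real.sq_sqrt (by positivity)]
  have h1 : √((2 * k + 2 : ℕ) : ℝ) * √(2 / (Real.pi * ((2 * k + 2 : ℕ) : ℝ))) =
      √(2 / Real.pi) := by
    rw [← Real.sqrt_mul (by positivity)]
    congr 1
    field_simp
  calc _ = √((2 * k + 2 : ℕ) : ℝ) * √(2 / (Real.pi * ((2 * k + 2 : ℕ) : ℝ))) *
        (2 / (Real.pi * ((2 * k + 2 : ℕ) : ℝ))) ^ k := by ring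
    _ = _ := by rw [h1]

private theorem num_Gm_odd (k : ℕ) :
    Gm (2 * k + 5) =
      √((2 * k + 5 : ℕ) : ℝ) * (2 / (Real.pi * ((2 * k + 5 : ℕ) : ℝ))) ^ (k + 2) := by
  have hpi := Real.pi_pos
  have hm : (0 : ℝ) < ((2 * k + 5 : ℕ) : ℝ) := by exact_mod_cast Nat.succ_pos _
  rw [Gm_eq (by omega : 1 ≤ 2 * k + 5), show 2 * k + 5 - 1 = 2 * (k + 2) by omega, pow_mul,
    Real.sq_sqrt (by positivity)]

private theorem num_ratio1 (k : ℕ) :
    Gm (2 * k + 2) ≤ 16488 / 10000 * (19688 / 10000 * ((2 * k + 5 : ℕ) : ℝ) *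
      ((((2 * k + 5 : ℕ) : ℝ) + 25) / 10) *
      (((2 * k + 5 : ℕ) : ℝ) / ((2 * k + 2 : ℕ) : ℝ)) ^ k) *
        Real.exp (NCS.mainR ((2 * k + 5 : ℕ) : ℝ)) := by
  have hpi := Real.pi_pos
  have hm : (0 : ℝ) < ((2 * k + 2 : ℕ) : ℝ) := by exact_mod_cast Nat.succ_pos _
  have hn : (0 : ℝ) < ((2 * k + 5 : ℕ) : ℝ) := by exact_mod_cast Nat.succ_pos _
  have h1 : Gm (2 * k + 2) = (√(2 / Real.pi) * (Real.pi / 2) ^ 2) * ((2 * k + 5 : ℕ) : ℝ) *
      √((2 * k + 5 : ℕ) : ℝ) * (((2 * k + 5 : ℕ) : ℝ) / ((2 * k + 2 : ℕ) : ℝ)) ^ k *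
        Gm (2 * k + 5) := by
    rw [num_Gm_even, num_Gm_odd]
    set m : ℝ := ((2 * k + 2 : ℕ) : ℝ)
    set n : ℝ := ((2 * k + 5 : ℕ) : ℝ)
    have h2 : √n * √n = n := Real.mul_self_sqrt hn.le
    have h3 : (n / m) ^ k * (2 / (Real.pi * n)) ^ k = (2 / (Real.pi * m)) ^ k := by
      rw [← mul_pow]
      congr 1
      field_simp
    have h4 : (Real.pi / 2) ^ 2 * (2 / (Real.pi * n)) ^ 2 * (n * n) = 1 := by
      field_simp
    calc √(2 / Real.pi) * (2 / (Real.pi * m)) ^ k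
        = √(2 / Real.pi) * ((n / m) ^ k * (2 / (Real.pi * n)) ^ k) *
            ((Real.pi / 2) ^ 2 * (2 / (Real.pi * n)) ^ 2 * (n * n)) := by rw [h3, h4, mul_one]
      _ = √(2 / Real.pi) * ((n / m) ^ k * (2 / (Real.pi * n)) ^ k) *
            ((Real.pi / 2) ^ 2 * (2 / (Real.pi * n)) ^ 2 * (n * (√n * √n))) := by rw [h2]
      _ = _ := by ring
  have h5 : Gm (2 * k + 5) ≤ 16488 / 10000 * Real.exp (NCS.mainR ((2 * k + 5 : ℕ) : ℝ)) := by
    unfold Gm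
    rw [Real.exp_add, mul_comm]
    exact mul_le_mul_of_nonneg_right num_exp_half (Real.exp_pos _).le
  have h6 : (0 : ℝ) ≤ (((2 * k + 5 : ℕ) : ℝ) / ((2 * k + 2 : ℕ) : ℝ)) ^ k := by positivity
  have h7 := num_sqrt_25 _ hn.le
  have h8 := num_K
  rw [h1]
  have h9 : 0 ≤ √(2 / Real.pi) * (Real.pi / 2) ^ 2 := by positivity
  have h10 : (√(2 / Real.pi) * (Real.pi / 2) ^ 2) * ((2 * k + 5 : ℕ) : ℝ) *
      √((2 * k + 5 : ℕ) : ℝ) ≤ 19688 / 10000 * ((2 * k + 5 : ℕ) : ℝ) *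
      ((((2 * k + 5 : ℕ) : ℝ) + 25) / 10) :=
    mul_le_mul (mul_le_mul_of_nonneg_right h8 hn.le) h7 (Real.sqrt_nonneg _) (by positivity)
  calc _ ≤ (19688 / 10000 * ((2 * k + 5 : ℕ) : ℝ) *
      ((((2 * k + 5 : ℕ) : ℝ) + 25) / 10)) *
        (((2 * k + 5 : ℕ) : ℝ) / ((2 * k + 2 : ℕ) : ℝ)) ^ k *
        (16488 / 10000 * Real.exp (NCS.mainR ((2 * k + 5 : ℕ) : ℝ))) := by
        refine mul_le_mul (mul_le_mul_of_nonneg_right h10 h6) h5 (Real.exp_pos _).le ?_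
        positivity
    _ = _ := by ring

private theorem num_ratio2 (k v c : ℕ) (hc : 0 < c) (hcv : c + v = 2 * k - 1) (hk : 1 ≤ k) :
    √(2 / (Real.pi * ((c : ℝ) + 2 / 5))) ^ v * Gm c ≤
      (19688 / 10000 * ((2 * k + 2 : ℕ) : ℝ) * (((c : ℝ) + 9) / 6) *
        (((2 * k + 2 : ℕ) : ℝ) / (c : ℝ)) ^ (k - 1) *
        ((5 * (c : ℝ) + 1) / (5 * (c : ℝ) + 2)) ^ v) * Gm (2 * k + 2) := by
  have hpi := Real.pi_pos
  have hm : (0 : ℝ) < ((2 * k + 2 : ℕ) : ℝ) := by exact_mod_cast Nat.succ_pos _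
  have hc' : (0 : ℝ) < (c : ℝ) := by exact_mod_cast hc
  rw [num_Gm_even, Gm_eq (by omega : 1 ≤ c)]
  set m : ℝ := ((2 * k + 2 : ℕ) : ℝ)
  set s : ℝ := √(2 / (Real.pi * c)) with hs
  set u : ℝ := (5 * (c : ℝ) + 1) / (5 * (c : ℝ) + 2) with hu
  have hu0 : 0 ≤ u := by positivity
  have hs0 : 0 ≤ s := Real.sqrt_nonneg _
  have h1 : √(2 / (Real.pi * ((c : ℝ) + 2 / 5))) ^ v ≤ (s * u) ^ v :=
    pow_le_pow_left₀ (Real.sqrt_nonneg _) (num_sqrt_c c hc') v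
  have h2 : s ^ v * s ^ (c - 1) = (2 / (Real.pi * c)) ^ (k - 1) := by
    rw [← pow_add, show v + (c - 1) = 2 * (k - 1) by omega, pow_mul, hs,
      Real.sq_sqrt (by positivity)]
  obtain ⟨j, rfl⟩ : ∃ j, k = j + 1 := ⟨k - 1, by omega⟩
  have h3 : (2 / (Real.pi * c)) ^ j = (m / c) ^ j * (2 / (Real.pi * m)) ^ j := by
    rw [← mul_pow]
    congr 1
    field_simp
  have h4 : √(2 / Real.pi) * √(2 / Real.pi) = 2 / Real.pi := Real.mul_self_sqrt (by positivity)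
  have h5 : (2 / (Real.pi * m)) ^ j =
      (√(2 / Real.pi) * (Real.pi / 2) ^ 2) * m * (√(2 / Real.pi) *
        (2 / (Real.pi * m)) ^ (j + 1)) := by
    have h6 : (2 / Real.pi) * (Real.pi / 2) ^ 2 * m * (2 / (Real.pi * m)) = 1 := by
      field_simp
    calc (2 / (Real.pi * m)) ^ j = (2 / (Real.pi * m)) ^ j *
          ((2 / Real.pi) * (Real.pi / 2) ^ 2 * m * (2 / (Real.pi * m))) := by rw [h6, mul_one]
      _ = (2 / (Real.pi * m)) ^ j *
          ((√(2 / Real.pi) * √(2 / Real.pi)) * (Real.pi / 2) ^ 2 * m *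
            (2 / (Real.pi * m))) := by rw [h4]
      _ = _ := by ring
  have h7 := num_sqrt_nine c hc'.le
  have h8 := num_K
  rw [show j + 1 - 1 = j by omega] at h2 ⊢
  calc √(2 / (Real.pi * ((c : ℝ) + 2 / 5))) ^ v * (√c * s ^ (c - 1))
      ≤ (s * u) ^ v * (√c * s ^ (c - 1)) := mul_le_mul_of_nonneg_right h1 (by positivity)
    _ = √c * (s ^ v * s ^ (c - 1)) * u ^ v := by rw [mul_pow]; ring
    _ = √c * ((m / c) ^ j * ((√(2 / Real.pi) * (Real.pi / 2) ^ 2) * m * (√(2 / Real.pi) *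
        (2 / (Real.pi * m)) ^ (j + 1)))) * u ^ v := by rw [h2, h3, ← h5]
    _ = (√(2 / Real.pi) * (Real.pi / 2) ^ 2) * (√c * (m * (m / c) ^ j * u ^ v *
        (√(2 / Real.pi) * (2 / (Real.pi * m)) ^ (j + 1)))) := by ring
    _ ≤ (19688 / 10000) * ((((c : ℝ) + 9) / 6) * (m * (m / c) ^ j * u ^ v *
        (√(2 / Real.pi) * (2 / (Real.pi * m)) ^ (j + 1)))) := by
        refine mul_le_mul h8 (mul_le_mul_of_nonneg_right h7 (by positivity)) (by positivity)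
          (by norm_num)
    _ = _ := by ring

theorem red {n q d e g : ℕ} (hn : Odd n) (h23 : 23 ≤ n) (hq3 : 3 ≤ q) (hq : 2 * q + 3 ≤ n)
    (hP : Pat q d e g) :
    TT n q d e g ≤ (TQ n q d e g : ℝ) * exp (NCS.mainR n) := by
  obtain ⟨k, rfl⟩ : ∃ k, n = 2 * k + 5 := by
    obtain ⟨j, rfl⟩ := hn
    exact ⟨j - 2, by omega⟩
  have h3d := hP.d3
  have hge := hP.ge
  have hed := hP.ed'
  have hg2 := hP.g2
  have hde := hP.de
  have hv : vv q d e ≤ q := min_le_left _ _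
  have e1 : 2 * k + 5 - 3 = 2 * k + 2 := by omega
  have e2 : 2 * k + 2 - 4 = 2 * (k - 1) := by omega
  have e3 : (2 * k + 5 - 5) / 2 = k := by omega
  have e4 : 2 * (k - 1) / 2 = k - 1 := by omega
  have e5 : (((2 * k + 5 : ℕ) : ℝ) - 3) = ((2 * k + 2 : ℕ) : ℝ) := by push_cast; ring
  -- the casts
  have ckq : ∀ K : ℕ, ((kqQ K : ℚ) : ℝ) = kq K := by
    intro K
    unfold kqQ kq
    push_cast
    rfl
  have cPhi : ((PhiQ (2 * k + 5) q d e g : ℚ) : ℝ) = Phi (2 * k + 5) q d e g := by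
    unfold PhiQ Phi
    split_ifs <;> push_cast <;> rfl
  have cXX : ((XXQ (2 * k + 2) q d : ℚ) : ℝ) = XX (2 * k + 2) q d := by
    unfold XXQ XX
    push_cast
    rfl
  -- signs
  have kq0 : ∀ K : ℕ, 0 ≤ kq K := fun K => by unfold kq; positivity
  have hqr : (0 : ℝ) ≤ 2 * (q : ℝ) - d - e := by
    have : ((d + e : ℕ) : ℝ) ≤ ((2 * q : ℕ) : ℝ) := by exact_mod_cast (by omega : d + e ≤ 2 * q)
    push_cast at this
    linarith
  have hg0 : (0 : ℝ) ≤ (2 : ℝ) ^ g - 1 := by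
    have := one_le_pow₀ (by norm_num : (1 : ℝ) ≤ 2) (n := g)
    linarith
  have hPhi0 : 0 ≤ Phi (2 * k + 5) q d e g := by
    unfold Phi
    have h1 : (0 : ℝ) ≤ ((2 * k + 5 : ℕ) : ℝ) - 3 + (2 ^ g - 1) * (2 * q - d - e) / g := by
      rw [e5]
      positivity
    have h2 : (0 : ℝ) ≤ if d + e ≤ q then (2 : ℝ) ^ (d + e) else 0 := by
      split_ifs <;> positivity
    positivity
  have hXX : XX (2 * k + 2) q d < 16 := by
    unfold XX
    have a1 : ((2 * q : ℕ) : ℝ) ≤ ((2 * k + 2 : ℕ) : ℝ) := by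
      exact_mod_cast (by omega : 2 * q ≤ 2 * k + 2)
    have a2 : ((3 * d : ℕ) : ℝ) ≤ ((2 * q : ℕ) : ℝ) := by exact_mod_cast h3d
    have a3 : ((2 * 9 + 2 : ℕ) : ℝ) ≤ ((2 * k + 2 : ℕ) : ℝ) := by
      exact_mod_cast (by omega : 2 * 9 + 2 ≤ 2 * k + 2)
    have a4 : ((2 : ℕ) : ℝ) ≤ (d : ℝ) := by exact_mod_cast (by omega : 2 ≤ d)
    rw [Nat.cast_mul] at a1 a2
    rw [Nat.cast_mul] at a2
    push_cast at a3 a4
    set m : ℝ := ((2 * k + 2 : ℕ) : ℝ) with hm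
    have a5 : (20 : ℝ) ≤ m := by
      rw [hm]; push_cast; linarith
    have b1 : (m : ℝ) / 3 ≤ m - 1 - d := by push_cast at a1 a2; linarith
    have b2 : (4 : ℝ) ≤ m - 2 - 2 * d := by push_cast at a1 a2; linarith
    have b3 : (q : ℝ) / (m - 1 - d) ≤ 2 := by
      rw [div_le_iff₀ (by linarith)]
      push_cast at a1 a2
      linarith
    have b4 : (q : ℝ) * ((d : ℝ) - 1) / (2 * (m - 2 - 2 * d) * (m - 1 - d) ^ 2) ≤ 1 := by
      rw [div_le_one (by have : 0 < m - 1 - d := by linarith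
                         have : 0 < m - 2 - 2 * d := by linarith
                         positivity)]
      push_cast at a1 a2
      have c1 : (q : ℝ) * ((d : ℝ) - 1) ≤ (m / 2) * (m / 3) := by
        refine mul_le_mul (by linarith) (by linarith) (by linarith) (by linarith)
      have c2 : (m / 3) ^ 2 ≤ (m - 1 - d) ^ 2 := pow_le_pow_left₀ (by linarith) b1 2
      have c3 : 8 * (m / 3) ^ 2 ≤ 2 * (m - 2 - 2 * d) * (m - 1 - d) ^ 2 := by
        refine mul_le_mul (by linarith) c2 (by positivity) (by linarith)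
      refine c1.trans (le_trans ?_ c3)
      nlinarith [sq_nonneg m]
    linarith
  have hE := num_exp_le _ hXX
  set c : ℕ := 2 * k + 2 - 3 - vv q d e with hcdef
  have hc0 : 0 < c := by omega
  have r1 := num_ratio1 k
  have r2 := num_ratio2 k (vv q d e) c hc0 (by omega) (by omega)
  have hX0 : (0 : ℝ) ≤ 1 / (1 - XX (2 * k + 2) q d / 16) ^ 16 := by
    have : 0 < 1 - XX (2 * k + 2) q d / 16 := by linarith
    positivity
  have hP0 : (0 : ℝ) ≤ (((2 * k + 5 : ℕ) : ℝ) - 1) * (((2 * k + 5 : ℕ) : ℝ) - 2) / 2 := by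
    push_cast
    have : (0 : ℝ) ≤ k := Nat.cast_nonneg k
    have h1 : (0 : ℝ) ≤ 2 * (k : ℝ) + 5 - 1 := by linarith
    have h2 : (0 : ℝ) ≤ 2 * (k : ℝ) + 5 - 2 := by linarith
    positivity
  have hA0 : 0 ≤ Gm (2 * k + 2) := (Real.exp_pos _).le
  have hk1 : 0 ≤ kq (2 * k + 2 - min q (d + e)) / 2 ^ min q (d + e) * Phi (2 * k + 5) q d e g :=
    mul_nonneg (div_nonneg (kq0 _) (by positivity)) hPhi0
  have hk2 : 0 ≤ kq (2 * k + 2 - 3 - min q (d + e)) / 2 ^ min q (d + e) *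
      Phi (2 * k + 5) q d e g :=
    mul_nonneg (div_nonneg (kq0 _) (by positivity)) hPhi0
  have key := num_abs hA0 hP0 (kq0 (2 * k + 2)) hk1 hk2 hX0 (by positivity) r1 hE r2
  have hL : TT (2 * k + 5) q d e g = 11 / 256 * ((((2 * k + 5 : ℕ) : ℝ) - 1) *
      (((2 * k + 5 : ℕ) : ℝ) - 2) / 2 * kq (2 * k + 2)) * (101 / 100 * Gm (2 * k + 2)) +
      11 / 256 * (kq (2 * k + 2 - min q (d + e)) / 2 ^ min q (d + e) *
        Phi (2 * k + 5) q d e g) * (Gm (2 * k + 2) * Real.exp (XX (2 * k + 2) q d) +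
      11 / 256 * (kq (2 * k + 2 - 3 - min q (d + e)) / 2 ^ min q (d + e) *
        Phi (2 * k + 5) q d e g) * (√(2 / (Real.pi * ((c : ℝ) + 2 / 5))) ^ vv q d e *
          (6 / 5 * Gm c))) := by
    unfold TT
    rw [e1, ← hcdef]
  rw [hL]
  refine key.trans (le_of_eq ?_)
  unfold TQ
  rw [e1, ← hcdef, e2, e3, e4]
  push_cast [ckq, cPhi, cXX]
  ring

end MP_a3e05c_co.OUT
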