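import Pool.Agent.Lib.MP_a3e05c_co.OUT.Shift
import Pool.Agent.Lib.MP_a3e05c_co.OUT.Star
import Pool.Agent.Lib.MP_a3e05c_co.OUT.Mom
import Pool.Agent.Lib.MP_a3e05c_co.OUT.TB
import Pool.Agent.Lib.MP_a3e05c_co.RT.Trig

/-!
# EULER, block OUT: two vertices at distance more than `π/2`

Paper proof.  Let `S = univ \ {w, i, j}`, `G = cm F w i j ⊆ S`, `|G| ≥ n - 3 - f_i - f_j ≥ 4`
(`card_split`), angles with `θ w = 0`, `|θ i|, |θ j| ≤ π/2` (`mu_ae`), `|θ i - θ j| > π/2`,
`α = θ i`, `β = θ j`, `t = -(cos α cos β cos (α - β)) ∈ [0, 1/8]` (`RT.tri_le`; the cosines of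
`α`, `β` are `≥ 0`, that of `α - β` is `≤ 0`).  Write `h u = |cos θ_u cos (θ_u - α) cos (θ_u - β)|`,
`h u ≤ 1/2 - t` (`RT.tri_bound`).  By `split`
`PE (KE \ F) ≤ t * ∏_{u ∈ G} h u * PE (KS S \ F)`.  Choose four elements `u_1, .., u_4` of `G`:
`∏_G h u ≤ (1/2 - t)^(|G| - 4) * (1/4) ∑_k (h u_k)^4` (AM-GM).  For each `k`, integrating over the
coordinates in `S`: by `gauge` (`S.erase u_k` first, `h u_k` does not depend on these coordinates)
the integral of `(h u_k)^4 * PE (KS S \ F)` is `(∫⁻ (h s)^4 dmu) * Mn F S ≤ (11/64) (1/2 - t)^4 Mn F S`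
(`mom4`).  So the marginal over `S` is at most
`(11/64) t (1/2 - t)^|G| Mn F S ≤ (11/64) kq (n - 3 - (f_i + f_j)) Mn F S`
(`(1/2 - t)^|G| ≤ (1/2 - t)^(n - 3 - (f_i + f_j))` because `1/2 - t ≤ 1`, then `kq_bound`).
Finally integrate over the coordinates `i`, `j`: `area`.
-/

set_option linter.unusedSectionVars false

open MeasureTheory Finset
open scoped ENNReal

namespace MP_a3e05c_co.OUT

variable {V : Type} [Fintype V] [DecidableEq V]

private theorem Pair_amgm {G : Finset V} (hG : G.card = 4) (r : V → ℝ) (hr : ∀ u, 0 ≤ r u) :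
    ∏ u ∈ G, r u ≤ ∑ u ∈ G, 1 / 4 * r u ^ 4 := by
  have h := Real.geom_mean_le_arith_mean_weighted G (fun _ => (1 / 4 : ℝ)) (fun u => r u ^ 4)
    (fun _ _ => by norm_num) (by rw [sum_const, hG]; norm_num) (fun u _ => pow_nonneg (hr u) 4)
  refine le_trans (le_of_eq ?_) h
  refine prod_congr rfl fun u _ => ?_
  rw [← Real.rpow_natCast, ← Real.rpow_mul (hr u)]
  norm_num

private theorem Pair_point {F : Finset (Sym2 V)} {w i j : V} (hwi : w ≠ i) (hwj : w ≠ j)
    (hij : i ≠ j) (hw : NC.fd F w = 0) (hF : s(i, j) ∉ F) {α β t : ℝ}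
    (ht : t = -(Real.cos α * Real.cos β * Real.cos (α - β)))
    (hα : 0 ≤ Real.cos α) (hβ : 0 ≤ Real.cos β) (hαβ : Real.cos (α - β) ≤ 0)
    {G : Finset V} (hG : G ⊆ cm F w i j) (hG4 : G.card = 4)
    (θ : V → ℝ) (hw0 : θ w = 0) (hi : θ i = α) (hj : θ j = β) :
    PE (NC.KE V \ F) θ ≤ ∑ u ∈ G,
      ENNReal.ofReal (1 / 4 * (t * (1 / 2 - t) ^ ((cm F w i j).card - 4))) *
        (ENNReal.ofReal |Real.cos (θ u) * Real.cos (θ u - α) * Real.cos (θ u - β)| ^ 4 *
          PE (KS (univ \ {w, i, j}) \ F) θ) := by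
  have ht0 : 0 ≤ t := by
    rw [ht, neg_nonneg]
    exact mul_nonpos_of_nonneg_of_nonpos (mul_nonneg hα hβ) hαβ
  have ht8 : t ≤ 1 / 8 := by
    rw [ht]
    exact RT.tri_le hα hβ hαβ
  have ht2 : 0 ≤ 1 / 2 - t := by linarith
  refine (split hwi hwj hij hw hF θ).trans ?_
  have e1 : ac θ s(w, i) * ac θ s(w, j) * ac θ s(i, j) = ENNReal.ofReal t := by
    rw [ac_mk, ac_mk, ac_mk, hw0, hi, hj, zero_sub, zero_sub, Real.cos_neg, Real.cos_neg,
      abs_of_nonneg hα, abs_of_nonneg hβ, abs_of_nonpos hαβ, ← ENNReal.ofReal_mul hα,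
      ← ENNReal.ofReal_mul (mul_nonneg hα hβ)]
    congr 1
    rw [ht]
    ring
  obtain ⟨r, hr⟩ : ∃ r : V → ℝ, ∀ u, r u =
    |Real.cos (θ u) * Real.cos (θ u - α) * Real.cos (θ u - β)| := ⟨_, fun _ => rfl⟩
  have hr0 : ∀ u, 0 ≤ r u := fun u => by
    rw [hr]
    exact abs_nonneg _
  have e2 : ∀ u, ac θ s(u, w) * ac θ s(u, i) * ac θ s(u, j) = ENNReal.ofReal (r u) := by
    intro u
    rw [ac_mk, ac_mk, ac_mk, hw0, hi, hj, sub_zero, ← ENNReal.ofReal_mul (abs_nonneg _),
      ← abs_mul, ← ENNReal.ofReal_mul (abs_nonneg _), ← abs_mul, hr]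
  have hrt : ∀ u, r u ≤ 1 / 2 - t := by
    intro u
    have h := RT.tri_bound hα hβ hαβ (θ u)
    rw [hr, ht, ← Real.cos_neg (θ u - α), ← Real.cos_neg (θ u - β), neg_sub, neg_sub]
    exact h
  have e4 : ∏ u ∈ cm F w i j, r u ≤
      (∑ u ∈ G, 1 / 4 * r u ^ 4) * (1 / 2 - t) ^ ((cm F w i j).card - 4) := by
    rw [← prod_sdiff hG, mul_comm]
    refine mul_le_mul (Pair_amgm hG4 r hr0) ?_ (prod_nonneg fun u _ => hr0 u)
      (sum_nonneg fun u _ => mul_nonneg (by norm_num) (pow_nonneg (hr0 u) 4))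
    calc ∏ u ∈ cm F w i j \ G, r u ≤ ∏ u ∈ cm F w i j \ G, (1 / 2 - t) :=
          prod_le_prod (fun u _ => hr0 u) fun u _ => hrt u
      _ = (1 / 2 - t) ^ ((cm F w i j).card - 4) := by
          rw [prod_const, card_sdiff_of_subset hG, hG4]
  rw [e1, prod_congr rfl fun u _ => e2 u, ← ENNReal.ofReal_prod_of_nonneg fun u _ => hr0 u,
    ← ENNReal.ofReal_mul ht0]
  have e5 : t * ∏ u ∈ cm F w i j, r u ≤
      ∑ u ∈ G, 1 / 4 * (t * (1 / 2 - t) ^ ((cm F w i j).card - 4)) * r u ^ 4 := by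
    refine (mul_le_mul_of_nonneg_left e4 ht0).trans (le_of_eq ?_)
    rw [sum_mul, mul_sum]
    refine sum_congr rfl fun u _ => ?_
    ring
  have hc : 0 ≤ 1 / 4 * (t * (1 / 2 - t) ^ ((cm F w i j).card - 4)) :=
    mul_nonneg (by norm_num) (mul_nonneg ht0 (pow_nonneg ht2 _))
  calc ENNReal.ofReal (t * ∏ u ∈ cm F w i j, r u) * PE (KS (univ \ {w, i, j}) \ F) θ
      ≤ ENNReal.ofReal (∑ u ∈ G,
          1 / 4 * (t * (1 / 2 - t) ^ ((cm F w i j).card - 4)) * r u ^ 4) *
          PE (KS (univ \ {w, i, j}) \ F) θ :=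
        mul_le_mul_left (ENNReal.ofReal_le_ofReal e5) _
    _ = _ := by
        rw [ENNReal.ofReal_sum_of_nonneg fun u _ => mul_nonneg hc (pow_nonneg (hr0 u) 4), sum_mul]
        refine sum_congr rfl fun u _ => ?_
        rw [ENNReal.ofReal_mul hc, ENNReal.ofReal_pow (hr0 u), mul_assoc, hr]

private theorem Pair_mom (F : Finset (Sym2 V)) {S : Finset V} {k : V} (hk : k ∈ S) {α β t : ℝ}
    (ht : t = -(Real.cos α * Real.cos β * Real.cos (α - β)))
    (hα : 0 ≤ Real.cos α) (hβ : 0 ≤ Real.cos β) (hαβ : Real.cos (α - β) ≤ 0) (x : V → ℝ) :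
    (∫⋯∫⁻_S, (fun θ : V → ℝ =>
        ENNReal.ofReal |Real.cos (θ k) * Real.cos (θ k - α) * Real.cos (θ k - β)| ^ 4 *
          PE (KS S \ F) θ) ∂fun _ : V => mu) x ≤
      ENNReal.ofReal (11 / 64 * (1 / 2 - t) ^ 4) * Mn F S := by
  obtain ⟨g, hg⟩ : ∃ g : ℝ → ℝ≥0∞, ∀ s, g s =
    ENNReal.ofReal |Real.cos s * Real.cos (s - α) * Real.cos (s - β)| ^ 4 := ⟨_, fun _ => rfl⟩
  have hgm : Measurable g := by
    have : g = fun s => ENNReal.ofReal |Real.cos s * Real.cos (s - α) * Real.cos (s - β)| ^ 4 :=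
      funext hg
    rw [this]
    exact (ENNReal.measurable_ofReal.comp
      (Continuous.measurable (by fun_prop))).pow_const 4
  have hf : Measurable fun θ : V → ℝ => g (θ k) * PE (KS S \ F) θ :=
    (hgm.comp (measurable_pi_apply k)).mul (measurable_PE _)
  simp_rw [← hg]
  rw [lmarginal_erase _ hf hk]
  have h1 : ∀ s : ℝ, (∫⋯∫⁻_(S.erase k), (fun θ : V → ℝ => g (θ k) * PE (KS S \ F) θ)
      ∂fun _ : V => mu) (Function.update x k s) = g s * Mn F S := by
    intro s
    rw [← gauge F hk (Function.update x k s)]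
    unfold lmarginal
    refine Eq.trans ?_ (lintegral_const_mul (g s) ((measurable_PE (KS S \ F)).comp
      measurable_updateFinset))
    refine lintegral_congr fun y => ?_
    have hu : Function.updateFinset (Function.update x k s) (S.erase k) y k = s := by
      simp [Function.updateFinset]
    simp only [hu]
  simp_rw [h1]
  rw [lintegral_mul_const _ hgm]
  refine mul_le_mul_left ?_ _
  rw [ht]
  refine le_trans (le_of_eq ?_) (mom4 hα hβ hαβ)
  exact lintegral_congr fun s => hg s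

/-- the marginal over the other vertices -/
theorem pair_inner {F : Finset (Sym2 V)} {w i j : V} (hwi : w ≠ i) (hwj : w ≠ j) (hij : i ≠ j)
    (hw : NC.fd F w = 0) (hF : s(i, j) ∉ F) (h7 : NC.fd F i + NC.fd F j + 7 ≤ Fintype.card V)
    (x : V → ℝ) (hx : x w = 0) (hi : |x i| ≤ Real.pi / 2) (hj : |x j| ≤ Real.pi / 2)
    (hd : Real.pi / 2 < |x i - x j|) :
    (∫⋯∫⁻_(univ \ {w, i, j}), PE (NC.KE V \ F) ∂fun _ : V => mu) x ≤
      ENNReal.ofReal (11 / 64 * kq (Fintype.card V - 3 - (NC.fd F i + NC.fd F j))) *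
        Mn F (univ \ {w, i, j}) := by
  obtain ⟨t, ht⟩ : ∃ t : ℝ, t = -(Real.cos (x i) * Real.cos (x j) * Real.cos (x i - x j)) :=
    ⟨_, rfl⟩
  have hi' := abs_le.1 hi
  have hj' := abs_le.1 hj
  have hα : 0 ≤ Real.cos (x i) := Real.cos_nonneg_of_mem_Icc ⟨hi'.1, hi'.2⟩
  have hβ : 0 ≤ Real.cos (x j) := Real.cos_nonneg_of_mem_Icc ⟨hj'.1, hj'.2⟩
  have hαβ : Real.cos (x i - x j) ≤ 0 := by
    rw [← Real.cos_abs]
    refine Real.cos_nonpos_of_pi_div_two_le_of_le hd.le ?_
    rw [abs_le]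
    constructor <;> linarith [Real.pi_pos, hi'.1, hi'.2, hj'.1, hj'.2]
  have ht0 : 0 ≤ t := by
    rw [ht, neg_nonneg]
    exact mul_nonpos_of_nonneg_of_nonpos (mul_nonneg hα hβ) hαβ
  have ht8 : t ≤ 1 / 8 := by
    rw [ht]
    exact RT.tri_le hα hβ hαβ
  have ht2 : 0 ≤ 1 / 2 - t := by linarith
  have hcs := card_split (F := F) hwi hwj hij
  obtain ⟨G, hG, hG4⟩ := exists_subset_card_eq (s := cm F w i j) (n := 4) (by omega)
  have hGS : ∀ u ∈ G, u ∈ (univ \ {w, i, j} : Finset V) := fun u hu =>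
    (mem_filter.1 (hG hu)).1
  have hne : ∀ a : V, a ∈ ({w, i, j} : Finset V) → ∀ y : ((univ \ {w, i, j} : Finset V) : Type) → ℝ,
      Function.updateFinset x (univ \ {w, i, j}) y a = x a := by
    intro a ha y
    have : a ∉ (univ \ {w, i, j} : Finset V) := fun h => (mem_sdiff.1 h).2 ha
    simp only [Function.updateFinset, this, dite_false]
  have hwm : w ∈ ({w, i, j} : Finset V) := by simp
  have him : i ∈ ({w, i, j} : Finset V) := by simp
  have hjm : j ∈ ({w, i, j} : Finset V) := by simp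
  have hC : ENNReal.ofReal (1 / 4 * (t * (1 / 2 - t) ^ ((cm F w i j).card - 4))) ≠ ∞ :=
    ENNReal.ofReal_ne_top
  have hmeas : ∀ u : V, Measurable fun θ : V → ℝ =>
      ENNReal.ofReal |Real.cos (θ u) * Real.cos (θ u - x i) * Real.cos (θ u - x j)| ^ 4 *
          PE (KS (univ \ {w, i, j}) \ F) θ := by
    intro u
    refine Measurable.mul ?_ (measurable_PE _)
    have hm : Measurable fun s : ℝ =>
        ENNReal.ofReal |Real.cos s * Real.cos (s - x i) * Real.cos (s - x j)| ^ 4 :=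
      (ENNReal.measurable_ofReal.comp (Continuous.measurable (by fun_prop))).pow_const 4
    exact hm.comp (measurable_pi_apply u)
  calc (∫⋯∫⁻_(univ \ {w, i, j}), PE (NC.KE V \ F) ∂fun _ : V => mu) x
      ≤ ∑ u ∈ G, ENNReal.ofReal (1 / 4 * (t * (1 / 2 - t) ^ ((cm F w i j).card - 4))) *
          (∫⋯∫⁻_(univ \ {w, i, j}), (fun θ : V → ℝ =>
            ENNReal.ofReal |Real.cos (θ u) * Real.cos (θ u - x i) * Real.cos (θ u - x j)| ^ 4 *
              PE (KS (univ \ {w, i, j}) \ F) θ) ∂fun _ : V => mu) x := by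
        unfold lmarginal
        have hstep : ∀ u ∈ G, Measurable fun y : ((univ \ {w, i, j} : Finset V) : Type) → ℝ =>
            ENNReal.ofReal (1 / 4 * (t * (1 / 2 - t) ^ ((cm F w i j).card - 4))) *
              (fun θ : V → ℝ =>
                ENNReal.ofReal |Real.cos (θ u) * Real.cos (θ u - x i) * Real.cos (θ u - x j)| ^ 4 *
                  PE (KS (univ \ {w, i, j}) \ F) θ)
                (Function.updateFinset x (univ \ {w, i, j}) y) := fun u _ =>
          ((hmeas u).comp measurable_updateFinset).const_mul _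
        refine le_trans (lintegral_mono (g := fun y => ∑ u ∈ G,
            ENNReal.ofReal (1 / 4 * (t * (1 / 2 - t) ^ ((cm F w i j).card - 4))) *
              (fun θ : V → ℝ =>
                ENNReal.ofReal |Real.cos (θ u) * Real.cos (θ u - x i) * Real.cos (θ u - x j)| ^ 4 *
                  PE (KS (univ \ {w, i, j}) \ F) θ)
                (Function.updateFinset x (univ \ {w, i, j}) y)) fun y => ?_) (le_of_eq ?_)
        · exact Pair_point hwi hwj hij hw hF ht hα hβ hαβ hG hG4 _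
            ((hne w hwm y).trans hx) (hne i him y) (hne j hjm y)
        · rw [lintegral_finsetSum _ hstep]
          refine sum_congr rfl fun u _ => ?_
          exact lintegral_const_mul _ ((hmeas u).comp measurable_updateFinset)
    _ ≤ ∑ u ∈ G, ENNReal.ofReal (1 / 4 * (t * (1 / 2 - t) ^ ((cm F w i j).card - 4))) *
          (ENNReal.ofReal (11 / 64 * (1 / 2 - t) ^ 4) * Mn F (univ \ {w, i, j})) :=
        sum_le_sum fun u hu => mul_le_mul_right (Pair_mom F (hGS u hu) ht hα hβ hαβ x) _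
    _ = ENNReal.ofReal (11 / 64 * (t * (1 / 2 - t) ^ (cm F w i j).card)) *
          Mn F (univ \ {w, i, j}) := by
        rw [sum_const, hG4, ← mul_assoc, ← ENNReal.ofReal_mul (by positivity), nsmul_eq_mul,
          ← mul_assoc]
        congr 1
        rw [show ((4 : ℕ) : ℝ≥0∞) = ENNReal.ofReal 4 by norm_num, ← ENNReal.ofReal_mul (by norm_num)]
        congr 1
        have hpow : (1 / 2 - t) ^ (cm F w i j).card =
            (1 / 2 - t) ^ ((cm F w i j).card - 4) * (1 / 2 - t) ^ 4 := by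
          rw [← pow_add]
          congr 1
          omega
        rw [hpow]
        ring
    _ ≤ _ := by
        refine mul_le_mul_left (ENNReal.ofReal_le_ofReal ?_) _
        refine mul_le_mul_of_nonneg_left ?_ (by norm_num)
        refine le_trans (mul_le_mul_of_nonneg_left
          (pow_le_pow_of_le_one ht2 (by linarith)
            (show Fintype.card V - 3 - (NC.fd F i + NC.fd F j) ≤ (cm F w i j).card by omega)) ht0)
          (kq_bound ht0 (by linarith) _)

theorem pair_le {F : Finset (Sym2 V)} {w i j : V} (hwi : w ≠ i) (hwj : w ≠ j) (hij : i ≠ j)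
    (hw : NC.fd F w = 0) (hF : s(i, j) ∉ F) (h7 : NC.fd F i + NC.fd F j + 7 ≤ Fintype.card V) :
    (∫⋯∫⁻_(univ.erase w), (fun θ => if Real.pi / 2 < |θ i - θ j| then PE (NC.KE V \ F) θ else 0)
        ∂fun _ : V => mu) (fun _ => 0) ≤
      ENNReal.ofReal (11 / 256 * kq (Fintype.card V - 3 - (NC.fd F i + NC.fd F j))) *
        Mn F (univ \ {w, i, j}) := by
  have hset : (univ : Finset V).erase w = insert i (insert j (univ \ {w, i, j})) := by
    ext u
    simp only [mem_erase, mem_univ, mem_insert, mem_sdiff, mem_singleton]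
    constructor
    · intro h
      by_cases h1 : u = i
      · exact Or.inl h1
      by_cases h2 : u = j
      · exact Or.inr (Or.inl h2)
      · exact Or.inr (Or.inr ⟨trivial, by tauto⟩)
    · rintro (h | h | h)
      · exact ⟨fun h' => hwi (h'.symm.trans h), trivial⟩
      · exact ⟨fun h' => hwj (h'.symm.trans h), trivial⟩
      · exact ⟨fun h' => h.2 (Or.inl h'), trivial⟩
  have hjS : j ∉ (univ \ {w, i, j} : Finset V) := by simp
  have hiS : i ∉ insert j (univ \ {w, i, j} : Finset V) := by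
    simp [hij]
  obtain ⟨C, hC⟩ : ∃ C : ℝ≥0∞, C = ENNReal.ofReal
    (11 / 64 * kq (Fintype.card V - 3 - (NC.fd F i + NC.fd F j))) * Mn F (univ \ {w, i, j}) :=
    ⟨_, rfl⟩
  have hms : MeasurableSet {θ : V → ℝ | Real.pi / 2 < |θ i - θ j|} :=
    measurableSet_lt measurable_const
      ((measurable_pi_apply i).sub (measurable_pi_apply j)).abs
  have hf : Measurable fun θ : V → ℝ =>
      if Real.pi / 2 < |θ i - θ j| then PE (NC.KE V \ F) θ else 0 :=
    Measurable.ite hms (measurable_PE _) measurable_const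
  rw [hset, lmarginal_insert _ hf hiS]
  have hstep : ∀ a : ℝ, (∫⋯∫⁻_(insert j (univ \ {w, i, j})),
      (fun θ : V → ℝ => if Real.pi / 2 < |θ i - θ j| then PE (NC.KE V \ F) θ else 0)
        ∂fun _ : V => mu) (Function.update (fun _ => 0) i a) =
      ∫⁻ b, (∫⋯∫⁻_(univ \ {w, i, j}),
        (fun θ : V → ℝ => if Real.pi / 2 < |θ i - θ j| then PE (NC.KE V \ F) θ else 0)
        ∂fun _ : V => mu) (Function.update (Function.update (fun _ => 0) i a) j b) ∂mu :=
    fun a => lmarginal_insert _ hf hjS _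
  simp_rw [hstep]
  have hpt : ∀ a : ℝ, |a| ≤ Real.pi / 2 → ∀ b : ℝ, |b| ≤ Real.pi / 2 →
      (∫⋯∫⁻_(univ \ {w, i, j}),
        (fun θ : V → ℝ => if Real.pi / 2 < |θ i - θ j| then PE (NC.KE V \ F) θ else 0)
        ∂fun _ : V => mu) (Function.update (Function.update (fun _ => 0) i a) j b) ≤
      C * (if Real.pi / 2 < |a - b| then 1 else 0) := by
    intro a ha b hb
    obtain ⟨x, hx⟩ : ∃ x : V → ℝ, x = Function.update (Function.update (fun _ => 0) i a) j b :=
      ⟨_, rfl⟩
    have hxw : x w = 0 := by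
      rw [hx, Function.update_of_ne hwj, Function.update_of_ne hwi]
    have hxi : x i = a := by
      rw [hx, Function.update_of_ne hij, Function.update_self]
    have hxj : x j = b := by
      rw [hx, Function.update_self]
    rw [← hx]
    have hnei : i ∉ (univ \ {w, i, j} : Finset V) := by simp
    have hupi : ∀ y : ((univ \ {w, i, j} : Finset V) : Type) → ℝ,
        Function.updateFinset x (univ \ {w, i, j}) y i = a := by
      intro y
      simp only [Function.updateFinset, hnei, dite_false, hxi]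
    have hupj : ∀ y : ((univ \ {w, i, j} : Finset V) : Type) → ℝ,
        Function.updateFinset x (univ \ {w, i, j}) y j = b := by
      intro y
      simp only [Function.updateFinset, hjS, dite_false, hxj]
    by_cases hd : Real.pi / 2 < |a - b|
    · rw [if_pos hd, mul_one]
      have h := pair_inner hwi hwj hij hw hF h7 x hxw (by rwa [hxi]) (by rwa [hxj])
        (by rwa [hxi, hxj])
      rw [← hC] at h
      refine le_trans (le_of_eq ?_) h
      unfold lmarginal
      refine lintegral_congr fun y => ?_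
      simp only [hupi y, hupj y, hd, if_true]
    · rw [if_neg hd, mul_zero]
      refine le_of_eq ?_
      unfold lmarginal
      simp only [hupi, hupj, hd, if_false, lintegral_zero]
  calc ∫⁻ a, ∫⁻ b, (∫⋯∫⁻_(univ \ {w, i, j}),
        (fun θ : V → ℝ => if Real.pi / 2 < |θ i - θ j| then PE (NC.KE V \ F) θ else 0)
        ∂fun _ : V => mu) (Function.update (Function.update (fun _ => 0) i a) j b) ∂mu ∂mu
      ≤ ∫⁻ a, ∫⁻ b, C * (if Real.pi / 2 < |a - b| then 1 else 0) ∂mu ∂mu := by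
        refine lintegral_mono_ae ?_
        filter_upwards [mu_ae] with a ha
        refine lintegral_mono_ae ?_
        filter_upwards [mu_ae] with b hb
        exact hpt a ha b hb
    _ = C * ∫⁻ a, ∫⁻ b, (if Real.pi / 2 < |a - b| then (1 : ℝ≥0∞) else 0) ∂mu ∂mu := by
        have hm2 : Measurable fun p : ℝ × ℝ => if Real.pi / 2 < |p.1 - p.2| then (1 : ℝ≥0∞) else 0 :=
          Measurable.ite (measurableSet_lt measurable_const
            (measurable_fst.sub measurable_snd).abs) measurable_const measurable_const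
        have h1 : ∀ a : ℝ, ∫⁻ b, C * (if Real.pi / 2 < |a - b| then (1 : ℝ≥0∞) else 0) ∂mu =
            C * ∫⁻ b, (if Real.pi / 2 < |a - b| then (1 : ℝ≥0∞) else 0) ∂mu := fun a =>
          lintegral_const_mul _ (hm2.comp (measurable_const.prodMk measurable_id))
        simp_rw [h1]
        exact lintegral_const_mul _ (Measurable.lintegral_prod_right' hm2)
    _ ≤ C * ENNReal.ofReal (1 / 4) := mul_le_mul_right area _
    _ = _ := by
        rw [hC, mul_right_comm, ← ENNReal.ofReal_mul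
          (mul_nonneg (by norm_num) (kq_pos _).le)]
        congr 2
        ring

end MP_a3e05c_co.OUT
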