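import Pool.Agent.Lib.MP_a3e05c_co.OUT.Defs

/-!
# EULER, block OUT: invariance by rotation, the gauge vertex

Paper proof.  (1) `lint_shift`: for `g` measurable with period `π`, `∫⁻ g (s + a) dmu = ∫⁻ g dmu`
(both sides are integrals of `g` over one period: `AddCircle.lintegral_preimage`, or
`Function.Periodic` and `isAddFundamentalDomain_Ioc`; `Icc` and `Ioc` differ by a null set).
(2) `lmarg_shift`: induction on `S` with `lmarginal_insert'`/`lmarginal_insert` and (1).
(3) `gauge`: `PE (KS S \ F)` depends only on the coordinates in `S`, has period `π` in each of them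
and is invariant by adding a constant to all coordinates in `S`.  Put `T = S.erase w`, `a = x w`.
By (2) `(∫⋯∫⁻_T f) x = (∫⋯∫⁻_T fun θ => f (θ + a on T)) x`, and for `θ w = a` this integrand is
`f (θ with θ w = 0, then + a on S) = f (θ with θ w = 0)`; so the marginal does not depend on
`x w`, and it does not depend on the other coordinates either (`lmarginal_congr`-type facts).
Integrate over the coordinate `w` (`lmarginal_insert`, `mu` is a probability measure).
-/

set_option linter.unusedSectionVars false

open MeasureTheory Finset
open scoped ENNReal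

namespace MP_a3e05c_co.OUT

private theorem shift_lint_mu (g : ℝ → ℝ≥0∞) : ∫⁻ s, g s ∂mu =
    ENNReal.ofReal (1 / Real.pi) *
      ∫⁻ s in Set.Ioc (-(Real.pi / 2)) (-(Real.pi / 2) + Real.pi), g s := by
  have h : -(Real.pi / 2) + Real.pi = Real.pi / 2 := by ring
  rw [h, mu, lintegral_smul_measure, smul_eq_mul]
  congr 1
  exact setLIntegral_congr Ioc_ae_eq_Icc.symm

theorem lint_shift {g : ℝ → ℝ≥0∞} (hg : Measurable g) (hp : ∀ s, g (s + Real.pi) = g s) (a : ℝ) :
    ∫⁻ s, g (s + a) ∂mu = ∫⁻ s, g s ∂mu := by
  rw [shift_lint_mu, shift_lint_mu]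
  congr 1
  have hper : Function.Periodic g Real.pi := hp
  have h1 : ∫⁻ s in Set.Ioc (-(Real.pi / 2)) (-(Real.pi / 2) + Real.pi), g (s + a) =
      ∫⁻ s in Set.Ioc (-(Real.pi / 2) + a) (-(Real.pi / 2) + a + Real.pi), g s := by
    rw [← lintegral_indicator measurableSet_Ioc, ← lintegral_indicator measurableSet_Ioc,
      ← lintegral_add_right_eq_self (fun s => (Set.Ioc (-(Real.pi / 2) + a)
        (-(Real.pi / 2) + a + Real.pi)).indicator g s) a]
    refine lintegral_congr fun s => ?_
    by_cases hs : s ∈ Set.Ioc (-(Real.pi / 2)) (-(Real.pi / 2) + Real.pi)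
    · have hs' : s + a ∈ Set.Ioc (-(Real.pi / 2) + a) (-(Real.pi / 2) + a + Real.pi) :=
        ⟨by linarith [hs.1], by linarith [hs.2]⟩
      rw [Set.indicator_of_mem hs, Set.indicator_of_mem hs']
    · have hs' : s + a ∉ Set.Ioc (-(Real.pi / 2) + a) (-(Real.pi / 2) + a + Real.pi) :=
        fun h => hs ⟨by linarith [h.1], by linarith [h.2]⟩
      rw [Set.indicator_of_notMem hs, Set.indicator_of_notMem hs']
  rw [h1]
  refine (isAddFundamentalDomain_Ioc Real.pi_pos _).setLIntegral_eq
    (isAddFundamentalDomain_Ioc Real.pi_pos _) g fun z x => ?_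
  obtain ⟨z, hz⟩ := z
  obtain ⟨n, rfl⟩ := AddSubgroup.mem_zmultiples_iff.1 hz
  show g (n • Real.pi + x) = g x
  rw [add_comm]
  exact hper.zsmul n x

variable {V : Type} [DecidableEq V]

theorem lmarg_shift {f : (V → ℝ) → ℝ≥0∞} (hf : Measurable f)
    (hp : ∀ θ v, f (Function.update θ v (θ v + Real.pi)) = f θ) (S : Finset V) (a : ℝ) (x : V → ℝ) :
    (∫⋯∫⁻_S, (fun θ => f (fun v => if v ∈ S then θ v + a else θ v)) ∂fun _ : V => mu) x =
      (∫⋯∫⁻_S, f ∂fun _ : V => mu) x := by
  induction S using Finset.induction generalizing f x with
  | empty => simp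
  | insert w S hw ih =>
    have hmeas : ∀ T : Finset V, Measurable fun θ : V → ℝ => fun v =>
        if v ∈ T then θ v + a else θ v := by
      intro T
      refine measurable_pi_iff.2 fun v => ?_
      by_cases hv : v ∈ T
      · simp only [hv, if_true]
        exact Measurable.add_const (f := fun θ : V → ℝ => θ v) (measurable_pi_apply v) a
      · simp only [hv, if_false]
        exact measurable_pi_apply v
    have hupd : Measurable fun θ : V → ℝ => Function.update θ w (θ w + a) := by
      refine measurable_pi_iff.2 fun v => ?_
      by_cases hv : v = w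
      · subst hv
        simp only [Function.update_self]
        exact Measurable.add_const (f := fun θ : V → ℝ => θ v) (measurable_pi_apply v) a
      · simp only [Function.update_of_ne hv]
        exact measurable_pi_apply v
    have hf' : Measurable fun θ : V → ℝ => f (Function.update θ w (θ w + a)) := hf.comp hupd
    have hp' : ∀ θ v, f (Function.update (Function.update θ v (θ v + Real.pi)) w
        (Function.update θ v (θ v + Real.pi) w + a)) = f (Function.update θ w (θ w + a)) := by
      intro θ v
      by_cases hv : v = w
      · subst hv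
        rw [Function.update_self, Function.update_idem]
        have h := hp (Function.update θ v (θ v + a)) v
        rw [Function.update_self, Function.update_idem] at h
        rw [← h]
        congr 2
        ring
      · rw [Function.update_of_ne (Ne.symm hv), Function.update_comm hv]
        have h := hp (Function.update θ w (θ w + a)) v
        rw [Function.update_of_ne hv] at h
        exact h
    have e1 : (fun θ : V → ℝ => f (fun v => if v ∈ insert w S then θ v + a else θ v)) =
        fun θ => (fun θ' : V → ℝ => f (Function.update θ' w (θ' w + a)))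
          (fun v => if v ∈ S then θ v + a else θ v) := by
      funext θ
      simp only
      congr 1
      funext v
      by_cases hv : v = w
      · subst hv
        simp [hw]
      · rw [Function.update_of_ne hv]
        simp [hv]
    have hf'' : Measurable fun θ : V → ℝ =>
        (fun θ' : V → ℝ => f (Function.update θ' w (θ' w + a)))
          (fun v => if v ∈ S then θ v + a else θ v) := hf'.comp (hmeas S)
    rw [e1, lmarginal_insert _ hf'' hw]
    have e2 : ∀ t : ℝ, (∫⋯∫⁻_S, (fun θ => (fun θ' : V → ℝ => f (Function.update θ' w (θ' w + a)))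
          (fun v => if v ∈ S then θ v + a else θ v)) ∂fun _ : V => mu) (Function.update x w t) =
        (∫⋯∫⁻_S, (fun θ' : V → ℝ => f (Function.update θ' w (θ' w + a))) ∂fun _ : V => mu)
          (Function.update x w t) := fun t => ih hf' hp' _
    simp_rw [e2]
    refine (lmarginal_insert (μ := fun _ : V => mu) _ hf' hw x).symm.trans ?_
    rw [lmarginal_insert' _ hf' hw, lmarginal_insert' _ hf hw]
    congr 1
    congr 1
    funext θ
    simp only [Function.update_self, Function.update_idem]
    refine lint_shift (g := fun t => f (Function.update θ w t))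
      (hf.comp (measurable_update θ)) (fun t => ?_) a
    have h := hp (Function.update θ w t) w
    rw [Function.update_self, Function.update_idem] at h
    exact h

private theorem shift_PE_congr (F : Finset (Sym2 V)) {S : Finset V} {θ θ' : V → ℝ}
    (h : ∀ u ∈ S, ∀ v ∈ S, θ' u - θ' v = θ u - θ v) :
    PE (KS S \ F) θ' = PE (KS S \ F) θ := by
  unfold PE
  refine Finset.prod_congr rfl fun e he => ?_
  have he' := (Finset.mem_sdiff.1 he).1
  induction e with
  | h u v =>
    rw [mem_KS] at he'
    rw [ac_mk, ac_mk, h u he'.1 v he'.2.1]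

private theorem shift_ac_period (θ : V → ℝ) (v : V) (e : Sym2 V) :
    ac (Function.update θ v (θ v + Real.pi)) e = ac θ e := by
  induction e with
  | h a b =>
    rw [ac_mk, ac_mk]
    congr 1
    by_cases ha : a = v
    · by_cases hb : b = v
      · rw [ha, hb, sub_self, sub_self]
      · rw [ha, Function.update_self, Function.update_of_ne hb]
        have : θ v + Real.pi - θ b = θ v - θ b + Real.pi := by ring
        rw [this, Real.cos_add_pi, abs_neg]
    · by_cases hb : b = v
      · rw [hb, Function.update_self, Function.update_of_ne ha]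
        have : θ a - (θ v + Real.pi) = θ a - θ v - Real.pi := by ring
        rw [this, Real.cos_sub_pi, abs_neg]
      · rw [Function.update_of_ne ha, Function.update_of_ne hb]

private theorem shift_PE_period (E : Finset (Sym2 V)) (θ : V → ℝ) (v : V) :
    PE E (Function.update θ v (θ v + Real.pi)) = PE E θ :=
  Finset.prod_congr rfl fun e _ => shift_ac_period θ v e

/-- the value does not depend on the angles off `S` -/
theorem Mn_eq (F : Finset (Sym2 V)) (S : Finset V) (x : V → ℝ) :
    (∫⋯∫⁻_S, PE (KS S \ F) ∂fun _ : V => mu) x = Mn F S := by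
  unfold Mn lmarginal
  refine lintegral_congr fun y => shift_PE_congr F fun u hu v hv => ?_
  simp [Function.updateFinset, hu, hv]

/-- the marginal off `w` is constant -/
private theorem shift_const (F : Finset (Sym2 V)) {S : Finset V} {w : V} (x : V → ℝ) :
    (∫⋯∫⁻_(S.erase w), PE (KS S \ F) ∂fun _ : V => mu) x =
      (∫⋯∫⁻_(S.erase w), PE (KS S \ F) ∂fun _ : V => mu) fun _ => 0 := by
  rw [← lmarg_shift (measurable_PE _) (fun θ v => shift_PE_period _ θ v) (S.erase w) (x w) x]
  unfold lmarginal
  refine lintegral_congr fun y => shift_PE_congr F fun u hu v hv => ?_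
  have key : ∀ u ∈ S, (if u ∈ S.erase w then
      Function.updateFinset x (S.erase w) y u + x w else
        Function.updateFinset x (S.erase w) y u) =
      Function.updateFinset (fun _ => (0 : ℝ)) (S.erase w) y u + x w := by
    intro u hu
    by_cases huw : u = w
    · subst huw
      simp [Function.updateFinset]
    · have hmem : u ∈ S.erase w := Finset.mem_erase.2 ⟨huw, hu⟩
      simp only [Function.updateFinset, hmem, if_true, dif_pos]
  rw [key u hu, key v hv]
  ring

/-- the angle of one vertex `w` may be fixed -/
theorem gauge (F : Finset (Sym2 V)) {S : Finset V} {w : V} (hw : w ∈ S) (x : V → ℝ) :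
    (∫⋯∫⁻_(S.erase w), PE (KS S \ F) ∂fun _ : V => mu) x = Mn F S := by
  unfold Mn
  rw [lmarginal_erase _ (measurable_PE _) hw]
  have h : ∀ t : ℝ, (∫⋯∫⁻_(S.erase w), PE (KS S \ F) ∂fun _ : V => mu)
      (Function.update (fun _ => (0 : ℝ)) w t) =
      (∫⋯∫⁻_(S.erase w), PE (KS S \ F) ∂fun _ : V => mu) x := fun t => by
    rw [shift_const F (Function.update (fun _ => (0 : ℝ)) w t), shift_const F x]
  simp_rw [h]
  rw [lintegral_const, measure_univ, mul_one]

end MP_a3e05c_co.OUT
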