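import Pool.Agent.Lib.MP_a3e05c_co.OUT.Pair

/-!
# EULER, block OUT: the part off the arc

Paper proof.  `OT F w` is the mean over the angles with `θ w = 0` of `PE (KE \ F)` off the domain
`D = {|θ_u - θ_v| ≤ π/2 for all present edges}`.  Off `D` some present edge `e` has `ad θ e > π/2`;
it does not contain `w` for almost all angles (`mu_ae`: `|θ_v| ≤ π/2`, `θ_w = 0`).  So the integrand is
almost everywhere at most the sum over the present edges `e = s(i, j)` with `w ∉ e` of the integrands
of `pair_le` (a.e. inequality: replace the integrand, under the marginal, by using that the marginal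
over `univ.erase w` is an integral for the product measure, `lmarginal` unfolded, or
`lintegral_mono_ae`); apply `pair_le` and `fs F s(i,j) = f_i + f_j`; `Mn ≤ B`; sum.
-/

set_option linter.unusedSectionVars false

open MeasureTheory Finset
open scoped ENNReal

namespace MP_a3e05c_co.OUT

variable {V : Type} [Fintype V] [DecidableEq V]

/-- mean value of `∏ |cos|` off the arc, gauge vertex `w` -/
noncomputable def OT (F : Finset (Sym2 V)) (w : V) : ℝ≥0∞ := by
  classical exact
  (∫⋯∫⁻_(univ.erase w), (fun θ => if ∀ e ∈ NC.KE V \ F, NC.ad θ e ≤ Real.pi / 2 then 0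
    else PE (NC.KE V \ F) θ) ∂fun _ : V => mu) fun _ => 0

private theorem Union_kq_nonneg (K : ℕ) : 0 ≤ kq K := by
  unfold kq
  positivity

private theorem Union_measurable_ad (e : Sym2 V) : Measurable fun θ : V → ℝ => NC.ad θ e := by
  induction e with
  | h u v =>
    show Measurable fun θ : V → ℝ => |θ u - θ v|
    exact ((measurable_pi_apply u).sub (measurable_pi_apply v)).abs

theorem union_le {F : Finset (Sym2 V)} {w : V} (hw : NC.fd F w = 0) {B : ℝ≥0∞}
    (hB : ∀ i j, w ≠ i → w ≠ j → i ≠ j → s(i, j) ∉ F → Mn F (univ \ {w, i, j}) ≤ B)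
    (h7 : ∀ i j, w ≠ i → w ≠ j → i ≠ j → s(i, j) ∉ F →
      NC.fd F i + NC.fd F j + 7 ≤ Fintype.card V) :
    OT F w ≤ ENNReal.ofReal (11 / 256 * ∑ e ∈ (NC.KE V \ F).filter (fun e => w ∉ e),
      kq (Fintype.card V - 3 - fs F e)) * B := by
  classical
  obtain ⟨P, hP⟩ : ∃ P : Finset (Sym2 V), P = (NC.KE V \ F).filter (fun e => w ∉ e) := ⟨_, rfl⟩
  obtain ⟨g, hg⟩ : ∃ g : Sym2 V → (V → ℝ) → ℝ≥0∞, ∀ e θ, g e θ =
      if Real.pi / 2 < NC.ad θ e then PE (NC.KE V \ F) θ else 0 := ⟨_, fun _ _ => rfl⟩
  have hgm : ∀ e, Measurable (g e) := by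
    intro e
    have h1 : g e = fun θ => if Real.pi / 2 < NC.ad θ e then PE (NC.KE V \ F) θ else 0 :=
      funext fun θ => hg e θ
    rw [h1]
    exact Measurable.ite (measurableSet_lt measurable_const (Union_measurable_ad e))
      (measurable_PE _) measurable_const
  -- one edge
  have hone : ∀ e ∈ P, (∫⋯∫⁻_(univ.erase w), g e ∂fun _ : V => mu) (fun _ => 0) ≤
      ENNReal.ofReal (11 / 256 * kq (Fintype.card V - 3 - fs F e)) * B := by
    intro e
    induction e with
    | h i j =>
      intro he
      rw [hP, mem_filter, mem_sdiff, NC.mem_KE] at he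
      obtain ⟨⟨hd, hF⟩, hwe⟩ := he
      have hij : i ≠ j := fun h => hd (Sym2.mk_isDiag_iff.2 h)
      have hwi : w ≠ i := fun h => hwe (h ▸ Sym2.mem_mk_left i j)
      have hwj : w ≠ j := fun h => hwe (h ▸ Sym2.mem_mk_right i j)
      have h1 := pair_le hwi hwj hij hw hF (h7 i j hwi hwj hij hF)
      have h2 : g s(i, j) = fun θ : V → ℝ =>
          if Real.pi / 2 < |θ i - θ j| then PE (NC.KE V \ F) θ else 0 := by
        funext θ
        rw [hg, NC.ad_mk]
      rw [h2, fs_mk]
      exact h1.trans (mul_le_mul_right (hB i j hwi hwj hij hF) _)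
  -- almost everywhere inequality
  have hae : ∀ᵐ y : (∀ _ : (univ.erase w : Finset V), ℝ) ∂(Measure.pi fun _ => mu),
      (if ∀ e ∈ NC.KE V \ F, NC.ad (Function.updateFinset (fun _ => (0 : ℝ)) (univ.erase w) y) e ≤
          Real.pi / 2 then 0
        else PE (NC.KE V \ F) (Function.updateFinset (fun _ => (0 : ℝ)) (univ.erase w) y)) ≤
      ∑ e ∈ P, g e (Function.updateFinset (fun _ => (0 : ℝ)) (univ.erase w) y) := by
    have h1 : ∀ᵐ y : (∀ _ : (univ.erase w : Finset V), ℝ) ∂(Measure.pi fun _ => mu),
        ∀ i, |y i| ≤ Real.pi / 2 := by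
      rw [Filter.eventually_all]
      intro i
      exact (Measure.tendsto_eval_ae_ae (μ := fun _ : (univ.erase w : Finset V) => mu)
        (i := i)).eventually mu_ae
    filter_upwards [h1] with y hy
    set θ : V → ℝ := Function.updateFinset (fun _ => (0 : ℝ)) (univ.erase w) y with hθ
    have hw0 : θ w = 0 := by
      rw [hθ, Function.updateFinset]
      rw [dif_neg (Finset.notMem_erase w univ)]
    have hv : ∀ v, |θ v| ≤ Real.pi / 2 := by
      intro v
      rw [hθ, Function.updateFinset]
      split_ifs with h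
      · exact hy ⟨v, h⟩
      · rw [abs_zero]
        positivity
    split_ifs with h
    · exact zero_le
    · push Not at h
      obtain ⟨e, he, hlt⟩ := h
      have heP : e ∈ P := by
        rw [hP, mem_filter]
        refine ⟨he, ?_⟩
        intro hwe
        obtain ⟨v, rfl⟩ := hwe
        rw [NC.ad_mk, hw0, zero_sub, abs_neg] at hlt
        exact absurd (hv v) (not_le.2 hlt)
      have h3 : PE (NC.KE V \ F) θ = g e θ := by
        rw [hg, if_pos hlt]
      rw [h3]
      exact Finset.single_le_sum (f := fun e => g e θ) (fun _ _ => zero_le) heP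
  calc OT F w
      ≤ ∫⁻ y, ∑ e ∈ P, g e (Function.updateFinset (fun _ => (0 : ℝ)) (univ.erase w) y)
          ∂(Measure.pi fun _ : (univ.erase w : Finset V) => mu) := by
        unfold OT lmarginal
        refine lintegral_mono_ae ?_
        filter_upwards [hae] with y hy
        refine le_trans (le_of_eq ?_) hy
        congr 1
    _ = ∑ e ∈ P, (∫⋯∫⁻_(univ.erase w), g e ∂fun _ : V => mu) (fun _ => 0) := by
        rw [lintegral_finsetSum]
        · rfl
        · intro e _
          exact (hgm e).comp measurable_updateFinset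
    _ ≤ ∑ e ∈ P, ENNReal.ofReal (11 / 256 * kq (Fintype.card V - 3 - fs F e)) * B :=
        Finset.sum_le_sum hone
    _ = ENNReal.ofReal (11 / 256 * ∑ e ∈ (NC.KE V \ F).filter (fun e => w ∉ e),
          kq (Fintype.card V - 3 - fs F e)) * B := by
        rw [← hP, Finset.mul_sum, ENNReal.ofReal_sum_of_nonneg, Finset.sum_mul]
        intro e _
        exact mul_nonneg (by norm_num) (Union_kq_nonneg _)

end MP_a3e05c_co.OUT
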